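import Pool.Agent.Lib.MP_bb37eb_nt.ODD.QP

/-! ODD: norms from ramified quadratic extensions. -/

namespace BB37

section

variable {p : ℕ} [Fact p.Prime]

/-- a unit `x ^ 2 - p * y ^ 2 = u` has `‖x‖ = 1`, `‖y‖ ≤ 1` (the two terms have norms in
`p ^ (even)` and `p ^ (odd)`), so `u` is close to `x ^ 2` -/
theorem square_of_norm_p (hp : p ≠ 2) {u x y : ℚ_[p]} (hu : ‖u‖ = 1)
    (h : x ^ 2 - p * y ^ 2 = u) : IsSquare u := by
  have hp1 : (1 : ℝ) < p := by exact_mod_cast (Fact.out : p.Prime).one_lt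
  have hp0 : (0 : ℝ) < p := by linarith
  have hpinj : Function.Injective (fun k : ℤ => (p : ℝ) ^ k) := zpow_right_injective₀ hp0 hp1.ne'
  by_cases hy : y = 0
  · subst hy
    exact ⟨x, by rw [← h]; ring⟩
  have e2 : ‖(p : ℚ_[p]) * y ^ 2‖ = (p : ℝ) ^ (-(1 + 2 * y.valuation)) := by
    rw [norm_mul, norm_pow, Padic.norm_p, Padic.norm_eq_zpow_neg_valuation hy, ← zpow_natCast,
      ← zpow_mul, ← zpow_neg_one, ← zpow_add₀ hp0.ne']
    congr 1
    push_cast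
    ring
  have hne : ‖x ^ 2‖ ≠ ‖-((p : ℚ_[p]) * y ^ 2)‖ := by
    rw [norm_neg, e2]
    by_cases hx : x = 0
    · rw [hx]
      simp only [ne_eq, OfNat.ofNat_ne_zero, not_false_eq_true, zero_pow, norm_zero]
      exact (zpow_pos hp0 _).ne
    · rw [norm_pow, Padic.norm_eq_zpow_neg_valuation hx, ← zpow_natCast, ← zpow_mul]
      intro hcon
      have := hpinj hcon
      push_cast at this
      omega
  have hmax := Padic.add_eq_max_of_ne hne
  rw [← sub_eq_add_neg, h, hu, norm_neg] at hmax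
  have hlt : ‖(p : ℚ_[p]) * y ^ 2‖ < 1 := by
    have hle : ‖(p : ℚ_[p]) * y ^ 2‖ ≤ 1 := by
      rw [hmax]
      exact le_max_right _ _
    refine lt_of_le_of_ne hle ?_
    rw [e2]
    intro hcon
    have : (fun k : ℤ => (p : ℝ) ^ k) (-(1 + 2 * y.valuation)) = (fun k : ℤ => (p : ℝ) ^ k) 0 := by
      simp only [zpow_zero]
      exact hcon
    have := hpinj this
    omega
  have hx1 : ‖x ^ 2‖ = 1 := by
    rcases max_choice ‖x ^ 2‖ ‖(p : ℚ_[p]) * y ^ 2‖ with h1 | h1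
    · rw [h1] at hmax
      exact hmax.symm
    · rw [h1] at hmax
      linarith
  have hx : ‖x‖ = 1 := by
    rw [norm_pow] at hx1
    exact (pow_eq_one_iff_of_nonneg (norm_nonneg _) two_ne_zero).1 hx1
  refine isSquare_of_near hp hx ?_
  rw [← h, show x ^ 2 - (p : ℚ_[p]) * y ^ 2 - x ^ 2 = -((p : ℚ_[p]) * y ^ 2) by ring, norm_neg]
  exact hlt

theorem square_of_quat_odd' (hp : p ≠ 2) {δ : ℚ_[p]} (h0 : δ ≠ 0)
    (hδ : ∃ s u : ℚ_[p], δ = s ^ 2 * u ∧ ‖u‖ = 1)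
    (h1 : IsQuat (p : ℚ_[p]) δ 1) : IsSquare δ := by
  obtain ⟨s, u, hsu, hu⟩ := hδ
  have hs : s ≠ 0 := by
    rintro rfl
    exact h0 (by rw [hsu]; ring)
  have hu0 : u ≠ 0 := by
    rintro rfl
    exact h0 (by rw [hsu]; ring)
  have hpp : (p : ℚ_[p]) ≠ 0 := by exact_mod_cast (Fact.out : p.Prime).ne_zero
  have h2 : IsQuat (p : ℚ_[p]) u 1 :=
    (IsQuat.congr (s := 1) (s' := s) one_ne_zero hs (by ring) hsu).1 h1
  obtain ⟨x, y, hxy⟩ := (quat_one_iff' hpp hu0 h2).1 rfl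
  obtain ⟨r, hr⟩ := square_of_norm_p hp hu hxy
  exact ⟨s * r, by rw [hsu, hr]; ring⟩

end

end BB37
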