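import Pool.Agent.Lib.MP_bb37eb_nt.ODD.PN

/-! ODD: existence of the norm. -/

namespace BB37

/-- Mathlib's `spectralNorm ℚ_[p] (Kb ℚ_[p])` (`Mathlib/Analysis/Normed/Unbundled/SpectralNorm`):
`spectralNorm_mul`, `isNonarchimedean_spectralNorm`, `spectralNorm_extends`,
`spectralNorm_eq_of_equiv`. For `le_one`: the spectral value of a monic polynomial is `≤ 1` iff all
coefficients have norm `≤ 1`; `minpoly` over the integrally closed `ℤ_[p]`
(`minpoly.isIntegrallyClosed_eq_field_fractions'`). -/
theorem exists_pnorm (p : ℕ) [Fact p.Prime] : Nonempty (PNorm p) := by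
  have hint : ∀ x : Kb ℚ_[p], IsIntegral ℚ_[p] x := fun x => Algebra.IsIntegral.isIntegral x
  refine ⟨⟨spectralNorm ℚ_[p] (Kb ℚ_[p]), ?_, ?_, ?_, ?_, ?_, ?_, ?_⟩⟩
  · intro x y
    exact spectralAlgNorm_mul x y
  · intro x y
    exact isNonarchimedean_spectralNorm x y
  · intro x
    exact spectralNorm_extends x
  · intro x
    exact spectralNorm_nonneg x
  · intro x
    constructor
    · intro h
      exact eq_zero_of_map_spectralNorm_eq_zero h (hint x).isAlgebraic
    · rintro rfl
      exact spectralNorm_zero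
  · intro x
    rw [spectralNorm, spectralValue_le_one_iff (minpoly.monic (hint x))]
    constructor
    · intro h
      have h1 : minpoly ℚ_[p] x ∈ Polynomial.lifts (algebraMap ℤ_[p] ℚ_[p]) := by
        rw [Polynomial.lifts_iff_coeff_lifts]
        intro n
        exact ⟨⟨_, h n⟩, rfl⟩
      obtain ⟨q, hq, -, hm⟩ := Polynomial.lifts_and_natDegree_eq_and_monic h1
        (minpoly.monic (hint x))
      refine ⟨q, hm, ?_⟩
      have h2 := minpoly.aeval ℚ_[p] x
      rw [← hq, Polynomial.aeval_map_algebraMap] at h2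
      exact h2
    · intro h n
      rw [minpoly.isIntegrallyClosed_eq_field_fractions' ℚ_[p] h, Polynomial.coeff_map]
      exact PadicInt.norm_le_one _
  · intro g x
    exact (spectralNorm_eq_of_equiv g x).symm

end BB37
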