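import Pool.Agent.Lib.MP_bb37eb_nt.ODD.UnC

/-! ODD: squares in the residue field. -/

namespace BB37

section

variable {p : ℕ} [Fact p.Prime] (P : PNorm p) {t : ℕ → Kb ℚ_[p]}

/-- the integers of `K(s)` -/
private def resA (P : PNorm p) (s : Kb ℚ_[p]) : Subring (Kb ℚ_[p]) where
  carrier := {x | FxO s x ∧ P.N x ≤ 1}
  mul_mem' := by
    rintro a b ⟨ha, ha'⟩ ⟨hb, hb'⟩
    refine ⟨ha.mul hb, ?_⟩
    rw [P.mul]
    exact mul_le_one₀ ha' (P.nonneg b) hb'
  one_mem' := ⟨fun g _ => map_one g, P.one.le⟩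
  add_mem' := by
    rintro a b ⟨ha, ha'⟩ ⟨hb, hb'⟩
    exact ⟨ha.add hb, le_trans (P.add a b) (max_le ha' hb')⟩
  zero_mem' := ⟨fun g _ => map_zero g, by
    rw [P.zero]
    exact zero_le_one⟩
  neg_mem' := by
    rintro a ⟨ha, ha'⟩
    refine ⟨fun g hg => ?_, ?_⟩
    · rw [map_neg, ha g hg]
    · rw [P.neg]
      exact ha'

/-- its maximal ideal -/
private def resI (P : PNorm p) (s : Kb ℚ_[p]) : Ideal (resA P s) where
  carrier := {x | P.N (x : Kb ℚ_[p]) < 1}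
  add_mem' := by
    intro a b ha hb
    exact lt_of_le_of_lt (P.add _ _) (max_lt ha hb)
  zero_mem' := by
    change P.N 0 < 1
    rw [P.zero]
    exact zero_lt_one
  smul_mem' := by
    intro c a ha
    change P.N ((c : Kb ℚ_[p]) * (a : Kb ℚ_[p])) < 1
    rw [P.mul]
    exact lt_of_le_of_lt (mul_le_of_le_one_left (P.nonneg _) c.2.2) ha

private theorem mem_resI {s : Kb ℚ_[p]} (x : resA P s) :
    x ∈ resI P s ↔ P.N (x : Kb ℚ_[p]) < 1 := Iff.rfl

private theorem resI_max (s : Kb ℚ_[p]) : (resI P s).IsMaximal := by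
  refine Ideal.isMaximal_iff.2 ⟨?_, ?_⟩
  · intro h
    have h1 : P.N (1 : Kb ℚ_[p]) < 1 := h
    rw [P.one] at h1
    exact lt_irrefl _ h1
  · intro J x _ hx hxJ
    have hN : P.N (x : Kb ℚ_[p]) = 1 := le_antisymm x.2.2 (not_lt.1 fun h => hx h)
    have hy : (x : Kb ℚ_[p])⁻¹ ∈ resA P s := by
      refine ⟨FxO.inv x.2.1, ?_⟩
      rw [P.inv, hN, inv_one]
    have hne : (x : Kb ℚ_[p]) ≠ 0 := by
      intro h0
      rw [h0, P.zero] at hN
      exact zero_ne_one hN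
    have e : (⟨(x : Kb ℚ_[p])⁻¹, hy⟩ : resA P s) * x = 1 :=
      Subtype.ext (inv_mul_cancel₀ hne)
    rw [← e]
    exact J.mul_mem_left _ hxJ

private theorem res_finite (hp : p ≠ 2) (ht : IsTh t) (k : ℕ) :
    Finite (resA P (t k) ⧸ resI P (t k)) := by
  classical
  obtain ⟨R, hR1, hR2⟩ := P.residue hp ht k
  let f : R → resA P (t k) ⧸ resI P (t k) := fun r =>
    if h : P.N (r : Kb ℚ_[p]) ≤ 1 then
      Ideal.Quotient.mk (resI P (t k)) ⟨r, hR1 r r.2, h⟩ else 0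
  refine Finite.of_surjective f ?_
  intro y
  obtain ⟨x, rfl⟩ := Ideal.Quotient.mk_surjective y
  obtain ⟨r, hr, h⟩ := hR2 x x.2.1 x.2.2
  have hr1 : P.N r ≤ 1 := by
    have e : r = (x : Kb ℚ_[p]) - (x - r) := by ring
    rw [e]
    exact le_trans (P.sub _ _) (max_le x.2.2 h.le)
  refine ⟨⟨r, hr⟩, ?_⟩
  simp only [f, dif_pos hr1]
  apply (Ideal.Quotient.eq).2
  change P.N (r - x) < 1
  have e : r - (x : Kb ℚ_[p]) = -(x - r) := by ring
  rw [e, P.neg]
  exact h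

/-- in a finite field one of `a`, `b`, `a * b` is a square -/
private theorem sq_or {F : Type} [Field F] [Finite F] {a b : F} (ha : a ≠ 0) (hb : b ≠ 0) :
    IsSquare a ∨ IsSquare b ∨ IsSquare (a * b) := by
  classical
  have := Fintype.ofFinite F
  by_cases hF : ringChar F = 2
  · exact Or.inl (FiniteField.isSquare_of_char_two hF a)
  by_cases h1 : IsSquare a
  · exact Or.inl h1
  by_cases h2 : IsSquare b
  · exact Or.inr (Or.inl h2)
  refine Or.inr (Or.inr ?_)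
  rw [FiniteField.isSquare_iff hF ha] at h1
  rw [FiniteField.isSquare_iff hF hb] at h2
  rw [FiniteField.isSquare_iff hF (mul_ne_zero ha hb), mul_pow,
    (FiniteField.pow_dichotomy hF ha).resolve_left h1,
    (FiniteField.pow_dichotomy hF hb).resolve_left h2]
  ring

private theorem lift_sq {s u : Kb ℚ_[p]} (hu : u ∈ resA P s) (hu1 : P.N u = 1)
    (h : IsSquare (Ideal.Quotient.mk (resI P s) ⟨u, hu⟩)) :
    ∃ x, FxO s x ∧ P.N x = 1 ∧ P.N (u - x ^ 2) < 1 := by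
  obtain ⟨y, hy⟩ := h
  obtain ⟨x, rfl⟩ := Ideal.Quotient.mk_surjective y
  rw [← map_mul] at hy
  have h1 : P.N (u - (x : Kb ℚ_[p]) ^ 2) < 1 := by
    rw [pow_two]
    exact (Ideal.Quotient.eq).1 hy
  refine ⟨x, x.2.1, ?_, h1⟩
  have h2 : P.N ((x : Kb ℚ_[p]) ^ 2) = 1 := by
    rw [← hu1]
    apply P.eq_of_sub_lt
    rw [hu1]
    exact h1
  rw [P.pow] at h2
  exact (pow_eq_one_iff_of_nonneg (P.nonneg _) two_ne_zero).1 h2

/-- the squares have index two in the residue field: among two units of `K(t k)` and their product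
one is a square up to a small error. Proof: the subring `{x | FxO (t k) x ∧ N x ≤ 1}` modulo the
ideal `N x < 1` is a finite field (`residue`) of odd characteristic; `quadraticChar`, or a count. -/
theorem PNorm.res_square (hp : p ≠ 2) (ht : IsTh t) (k : ℕ) {u v : Kb ℚ_[p]}
    (hu : FxO (t k) u) (hv : FxO (t k) v) (hu1 : P.N u = 1) (hv1 : P.N v = 1) :
    ∃ x, FxO (t k) x ∧ P.N x = 1 ∧
      (P.N (u - x ^ 2) < 1 ∨ P.N (v - x ^ 2) < 1 ∨ P.N (u * v - x ^ 2) < 1) := by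
  have hmax := resI_max P (t k)
  have hfin := res_finite P hp ht k
  let _ : Field (resA P (t k) ⧸ resI P (t k)) := Ideal.Quotient.field _
  have hu' : u ∈ resA P (t k) := ⟨hu, hu1.le⟩
  have hv' : v ∈ resA P (t k) := ⟨hv, hv1.le⟩
  have huv1 : P.N (u * v) = 1 := by rw [P.mul, hu1, hv1, one_mul]
  have huv' : u * v ∈ resA P (t k) := ⟨hu.mul hv, huv1.le⟩
  have hne : ∀ (w : Kb ℚ_[p]) (hw : w ∈ resA P (t k)), P.N w = 1 →
      Ideal.Quotient.mk (resI P (t k)) ⟨w, hw⟩ ≠ 0 := by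
    intro w hw hw1 h0
    have h1 : P.N w < 1 := (Ideal.Quotient.eq_zero_iff_mem).1 h0
    rw [hw1] at h1
    exact lt_irrefl _ h1
  rcases sq_or (hne u hu' hu1) (hne v hv' hv1) with h | h | h
  · obtain ⟨x, h1, h2, h3⟩ := lift_sq P hu' hu1 h
    exact ⟨x, h1, h2, Or.inl h3⟩
  · obtain ⟨x, h1, h2, h3⟩ := lift_sq P hv' hv1 h
    exact ⟨x, h1, h2, Or.inr (Or.inl h3)⟩
  · rw [← map_mul] at h
    obtain ⟨x, h1, h2, h3⟩ := lift_sq P huv' huv1 h
    exact ⟨x, h1, h2, Or.inr (Or.inr h3)⟩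

end

end BB37
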