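import Pool.Agent.Lib.MP_bb37eb_nt.ODD.UnD
import Pool.Agent.Lib.MP_bb37eb_nt.ODD.UnE
import Pool.Agent.Lib.MP_bb37eb_nt.ODD.PNE

/-! ODD: square roots of units are unramified. -/

namespace BB37

/-- Proof: with `k' ≥ k` as in `not_all` put `v = t (k'+1) ^ 2 = 2 + t k'`, a unit of `K(t k)` by
`th_succ`. By `sqrt_fixed` `v` is not close to a square of `K(t k)`; so by `res_square` `u` or
`u v` is close to a square and `sqrt_fixed` shows that `r` or `r * t (k'+1)` lies in `K(t k)`; in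
both cases `r` lies in `K(t (k'+1))`. -/
theorem PNorm.unit_sqrt {p : ℕ} [Fact p.Prime] (P : PNorm p) (hp : p ≠ 2) {t : ℕ → Kb ℚ_[p]}
    (ht : IsTh t) (k : ℕ) {r : Kb ℚ_[p]} (hr : FxO (t k) (r ^ 2)) (h1 : P.N r = 1) :
    ∃ k', FxO (t k') r := by
  obtain ⟨k', hk', h2, g₀, h3, h4⟩ := PNorm.not_all hp ht k
  have hv : FxO (t k) (t (k' + 1) ^ 2) := by
    intro g hg
    rw [ht.2, map_add, h2 g hg, map_ofNat]
  have hN : P.N (t (k' + 1)) = 1 := P.th_succ hp ht k'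
  obtain ⟨x, hx, hx1, h⟩ := P.res_square hp ht k hr hv (by rw [P.pow, h1, one_pow])
    (by rw [P.pow, hN, one_pow])
  have key : ∀ y : Kb ℚ_[p], FxO (t k) (y ^ 2) → P.N (y ^ 2 - x ^ 2) < 1 → FxO (t k) y := by
    intro y hy hlt g hg
    refine P.sqrt_fixed hp ?_ (hy g hg) (hx g hg)
    rw [hx1, one_pow]
    exact hlt
  rcases h with h | h | h
  · exact ⟨k, key r hr h⟩
  · exact absurd (key _ hv h g₀ h3) h4
  · refine ⟨k' + 1, ?_⟩
    rw [← mul_pow] at h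
    have h5 : FxO (t k) ((r * t (k' + 1)) ^ 2) := by
      rw [mul_pow]
      exact hr.mul hv
    have h6 : FxO (t (k' + 1)) (r * t (k' + 1)) := (key _ h5 h).mono ht (by omega)
    have h7 : t (k' + 1) ≠ 0 := by
      intro h0
      rw [h0, P.zero] at hN
      exact zero_ne_one hN
    have h8 : r = r * t (k' + 1) * (t (k' + 1))⁻¹ := by
      rw [mul_assoc, mul_inv_cancel₀ h7, mul_one]
    rw [h8]
    exact h6.mul FxO.self.inv

/-- the statement of the interface; `r = 0` or `s ≠ 0` and `unit_sqrt` for `r / s` -/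
theorem ODD_sqrt' (p : Nat.Primes) (hp : p ≠ two) (θ : ℕ → Kb ℚ) (hθ : IsTheta θ) (k : ℕ)
    (r : Kb ℚ_[(p : ℕ)]) (hr : ∀ g : GK ℚ_[(p : ℕ)],
      g (emb ℚ _ (θ k)) = emb ℚ _ (θ k) → g (r ^ 2) = r ^ 2)
    (heven : ∃ s u : Kb ℚ_[(p : ℕ)], r ^ 2 = s ^ 2 * u ∧ IsIntegral ℤ_[(p : ℕ)] u ∧
      IsIntegral ℤ_[(p : ℕ)] u⁻¹ ∧ ∀ g : GK ℚ_[(p : ℕ)],
      g (emb ℚ _ (θ k)) = emb ℚ _ (θ k) → g s = s) :
    ∃ k', ∀ g : GK ℚ_[(p : ℕ)], g (emb ℚ _ (θ k')) = emb ℚ _ (θ k') → g r = r := by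
  have hp2 : (p : ℕ) ≠ 2 := by
    intro h
    exact hp (Subtype.ext h)
  obtain ⟨P⟩ := exists_pnorm (p : ℕ)
  have ht := hθ.emb ℚ_[(p : ℕ)]
  by_cases h0 : r = 0
  · exact ⟨0, fun g _ => by rw [h0, map_zero]⟩
  obtain ⟨s, u, h1, hu, hu', hs⟩ := heven
  have hs0 : s ≠ 0 := by
    rintro rfl
    apply h0
    rw [zero_pow two_ne_zero, zero_mul] at h1
    exact (pow_eq_zero_iff two_ne_zero).1 h1
  have hdiv : (r * s⁻¹) ^ 2 = u := by
    rw [mul_pow, h1, mul_right_comm, ← mul_pow, mul_inv_cancel₀ hs0, one_pow, one_mul]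
  have hu0 : u ≠ 0 := by
    rintro rfl
    apply h0
    rw [mul_zero] at h1
    exact (pow_eq_zero_iff two_ne_zero).1 h1
  have hN : P.N u = 1 := by
    have h2 := (P.le_one u).2 hu
    have h3 := (P.le_one _).2 hu'
    have h4 : P.N u * P.N u⁻¹ = 1 := by rw [← P.mul, mul_inv_cancel₀ hu0, P.one]
    have h5 := P.nonneg u
    nlinarith
  have hN2 : P.N (r * s⁻¹) = 1 := by
    have h2 : P.N (r * s⁻¹) ^ 2 = 1 := by rw [← P.pow, hdiv, hN]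
    exact (pow_eq_one_iff_of_nonneg (P.nonneg _) two_ne_zero).1 h2
  have hfs : FxO (emb ℚ ℚ_[(p : ℕ)] (θ k)) s := hs
  have hfr : FxO (emb ℚ ℚ_[(p : ℕ)] (θ k)) ((r * s⁻¹) ^ 2) := by
    rw [mul_pow]
    exact FxO.mul hr (hfs.inv.pow 2)
  obtain ⟨k', hk'⟩ := P.unit_sqrt hp2 ht k hfr hN2
  refine ⟨max k k', ?_⟩
  have h6 : r = r * s⁻¹ * s := by rw [mul_assoc, inv_mul_cancel₀ hs0, mul_one]
  have h7 : FxO (emb ℚ ℚ_[(p : ℕ)] (θ (max k k'))) (r * s⁻¹ * s) :=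
    (FxO.mono ht (le_max_right k k') hk').mul (FxO.mono ht (le_max_left k k') hfs)
  rw [← h6] at h7
  exact h7

end BB37
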