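import Pool.Agent.Lib.MP_bb37eb_nt.ODD.InvH
import Pool.Agent.Lib.MP_bb37eb_nt.ODD.Sq
import Pool.Agent.Lib.MP_bb37eb_nt.ODD.QPC

/-! Interface of the module ODD: statements used by the module DE. -/

namespace BB37

/-! ### quaternion classes -/

/-- a quaternion class is trivial iff `b` is a norm from `K(sqrt a)` -/
theorem quat_one_iff {K : Type} [Field K] [CharZero K] {a b : K} (ha : a ≠ 0) (hb : b ≠ 0)
    {x : H2 K} (hx : IsQuat a b x) : x = 1 ↔ ∃ u v : K, u ^ 2 - a * v ^ 2 = b := quat_one_iff' ha hb hx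

theorem quat_exists {K : Type} [Field K] (a b : K) : ∃ x : H2 K, IsQuat a b x := quat_exists' a b

theorem quat_sq {K : Type} [Field K] {a b : K} {x : H2 K} (hx : IsQuat a b x) : x * x = 1 := quat_sq' hx

theorem quat_res {a b : ℚ} {x : H2 ℚ} (hx : IsQuat a b x) (K : Type) [Field K] [Algebra ℚ K] :
    IsQuat (algebraMap ℚ K a) (algebraMap ℚ K b) (res ℚ K x) := quat_res' hx

/-- units up to squares at odd primes -/
theorem quat_unit {p : ℕ} [Fact p.Prime] (hp : p ≠ 2) {a δ : ℚ_[p]}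
    (ha : ∃ s u : ℚ_[p], a = s ^ 2 * u ∧ ‖u‖ = 1) (hδ : ∃ s u : ℚ_[p], δ = s ^ 2 * u ∧ ‖u‖ = 1)
    {x : H2 ℚ_[p]} (hx : IsQuat a δ x) : x = 1 := quat_unit' hp ha hδ hx

theorem quat_square {K : Type} [Field K] {a δ : K} (hδ : IsSquare δ)
    {x : H2 K} (hx : IsQuat a δ x) : x = 1 := quat_square' hδ hx

theorem quat_real {a δ : ℝ} (hδ : 0 < δ) {x : H2 ℝ} (hx : IsQuat a δ x) : x = 1 := quat_real' hδ hx

/-- the dyadic squares -/
theorem square_of_quat_two {δ : ℚ_[2]} (h0 : δ ≠ 0)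
    (hδ : ∃ s u : ℚ_[2], δ = s ^ 2 * u ∧ ‖u‖ = 1)
    (h1 : IsQuat (-1 : ℚ_[2]) δ 1) (h2 : IsQuat (2 : ℚ_[2]) δ 1) : IsSquare δ := square_of_quat_two' h0 hδ h1 h2

/-- the squares at an odd prime -/
theorem square_of_quat_odd {p : ℕ} [Fact p.Prime] (hp : p ≠ 2) {δ : ℚ_[p]} (h0 : δ ≠ 0)
    (hδ : ∃ s u : ℚ_[p], δ = s ^ 2 * u ∧ ‖u‖ = 1)
    (h1 : IsQuat (p : ℚ_[p]) δ 1) : IsSquare δ := square_of_quat_odd' hp h0 hδ h1

/-! ### the invariant -/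

theorem ODD_adm_mul (b b' : ∀ v : Place, H2 (Kv v)) (h : Adm b) (h' : Adm b') : Adm (b * b') := adm_mul' b b' h h'

theorem ODD_inv : ∃ (Inv : (∀ v : Place, H2 (Kv v)) → H2 (Kv (some two)))
    (h : ∀ v : Place, H2 (Kv v)),
    (∀ b b', Adm b → Adm b' → Inv (b * b') = Inv b * Inv b') ∧
    (∀ b, Adm b → (Inv b = 1 ↔ Glob b)) ∧
    (∀ v, h v ≠ 1 ∧ h v * h v = 1 ∧ Adm (single v (h v)) ∧
      Inv (single v (h v)) = h (some two)) ∧
    (∀ v x, Adm (single v x) → x * x = 1 → x = 1 ∨ x = h v) ∧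
    (∀ x : H2 (Kv (some two)), x * x = 1 → x = 1 ∨ x = h (some two)) := ODD_inv'

/-! ### unramified extensions at odd primes -/

theorem exists_theta : ∃ θ : ℕ → Kb ℚ, IsTheta θ := IsTh.exists

/-- `K(theta k)` grows with `k` -/
theorem theta_mono {θ : ℕ → Kb ℚ} (hθ : IsTheta θ) {k k' : ℕ} (hk : k ≤ k') {K : Type} [Field K]
    [Algebra ℚ K] {g : GK K} (h : g (emb ℚ K (θ k')) = emb ℚ K (θ k')) :
    g (emb ℚ K (θ k)) = emb ℚ K (θ k) := by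
  have : CharZero K := algebraRat.charZero K
  exact fix_mono (hθ.emb K) hk h

/-- the conjugates of `theta k` lie in the field of `theta k` -/
theorem theta_normal {θ : ℕ → Kb ℚ} (hθ : IsTheta θ) (k : ℕ) {K : Type} [Field K]
    [Algebra ℚ K] {g h : GK K} (hh : h (emb ℚ K (θ k)) = emb ℚ K (θ k)) :
    h (g (emb ℚ K (θ k))) = g (emb ℚ K (θ k)) := by
  have : CharZero K := algebraRat.charZero K
  exact fix_conj (hθ.emb K) k g h hh

/-- square roots of elements of even valuation are unramified -/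
theorem ODD_sqrt (p : Nat.Primes) (hp : p ≠ two) (θ : ℕ → Kb ℚ) (hθ : IsTheta θ) (k : ℕ)
    (r : Kb ℚ_[(p : ℕ)]) (hr : ∀ g : GK ℚ_[(p : ℕ)],
      g (emb ℚ _ (θ k)) = emb ℚ _ (θ k) → g (r ^ 2) = r ^ 2)
    (heven : ∃ s u : Kb ℚ_[(p : ℕ)], r ^ 2 = s ^ 2 * u ∧ IsIntegral ℤ_[(p : ℕ)] u ∧
      IsIntegral ℤ_[(p : ℕ)] u⁻¹ ∧ ∀ g : GK ℚ_[(p : ℕ)],
      g (emb ℚ _ (θ k)) = emb ℚ _ (θ k) → g s = s) :
    ∃ k', ∀ g : GK ℚ_[(p : ℕ)], g (emb ℚ _ (θ k')) = emb ℚ _ (θ k') → g r = r := ODD_sqrt' p hp θ hθ k r hr heven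

/-- unramified cocycles with values in roots of unity are trivial -/
theorem ODD_unramified (p : Nat.Primes) (hp : p ≠ two) (θ : ℕ → Kb ℚ) (hθ : IsTheta θ) (k : ℕ)
    (c : Z2 ℚ_[(p : ℕ)]) (N : ℕ) (hN : 0 < N) (hroot : ∀ q, c.1 q ^ N = 1)
    (hinf : ∀ g g' h h' : GK ℚ_[(p : ℕ)], g (emb ℚ _ (θ k)) = g' (emb ℚ _ (θ k)) →
      h (emb ℚ _ (θ k)) = h' (emb ℚ _ (θ k)) → c.1 (g, h) = c.1 (g', h')) :
    cls c = 1 := ODD_unramified' p hp θ hθ k c N hN hroot hinf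

/-- the integral closure of the `p`-adic integers in the algebraic closure is a valuation ring:
a multiplicative nonarchimedean norm -/
theorem exists_padic_norm (p : ℕ) [Fact p.Prime] : ∃ N : Kb ℚ_[p] → ℝ,
    (∀ x y, N (x * y) = N x * N y) ∧ (∀ x y, N (x + y) ≤ max (N x) (N y)) ∧
    (∀ x : ℚ_[p], N (algebraMap _ _ x) = ‖x‖) ∧ (∀ x, 0 ≤ N x) ∧ (∀ x, N x = 0 ↔ x = 0) ∧
    (∀ x, N x ≤ 1 ↔ IsIntegral ℤ_[p] x) ∧ (∀ (g : GK ℚ_[p]) x, N (g x) = N x) := by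
  obtain ⟨P⟩ := exists_pnorm p
  exact ⟨P.N, P.mul, P.add, P.base, P.nonneg, P.eq_zero, P.le_one, P.gal⟩

end BB37
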