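import Pool.Agent.Lib.MP_bb37eb_nt.ODD.Zt

/-! ODD: comparison of two towers, and the character `chi`. -/

namespace BB37

private theorem chi_pow_eq {F : Type} [Field F] {z : F} {n : ℕ} (hz : IsPrimitiveRoot z n)
    (hz0 : z ≠ 0) (a b : ℕ) : z ^ a = z ^ b ↔ (a : ZMod n) = (b : ZMod n) := by
  have h1 : z ^ a = z ^ b ↔ z ^ ((b : ℤ) - (a : ℤ)) = 1 := by
    rw [zpow_sub₀ hz0, zpow_natCast, zpow_natCast, div_eq_one_iff_eq (pow_ne_zero _ hz0)]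
    exact ⟨Eq.symm, Eq.symm⟩
  rw [h1, hz.zpow_eq_one_iff_dvd, ← ZMod.intCast_eq_intCast_iff_dvd_sub, Int.cast_natCast,
    Int.cast_natCast]

private theorem chi_pow_inv {F : Type} [Field F] {z : F} {n : ℕ} (hz : IsPrimitiveRoot z n)
    (hz0 : z ≠ 0) (a b : ℕ) : z ^ a = (z ^ b)⁻¹ ↔ (a : ZMod n) = -(b : ZMod n) := by
  rw [← mul_eq_one_iff_eq_inv₀ (pow_ne_zero _ hz0), ← pow_add, hz.pow_eq_one_iff_dvd,
    eq_neg_iff_add_eq_zero, ← Nat.cast_add, ZMod.natCast_eq_zero_iff]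

private theorem chi_add_inv {F : Type} [Field F] {a b : F} (ha : a ≠ 0) (hb : b ≠ 0) :
    a + a⁻¹ = b + b⁻¹ ↔ a = b ∨ a = b⁻¹ := by
  constructor
  · intro h
    have h1 : (a - b) * (a * b - 1) = 0 := by
      have h2 : (a + a⁻¹) * (a * b) = (b + b⁻¹) * (a * b) := by rw [h]
      have h3 : (a + a⁻¹) * (a * b) = a * a * b + b := by
        field_simp
      have h4 : (b + b⁻¹) * (a * b) = a * b * b + a := by
        field_simp
      rw [h3, h4] at h2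
      linear_combination h2
    rcases mul_eq_zero.1 h1 with h2 | h2
    · exact Or.inl (sub_eq_zero.1 h2)
    · exact Or.inr (eq_inv_of_mul_eq_one_left (sub_eq_zero.1 h2))
  · rintro (h | h)
    · rw [h]
    · rw [h, inv_inv, add_comm]

section

variable {F : Type} [Field F] [IsAlgClosed F] [CharZero F]

/-- two towers: `t' k = DD (5 ^ j) (t k)`. Proof: `t k = z + z⁻¹`, `t' k = z' + z'⁻¹` by
`IsTh.exists_zeta`, `z' = z ^ m` with `m` odd (`IsPrimitiveRoot.eq_pow_of_pow_eq_one`,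
`IsPrimitiveRoot.pow_iff_coprime`), `exists_five_pow`, `DD_add_inv`. -/
theorem IsTh.exists_DD {t t' : ℕ → F} (ht : IsTh t) (ht' : IsTh t') (k : ℕ) :
    ∃ j < 2 ^ k, t' k = DD (5 ^ j) (t k) := by
  obtain ⟨z, hz, hzt⟩ := ht.exists_zeta k
  obtain ⟨z', hz', hzt'⟩ := ht'.exists_zeta k
  have hn : (2 : ℕ) ^ (k + 2) ≠ 0 := pow_ne_zero _ two_ne_zero
  have hz0 : z ≠ 0 := hz.ne_zero hn
  have : NeZero ((2 : ℕ) ^ (k + 2)) := ⟨hn⟩
  obtain ⟨m, -, hm⟩ := hz.eq_pow_of_pow_eq_one hz'.pow_eq_one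
  have hodd : Odd m := by
    rw [← hm, hz.pow_iff_coprime (Nat.pos_of_ne_zero hn)] at hz'
    rw [← Nat.not_even_iff_odd]
    intro he
    have h1 : 2 ∣ Nat.gcd m (2 ^ (k + 2)) :=
      Nat.dvd_gcd he.two_dvd (dvd_pow_self 2 (by omega))
    rw [Nat.Coprime.gcd_eq_one hz'] at h1
    omega
  obtain ⟨j, hj, h⟩ := exists_five_pow k m hodd
  refine ⟨j, hj, ?_⟩
  rw [hzt', hzt, DD_add_inv hz0, ← hm, inv_pow]
  rw [chi_add_inv (pow_ne_zero _ hz0) (pow_ne_zero _ hz0), chi_pow_eq hz hz0, chi_pow_inv hz hz0,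
    Nat.cast_pow, Nat.cast_ofNat]
  exact h

/-- Proof: with `t k = z + z⁻¹`: `a + a⁻¹ = b + b⁻¹` iff `a = b` or `a = b⁻¹`; then `five_pow_eq`. -/
theorem IsTh.DD_eq_iff {t : ℕ → F} (ht : IsTh t) (k i j : ℕ) :
    DD (5 ^ i) (t k) = DD (5 ^ j) (t k) ↔ i ≡ j [MOD 2 ^ k] := by
  obtain ⟨z, hz, hzt⟩ := ht.exists_zeta k
  have hn : (2 : ℕ) ^ (k + 2) ≠ 0 := pow_ne_zero _ two_ne_zero
  have hz0 : z ≠ 0 := hz.ne_zero hn
  rw [hzt, DD_add_inv hz0, DD_add_inv hz0, inv_pow, inv_pow,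
    chi_add_inv (pow_ne_zero _ hz0) (pow_ne_zero _ hz0), chi_pow_eq hz hz0, chi_pow_inv hz hz0,
    Nat.cast_pow, Nat.cast_pow, Nat.cast_ofNat]
  exact five_pow_eq k i j

end

/-- the logarithm of the action of `g` on `t k` -/
noncomputable def chi {K : Type} [Field K] (t : ℕ → Kb K) (k : ℕ) (g : GK K) : ℕ :=
  sInf {j | g (t k) = DD (5 ^ j) (t k)}

section

variable {K : Type} [Field K] [CharZero K] {t : ℕ → Kb K}

/-- `IsTh.exists_DD` for `t' = g t` (`charZero_Kb K` gives the instance) -/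
theorem chi_spec (ht : IsTh t) (k : ℕ) (g : GK K) :
    g (t k) = DD (5 ^ chi t k g) (t k) := by
  have : CharZero (Kb K) := charZero_Kb K
  obtain ⟨j, -, h⟩ := ht.exists_DD (ht.map (g : Kb K →+* Kb K)) k
  exact Nat.sInf_mem (s := {j | g (t k) = DD (5 ^ j) (t k)}) ⟨j, h⟩

theorem chi_lt (ht : IsTh t) (k : ℕ) (g : GK K) : chi t k g < 2 ^ k := by
  have : CharZero (Kb K) := charZero_Kb K
  obtain ⟨j, hj, h⟩ := ht.exists_DD (ht.map (g : Kb K →+* Kb K)) k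
  exact (Nat.sInf_le (s := {j | g (t k) = DD (5 ^ j) (t k)}) h).trans_lt hj

theorem chi_iff (ht : IsTh t) (k : ℕ) (g : GK K) (j : ℕ) :
    g (t k) = DD (5 ^ j) (t k) ↔ j ≡ chi t k g [MOD 2 ^ k] := by
  have : CharZero (Kb K) := charZero_Kb K
  rw [chi_spec ht k g, ht.DD_eq_iff]
  exact ⟨Nat.ModEq.symm, Nat.ModEq.symm⟩

end

end BB37
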