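import Pool.Agent.Lib.MP_bb37eb_nt.ODD.Chi

/-! ODD: formal properties of `chi`. -/

namespace BB37

section

variable {K : Type} [Field K] [CharZero K] {t : ℕ → Kb K}

omit [CharZero K] in
private theorem map_DD' (g : GK K) (m : ℕ) (x : Kb K) : g (DD m x) = DD m (g x) :=
  map_DD ((g : Kb K ≃ₐ[K] Kb K) : Kb K →+* Kb K) m x

private theorem chi_unique (ht : IsTh t) (k : ℕ) (g : GK K) {j : ℕ}
    (h : g (t k) = DD (5 ^ j) (t k)) : chi t k g = j % 2 ^ k := by
  have h1 := (chi_iff ht k g j).1 h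
  have h2 := chi_lt ht k g
  have h3 : chi t k g % 2 ^ k = chi t k g := Nat.mod_eq_of_lt h2
  rw [← h3]
  exact h1.symm

theorem chi_mul (ht : IsTh t) (k : ℕ) (g h : GK K) :
    chi t k (g * h) = (chi t k g + chi t k h) % 2 ^ k := by
  apply chi_unique ht
  rw [AlgEquiv.mul_apply, chi_spec ht k h, map_DD', chi_spec ht k g, ← DD_mul, pow_add,
    mul_comm (5 ^ chi t k h)]

theorem chi_succ (ht : IsTh t) (k : ℕ) (g : GK K) : chi t (k + 1) g % 2 ^ k = chi t k g := by
  symm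
  apply chi_unique ht
  rw [ht.down k, map_DD', chi_spec ht (k + 1) g, ← DD_mul, ← DD_mul, mul_comm 2]

theorem chi_mod (ht : IsTh t) {k k' : ℕ} (hk : k ≤ k') (g : GK K) :
    chi t k' g % 2 ^ k = chi t k g := by
  induction hk with
  | refl => exact Nat.mod_eq_of_lt (chi_lt ht k g)
  | step hk ih =>
    rename_i m
    rw [← ih, ← chi_succ ht m g, Nat.mod_mod_of_dvd _ (pow_dvd_pow 2 hk)]

theorem chi_eq_zero (ht : IsTh t) (k : ℕ) (g : GK K) : chi t k g = 0 ↔ g (t k) = t k := by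
  constructor
  · intro h
    rw [chi_spec ht k g, h, pow_zero, DD_one]
  · intro h
    have h1 : g (t k) = DD (5 ^ 0) (t k) := by rw [pow_zero, DD_one, h]
    rw [chi_unique ht k g h1, Nat.zero_mod]

theorem chi_eq (ht : IsTh t) (k : ℕ) (g h : GK K) :
    chi t k g = chi t k h ↔ g (t k) = h (t k) := by
  constructor
  · intro e
    rw [chi_spec ht k g, chi_spec ht k h, e]
  · intro e
    have h1 : g (t k) = DD (5 ^ chi t k h) (t k) := by rw [e, ← chi_spec ht k h]
    rw [chi_unique ht k g h1, Nat.mod_eq_of_lt (chi_lt ht k h)]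

/-- `g⁻¹ * h` fixes `t k` if `g` and `h` have the same value at `t k` and conversely -/
theorem chi_pow (ht : IsTh t) (k : ℕ) (g : GK K) (n : ℕ) :
    chi t k (g ^ n) = (n * chi t k g) % 2 ^ k := by
  induction n with
  | zero =>
    rw [pow_zero, Nat.zero_mul, Nat.zero_mod, chi_eq_zero ht]
    rfl
  | succ n ih =>
    rw [pow_succ, chi_mul ht, ih, Nat.mod_add_mod, Nat.succ_mul]

/-- the conjugates of `t k` are fixed by the stabiliser of `t k`; `chi_spec`, `map_DD` -/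
theorem fix_conj (ht : IsTh t) (k : ℕ) (g h : GK K) (hh : h (t k) = t k) :
    h (g (t k)) = g (t k) := by
  rw [chi_spec ht k g, map_DD', hh]

private theorem fix_aux (ht : IsTh t) {t' : ℕ → Kb K} (ht' : IsTh t') (k : ℕ) (g : GK K)
    (h : g (t k) = t k) : g (t' k) = t' k := by
  have := charZero_Kb K
  obtain ⟨j, _, hj⟩ := ht.exists_DD ht' k
  rw [hj, map_DD', h]

/-- two towers have the same fields -/
theorem fix_iff (ht : IsTh t) {t' : ℕ → Kb K} (ht' : IsTh t') (k : ℕ) (g : GK K) :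
    g (t k) = t k ↔ g (t' k) = t' k :=
  ⟨fix_aux ht ht' k g, fix_aux ht' ht k g⟩

theorem fix_mono (ht : IsTh t) {k k' : ℕ} (hk : k ≤ k') {g : GK K} (h : g (t k') = t k') :
    g (t k) = t k := by
  rw [← chi_eq_zero ht] at h ⊢
  rw [← chi_mod ht hk g, h, Nat.zero_mod]

end

/-- `chi` is compatible with restriction -/
theorem chi_res {θ : ℕ → Kb ℚ} (hθ : IsTheta θ) (K : Type) [Field K] [Algebra ℚ K] (k : ℕ)
    (g : GK K) : chi (fun k => emb ℚ K (θ k)) k g = chi θ k (resG ℚ K g) := by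
  have : CharZero K := algebraRat.charZero K
  have hθ' : IsTh θ := isTheta_iff.1 hθ
  have h1 : g ((fun k => emb ℚ K (θ k)) k) =
      DD (5 ^ chi θ k (resG ℚ K g)) ((fun k => emb ℚ K (θ k)) k) := by
    change g (emb ℚ K (θ k)) = DD (5 ^ chi θ k (resG ℚ K g)) (emb ℚ K (θ k))
    rw [← emb_resG, chi_spec hθ' k (resG ℚ K g)]
    exact map_DD ((emb ℚ K : Kb ℚ →ₐ[ℚ] Kb K) : Kb ℚ →+* Kb K) _ _
  rw [chi_unique (hθ.emb K) k g h1, Nat.mod_eq_of_lt (chi_lt hθ' k _)]

end BB37
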