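import Pool.Agent.Lib.MP_bb37eb_nt.ODD.ChiB

/-! ODD: the classes `(chi_k, a)`. -/

namespace BB37

/-- base field units in the closure -/
noncomputable def bu {K : Type} [Field K] : Kˣ →* (Kb K)ˣ :=
  Units.map (algebraMap K (Kb K)).toMonoidHom

/-- the cochain `a ^ carry (chi g, chi h)` -/
noncomputable def cupf {K : Type} [Field K] (t : ℕ → Kb K) (k : ℕ) (a : Kˣ) :
    GK K × GK K → (Kb K)ˣ := fun p =>
  if 2 ^ k ≤ chi t k p.1 + chi t k p.2 then bu a else 1

section

variable {K : Type} [Field K]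

theorem smul_bu (g : GK K) (a : Kˣ) : g • bu a = bu a := by
  apply Units.ext
  rw [AlgEquiv.smul_units_def]
  exact g.commutes a

variable [CharZero K] {t : ℕ → Kb K}

private theorem Cup_mod {N a b : ℕ} (ha : a < N) (hb : b < N) :
    (a + b) % N = if N ≤ a + b then a + b - N else a + b := by
  split_ifs with h
  · rw [Nat.mod_eq_sub_mod h, Nat.mod_eq_of_lt (by omega)]
  · exact Nat.mod_eq_of_lt (by omega)

private theorem Cup_smooth (ht : IsTh t) (k : ℕ) :
    ∃ M : IntermediateField K (Kb K), FiniteDimensional K M ∧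
      ∀ g h, Agree K M g h → chi t k g = chi t k h := by
  obtain ⟨M, hM, h1⟩ := exists_finite_sub (K := K) {t k} (Set.finite_singleton _)
  exact ⟨M, hM, fun g h hg => (chi_eq ht k g h).2 (hg _ (h1 rfl))⟩

/-- smooth: it depends only on `g (t k)`, `h (t k)` (`chi_eq`), take `M = K(t k)`. Cocycle: the
action on `bu a` is trivial and, by `chi_lt`, `chi_mul`,
`2 ^ k * carry g h = chi g + chi h - chi (g * h)`, so the exponents agree. -/
theorem cupf_mem (ht : IsTh t) (k : ℕ) (a : Kˣ) : cupf t k a ∈ Z2 K := by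
  obtain ⟨M, hM, h1⟩ := Cup_smooth ht k
  refine ⟨⟨M, hM, fun g g' h h' hg hh => ?_⟩, fun g h j => ?_⟩
  · simp only [cupf, h1 g g' hg, h1 h h' hh]
  · have hg := chi_lt ht k g
    have hh := chi_lt ht k h
    have hj := chi_lt ht k j
    have e1 := chi_mul ht k g h
    have e2 := chi_mul ht k h j
    rw [Cup_mod hg hh] at e1
    rw [Cup_mod hh hj] at e2
    simp only [cupf]
    have hs : g • (if 2 ^ k ≤ chi t k h + chi t k j then bu a else 1) =
        if 2 ^ k ≤ chi t k h + chi t k j then bu a else 1 := by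
      split_ifs
      · exact smul_bu g a
      · exact smul_one g
    rw [hs]
    by_cases c1 : 2 ^ k ≤ chi t k g + chi t k h <;> by_cases c2 : 2 ^ k ≤ chi t k h + chi t k j
    · rw [if_pos c1] at e1 ⊢
      rw [if_pos c2] at e2 ⊢
      by_cases c3 : 2 ^ k ≤ chi t k (g * h) + chi t k j
      · rw [if_pos c3, if_pos (by omega)]
      · rw [if_neg c3, if_neg (by omega), mul_one, one_mul]
    · rw [if_pos c1] at e1 ⊢
      rw [if_neg c2] at e2 ⊢
      rw [if_neg (by omega), if_pos (by omega)]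
    · rw [if_neg c1] at e1 ⊢
      rw [if_pos c2] at e2 ⊢
      rw [if_pos (by omega), if_neg (by omega), mul_one]
    · rw [if_neg c1] at e1 ⊢
      rw [if_neg c2] at e2 ⊢
      by_cases c3 : 2 ^ k ≤ chi t k (g * h) + chi t k j
      · rw [if_pos c3, if_pos (by omega), mul_one, one_mul]
      · rw [if_neg c3, if_neg (by omega)]

/-- the class `(chi_k, a)` -/
noncomputable def CU (ht : IsTh t) (k : ℕ) : Kˣ →* H2 K where
  toFun a := cls ⟨cupf t k a, cupf_mem ht k a⟩
  map_one' := by
    have h : (⟨cupf t k 1, cupf_mem ht k 1⟩ : Z2 K) = 1 := by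
      apply Subtype.ext
      funext p
      simp [cupf]
    rw [h, cls_one]
  map_mul' a b := by
    rw [← cls_mul]
    congr 1
    apply Subtype.ext
    funext p
    change cupf t k (a * b) p = cupf t k a p * cupf t k b p
    simp only [cupf, map_mul]
    split_ifs
    · rfl
    · rw [one_mul]

theorem CU_def (ht : IsTh t) (k : ℕ) (a : Kˣ) : CU ht k a = cls ⟨cupf t k a, cupf_mem ht k a⟩ :=
  rfl

/-- the cochain `a ^ chi` -/
theorem CU_pow (ht : IsTh t) (k : ℕ) (a : Kˣ) : CU ht k (a ^ 2 ^ k) = 1 := by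
  rw [CU_def, cls_eq_one]
  obtain ⟨M, hM, h1⟩ := Cup_smooth ht k
  refine ⟨fun g => bu a ^ chi t k g, ⟨M, hM, fun g h hg => ?_⟩, fun g h => ?_⟩
  · simp only [h1 g h hg]
  · have hg := chi_lt ht k g
    have hh := chi_lt ht k h
    have e1 := chi_mul ht k g h
    rw [Cup_mod hg hh] at e1
    change cupf t k (a ^ 2 ^ k) (g, h) = _
    simp only [cupf, map_pow, smul_pow', smul_bu]
    rw [eq_div_iff_mul_eq', ← pow_add, e1]
    split_ifs with c1
    · rw [← pow_add]
      congr 1
      omega
    · rw [one_mul, add_comm]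

end

end BB37
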