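import Pool.Agent.Lib.MP_bb37eb_nt.ODD.Cup

/-! ODD: change of level for the classes `(chi_k, a)`. -/

namespace BB37

section

variable {K : Type} [Field K] [CharZero K] {t : ℕ → Kb K}

private theorem CupB_carry (ht : IsTh t) (k : ℕ) (g h : GK K) :
    chi t k (g * h) + 2 ^ k * (if 2 ^ k ≤ chi t k g + chi t k h then 1 else 0) =
      chi t k g + chi t k h := by
  have hg := chi_lt ht k g
  have hh := chi_lt ht k h
  rw [chi_mul ht k g h]
  split_ifs with c
  · rw [Nat.mod_eq_sub_mod c, Nat.mod_eq_of_lt (by omega), mul_one, Nat.sub_add_cancel c]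
  · rw [Nat.mod_eq_of_lt (by omega), mul_zero, add_zero]

omit [CharZero K] in
private theorem CupB_cupf (k : ℕ) (a : Kˣ) (g h : GK K) :
    cupf t k a (g, h) = bu a ^ (if 2 ^ k ≤ chi t k g + chi t k h then 1 else 0) := by
  simp only [cupf]
  split_ifs
  · rw [pow_one]
  · rw [pow_zero]

/-- `(chi_(k+1), a ^ 2) = (chi_k, a)`. Proof: `chi (k+1) g = chi k g + 2 ^ k * e g`, `e g ∈ {0,1}`
(`chi_succ`, `chi_lt`), so `2 * carry_(k+1) (g,h) = carry_k (g,h) + e g + e h - e (g h)`; use the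
cochain `a ^ e`. -/
theorem CU_succ (ht : IsTh t) (k : ℕ) (a : Kˣ) : CU ht (k + 1) (a ^ 2) = CU ht k a := by
  rw [CU_def, CU_def, cls_eq_cls]
  obtain ⟨M, hM, h1⟩ := exists_finite_sub (K := K) {t (k + 1)} (Set.finite_singleton _)
  refine ⟨fun g => bu a ^ (chi t (k + 1) g / 2 ^ k), ⟨M, hM, fun g h hg => ?_⟩, fun g h => ?_⟩
  · have e : chi t (k + 1) g = chi t (k + 1) h := (chi_eq ht (k + 1) g h).2 (hg _ (h1 rfl))
    simp only [e]
  · change cupf t (k + 1) (a ^ 2) (g, h) / cupf t k a (g, h) =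
      g • bu a ^ (chi t (k + 1) h / 2 ^ k) * bu a ^ (chi t (k + 1) g / 2 ^ k) /
        bu a ^ (chi t (k + 1) (g * h) / 2 ^ k)
    rw [CupB_cupf, CupB_cupf, smul_pow', smul_bu, map_pow, ← pow_add, ← pow_mul]
    have e1 := CupB_carry ht (k + 1) g h
    have e2 := CupB_carry ht k g h
    generalize hc : (if 2 ^ (k + 1) ≤ chi t (k + 1) g + chi t (k + 1) h then 1 else 0) = c' at e1 ⊢
    generalize hc2 : (if 2 ^ k ≤ chi t k g + chi t k h then 1 else 0) = c at e2 ⊢
    have d1 := Nat.mod_add_div (chi t (k + 1) g) (2 ^ k)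
    have d2 := Nat.mod_add_div (chi t (k + 1) h) (2 ^ k)
    have d3 := Nat.mod_add_div (chi t (k + 1) (g * h)) (2 ^ k)
    rw [chi_succ ht] at d1 d2 d3
    generalize chi t (k + 1) g / 2 ^ k = eg at d1 ⊢
    generalize chi t (k + 1) h / 2 ^ k = eh at d2 ⊢
    generalize chi t (k + 1) (g * h) / 2 ^ k = egh at d3 ⊢
    have key : 2 * c' + egh = c + (eh + eg) := by
      have h0 : 0 < 2 ^ k := Nat.two_pow_pos k
      apply Nat.eq_of_mul_eq_mul_left h0
      rw [pow_succ] at e1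
      nlinarith [e1, e2, d1, d2, d3]
    rw [div_eq_div_iff_mul_eq_mul, ← pow_add, ← pow_add, key]
    congr 1
    exact add_comm _ _

theorem CU_add (ht : IsTh t) (k m : ℕ) (a : Kˣ) : CU ht (k + m) (a ^ 2 ^ m) = CU ht k a := by
  induction m with
  | zero => rw [pow_zero, pow_one, add_zero]
  | succ m ih =>
    rw [← ih, pow_succ, pow_mul]
    exact CU_succ ht (k + m) (a ^ 2 ^ m)

theorem CU_fix (ht : IsTh t) (k : ℕ) (h : ∀ g : GK K, g (t k) = t k) (a : Kˣ) :
    CU ht k a = 1 := by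
  rw [CU_def, cls_eq_one]
  have e : cupf t k a = 1 := by
    funext p
    have h1 : chi t k p.1 = 0 := (chi_eq_zero ht k p.1).2 (h p.1)
    have h2 : chi t k p.2 = 0 := (chi_eq_zero ht k p.2).2 (h p.2)
    have h3 : ¬ 2 ^ k ≤ chi t k p.1 + chi t k p.2 := by
      rw [h1, h2]
      exact not_le.2 (Nat.two_pow_pos k)
    simp only [cupf, if_neg h3, Pi.one_apply]
  change cupf t k a ∈ B2 K
  rw [e]
  exact (B2 K).one_mem

/-- the class is split by `K(t k)` -/
theorem CU_torsion (ht : IsTh t) (k : ℕ) (a : Kˣ) : CU ht k a ^ 2 ^ k = 1 := by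
  rw [← map_pow]
  exact CU_pow ht k a

end

end BB37
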