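import Pool.Agent.Lib.MP_bb37eb_nt.ODD.CupB

/-! ODD: naturality of the classes `(chi_k, a)`, and the classes split by the tower. -/

namespace BB37

section

variable {K : Type} [Field K] [CharZero K] [Algebra ℚ K] {θ : ℕ → Kb ℚ}

omit [CharZero K] in
private theorem CupC_bu (a : ℚˣ) :
    embU ℚ K (bu a) = bu (Units.map (algebraMap ℚ K).toMonoidHom a) := by
  apply Units.ext
  change emb ℚ K (algebraMap ℚ (Kb ℚ) (a : ℚ)) = algebraMap K (Kb K) (algebraMap ℚ K (a : ℚ))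
  rw [AlgHom.commutes, ← IsScalarTower.algebraMap_apply ℚ K (Kb K)]

/-- naturality; `chi_res` -/
theorem res_CU (hθ : IsTheta θ) (k : ℕ) (a : ℚˣ) :
    res ℚ K (CU (t := θ) hθ k a) =
      CU (hθ.emb K) k (Units.map (algebraMap ℚ K).toMonoidHom a) := by
  have hθ' : IsTh θ := isTheta_iff.1 hθ
  change res ℚ K (cls ⟨cupf θ k a, cupf_mem hθ' k a⟩) = _
  rw [CU_def, res_cls]
  congr 1
  apply Subtype.ext
  funext p
  change embU ℚ K (cupf θ k a (resG ℚ K p.1, resG ℚ K p.2)) =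
    cupf (fun k => emb ℚ K (θ k)) k (Units.map (algebraMap ℚ K).toMonoidHom a) p
  simp only [cupf, chi_res hθ K k]
  split_ifs
  · exact CupC_bu a
  · exact map_one _

theorem InU_CU (hθ : IsTheta θ) (k : ℕ) (a : Kˣ) : InU K (CU (hθ.emb K) k a) := by
  refine ⟨⟨cupf (fun k => emb ℚ K (θ k)) k a, cupf_mem (hθ.emb K) k a⟩, k, θ, fun _ => 1, rfl, hθ,
    ⟨⊥, inferInstance, fun _ _ _ => rfl⟩, fun g h hg hh => ?_⟩
  have h1 : chi (fun k => emb ℚ K (θ k)) k g = 0 := (chi_eq_zero (hθ.emb K) k g).2 hg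
  have h2 : chi (fun k => emb ℚ K (θ k)) k h = 0 := (chi_eq_zero (hθ.emb K) k h).2 hh
  change cupf (fun k => emb ℚ K (θ k)) k a (g, h) = _
  simp only [cupf, h1, h2]
  rw [if_neg (by have := Nat.pos_of_ne_zero (pow_ne_zero k (two_ne_zero (α := ℕ))); omega)]
  rw [smul_one, one_mul, div_one]

theorem InU_one : InU K 1 := by
  obtain ⟨θ, hθ⟩ := IsTh.exists (F := Kb ℚ)
  refine ⟨1, 0, θ, fun _ => 1, cls_one, hθ, ⟨⊥, inferInstance, fun _ _ _ => rfl⟩,
    fun g h _ _ => ?_⟩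
  rw [smul_one, one_mul, div_one]
  rfl

/-- `fix_iff` for two towers, `fix_mono` for two levels -/
theorem InU_mul {x y : H2 K} (hx : InU K x) (hy : InU K y) : InU K (x * y) := by
  obtain ⟨c, k, θ, u, hc, hθ, ⟨M, hM, h1⟩, h2⟩ := hx
  obtain ⟨c', k', θ', u', hc', hθ', ⟨M', hM', h1'⟩, h2'⟩ := hy
  refine ⟨c * c', max k k', θ, fun g => u g * u' g, by rw [cls_mul, hc, hc'], hθ,
    ⟨M ⊔ M', inferInstance, fun g g' hg => ?_⟩, fun g h hg hh => ?_⟩
  · have e1 := h1 g g' (fun x hx => hg x (le_sup_left (a := M) hx))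
    have e2 := h1' g g' (fun x hx => hg x (le_sup_right (a := M) hx))
    simp only [e1, e2]
  · have a1 : g (emb ℚ K (θ k)) = emb ℚ K (θ k) := fix_mono (hθ.emb K) (le_max_left k k') hg
    have a2 : h (emb ℚ K (θ k)) = emb ℚ K (θ k) := fix_mono (hθ.emb K) (le_max_left k k') hh
    have b1 : g (emb ℚ K (θ' k')) = emb ℚ K (θ' k') :=
      fix_mono (hθ'.emb K) (le_max_right k k') ((fix_iff (hθ.emb K) (hθ'.emb K) _ g).1 hg)
    have b2 : h (emb ℚ K (θ' k')) = emb ℚ K (θ' k') :=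
      fix_mono (hθ'.emb K) (le_max_right k k') ((fix_iff (hθ.emb K) (hθ'.emb K) _ h).1 hh)
    change c.1 (g, h) * c'.1 (g, h) = _
    rw [h2 g h a1 a2, h2' g h b1 b2, smul_mul', div_mul_div_comm]
    congr 1
    exact mul_mul_mul_comm _ _ _ _

end

end BB37
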