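import Pool.Agent.Lib.MP_bb37eb_nt.ODD.ChiB

/-! ODD: the image of `chi`. -/

namespace BB37

section

variable {K : Type} [Field K] [CharZero K] {t : ℕ → Kb K}

private theorem CycA_gen (ht : IsTh t) (k s : ℕ) (hs : s < k) (h1 : ∀ g : GK K, g (t s) = t s)
    (h2 : ∃ g : GK K, g (t (s + 1)) ≠ t (s + 1)) :
    (∀ g, 2 ^ s ∣ chi t k g) ∧ ∃ σ : GK K, chi t k σ = 2 ^ s := by
  have hdiv : ∀ k', s ≤ k' → ∀ g, 2 ^ s ∣ chi t k' g := by
    intro k' hk' g
    apply Nat.dvd_of_mod_eq_zero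
    rw [chi_mod ht hk' g]
    exact (chi_eq_zero ht s g).2 (h1 g)
  refine ⟨hdiv k hs.le, ?_⟩
  obtain ⟨σ₀, h0⟩ := h2
  have h3 : chi t (s + 1) σ₀ ≠ 0 := fun h => h0 ((chi_eq_zero ht (s + 1) σ₀).1 h)
  obtain ⟨m, hm⟩ := hdiv k hs.le σ₀
  have h4 : chi t k σ₀ % 2 ^ (s + 1) = chi t (s + 1) σ₀ := chi_mod ht hs σ₀
  rw [hm, pow_succ, Nat.mul_mod_mul_left] at h4
  have h5 : m % 2 = 1 := by
    rcases Nat.mod_two_eq_zero_or_one m with h | h
    · rw [h, mul_zero] at h4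
      exact absurd h4.symm h3
    · exact h
  have hcop : Nat.Coprime m (2 ^ (k - s)) :=
    Nat.Coprime.pow_right _ (Nat.coprime_two_right.2 (Nat.odd_iff.2 h5))
  obtain ⟨n, -, hn⟩ := Nat.exists_mul_mod_eq_one_of_coprime hcop
    (Nat.one_lt_two_pow (by omega))
  refine ⟨σ₀ ^ n, ?_⟩
  have h6 : (2 : ℕ) ^ k = 2 ^ s * 2 ^ (k - s) := by
    rw [← pow_add]
    congr 1
    omega
  rw [chi_pow ht, hm, h6, show n * (2 ^ s * m) = 2 ^ s * (m * n) by ring, Nat.mul_mod_mul_left,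
    hn, mul_one]

/-- the image of `chi` is generated by `2 ^ s`: there is `s ≤ k` such that all `chi t k g` are
divisible by `2 ^ s` and a `σ` with `chi t k σ = 2 ^ s % 2 ^ k`. Proof: take `s ≤ k` maximal with
`g (t s) = t s` for all `g` (`chi_mod`, `chi_eq_zero`); if `s = k` take `σ = 1`; otherwise some
`σ0` has `chi t (s+1) σ0 = 2 ^ s`, so `chi t k σ0 = 2 ^ s * odd` and a power of `σ0` does
(`chi_pow`). -/
theorem exists_gen (ht : IsTh t) (k : ℕ) : ∃ s ≤ k, (∀ g : GK K, g (t s) = t s) ∧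
    (∀ g, 2 ^ s ∣ chi t k g) ∧ ∃ σ : GK K, chi t k σ = 2 ^ s % 2 ^ k := by
  by_cases hk : ∀ g : GK K, g (t k) = t k
  · refine ⟨k, le_rfl, hk, fun g => ?_, 1, ?_⟩
    · rw [(chi_eq_zero ht k g).2 (hk g)]
      exact dvd_zero _
    · rw [Nat.mod_self, chi_eq_zero ht]
      rfl
  · have h : ∃ s < k, (∀ g : GK K, g (t s) = t s) ∧ ¬ ∀ g : GK K, g (t (s + 1)) = t (s + 1) := by
      by_contra hc
      push Not at hc
      apply hk
      have h' : ∀ s ≤ k, ∀ g : GK K, g (t s) = t s := by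
        intro s
        induction s with
        | zero =>
          intro _ g
          rw [← chi_eq_zero ht]
          have := chi_lt ht 0 g
          rw [pow_zero] at this
          omega
        | succ s ih =>
          intro hs
          exact hc s (by omega) (ih (by omega))
      exact h' k le_rfl
    obtain ⟨s, hs, h1, h2⟩ := h
    push Not at h2
    obtain ⟨h3, σ, h4⟩ := CycA_gen ht k s hs h1 h2
    exact ⟨s, hs.le, h1, h3, σ, by
      rw [h4, Nat.mod_eq_of_lt (Nat.pow_lt_pow_right (by norm_num) hs)]⟩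

/-- same with a prescribed `s` -/
theorem exists_gen' (ht : IsTh t) (k s : ℕ) (hs : s < k) (h1 : ∀ g : GK K, g (t s) = t s)
    (h2 : ∃ g : GK K, g (t (s + 1)) ≠ t (s + 1)) :
    (∀ g, 2 ^ s ∣ chi t k g) ∧ ∃ σ : GK K, chi t k σ = 2 ^ s := by
  exact CycA_gen ht k s hs h1 h2

end

end BB37
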