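import Pool.Agent.Lib.MP_bb37eb_nt.ODD.InfB

/-! ODD: normalisation and telescoping. -/

namespace BB37

section

variable {K : Type} [Field K] [CharZero K]

omit [CharZero K] in
private theorem cycB_mul_fix (x : Kb K) (hn : ∀ g h : GK K, h x = x → h (g x) = g x)
    {g : GK K} (hg : g x = x) (h : GK K) : (g * h) x = h x := by
  rw [AlgEquiv.mul_apply]
  exact hn h g hg

omit [CharZero K] in
private theorem cycB_fix (x : Kb K) (hn : ∀ g h : GK K, h x = x → h (g x) = g x) (c : Z2 K)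
    (hinf : ∀ g g' h h' : GK K, g x = g' x → h x = h' x → c.1 (g, h) = c.1 (g', h'))
    {g : GK K} (hg : g x = x) (h j : GK K) : g • c.1 (h, j) = c.1 (h, j) := by
  have h1 := c.2.2 g h j
  have e1 : c.1 (g * h, j) = c.1 (h, j) :=
    hinf _ _ _ _ (cycB_mul_fix x hn hg h) rfl
  have e2 : c.1 (g, h) = c.1 (1, h) := hinf _ _ _ _ hg rfl
  have e3 : c.1 (g, h * j) = c.1 (1, h * j) := hinf _ _ _ _ hg rfl
  have e4 : c.1 (1, h) = c.1 (1, 1) := groupCohomology.map_one_fst_of_isMulCocycle₂ c.2.2 h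
  have e5 : c.1 (1, h * j) = c.1 (1, 1) :=
    groupCohomology.map_one_fst_of_isMulCocycle₂ c.2.2 (h * j)
  rw [e1, e2, e3, e4, e5] at h1
  exact (mul_right_cancel h1).symm

/-- the values of an inflated cocycle are fixed by the stabiliser of `x`, and the cocycle can be
normalised. Proof: `g ∈ H` first in the cocycle condition for `(g, h, j)` against the same
condition for `(1, h, j)`. Divide by `dd` of the constant `c (1,1)`. -/
theorem infl_norm (x : Kb K) (hn : ∀ g h : GK K, h x = x → h (g x) = g x) (c : Z2 K)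
    (hinf : ∀ g g' h h' : GK K, g x = g' x → h x = h' x → c.1 (g, h) = c.1 (g', h')) :
    ∃ c' : Z2 K, cls c' = cls c ∧
      (∀ g g' h h' : GK K, g x = g' x → h x = h' x → c'.1 (g, h) = c'.1 (g', h')) ∧
      (∀ g, c'.1 (g, 1) = 1) ∧ (∀ g, c'.1 (1, g) = 1) ∧
      (∀ g h j : GK K, g x = x → g • c'.1 (h, j) = c'.1 (h, j)) ∧
      ∀ N, (∀ q, c.1 q ^ N = 1) → ∀ q, c'.1 q ^ N = 1 := by
  have hu : Smooth1 K (fun _ : GK K => c.1 (1, 1)) := ⟨⊥, inferInstance, fun _ _ _ => rfl⟩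
  have hval : ∀ g h : GK K, (c / dd (fun _ : GK K => c.1 (1, 1)) hu).1 (g, h) =
      c.1 (g, h) / g • c.1 (1, 1) := by
    intro g h
    have e : (c / dd (fun _ : GK K => c.1 (1, 1)) hu).1 (g, h) =
        c.1 (g, h) / (g • c.1 (1, 1) * c.1 (1, 1) / c.1 (1, 1)) := rfl
    rw [e, mul_div_cancel_right]
  have hinf' : ∀ g g' : GK K, g x = g' x → g • c.1 (1, 1) = g' • c.1 (1, 1) := by
    intro g g' hg
    have h1 : (g'⁻¹ * g) x = x := by
      rw [AlgEquiv.mul_apply, hg, ← AlgEquiv.mul_apply, inv_mul_cancel, AlgEquiv.one_apply]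
    have h2 := cycB_fix x hn c hinf h1 1 1
    have h3 := congrArg (fun z => g' • z) h2
    simp only [smul_smul, mul_inv_cancel_left] at h3
    exact h3
  refine ⟨c / dd (fun _ : GK K => c.1 (1, 1)) hu, ?_, ?_, ?_, ?_, ?_, ?_⟩
  · rw [cls_div, cls_dd, div_one]
  · intro g g' h h' hg hh
    rw [hval, hval, hinf g g' h h' hg hh, hinf' g g' hg]
  · intro g
    rw [hval, groupCohomology.map_one_snd_of_isMulCocycle₂ c.2.2 g, div_self']
  · intro g
    rw [hval, groupCohomology.map_one_fst_of_isMulCocycle₂ c.2.2 g, one_smul, div_self']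
  · intro g h j hg
    rw [hval, smul_div', cycB_fix x hn c hinf hg, smul_smul,
      hinf' (g * h) h (cycB_mul_fix x hn hg h)]
  · rintro N hN ⟨g, h⟩
    rw [hval, div_pow, ← smul_pow', hN, hN, smul_one, div_one]

/-- telescoping: with `w m = ∏_(j < m) c (σ ^ j, σ)` one has
`c (σ ^ i, σ ^ m) = w (i + m) / (w i * σ ^ i • w m)` for a cocycle with `c (g, 1) = 1`.
Induction on `m` with the cocycle condition for `(σ ^ i, σ ^ m, σ)`. -/
theorem cyc_tel (c : Z2 K) (h1 : ∀ g, c.1 (g, 1) = 1) (σ : GK K) (i m : ℕ) :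
    c.1 (σ ^ i, σ ^ m) * ((∏ j ∈ Finset.range i, c.1 (σ ^ j, σ)) *
      σ ^ i • ∏ j ∈ Finset.range m, c.1 (σ ^ j, σ)) =
      ∏ j ∈ Finset.range (i + m), c.1 (σ ^ j, σ) := by
  induction m with
  | zero => simp only [pow_zero, h1, Finset.range_zero, Finset.prod_empty, smul_one, mul_one,
      one_mul, add_zero]
  | succ m ih =>
    have h2 := c.2.2 (σ ^ i) (σ ^ m) σ
    rw [← pow_add, ← pow_succ] at h2
    rw [← add_assoc, Finset.prod_range_succ _ (i + m), ← ih, Finset.prod_range_succ _ m, smul_mul']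
    calc c.1 (σ ^ i, σ ^ (m + 1)) * ((∏ j ∈ Finset.range i, c.1 (σ ^ j, σ)) *
          (σ ^ i • (∏ j ∈ Finset.range m, c.1 (σ ^ j, σ)) * σ ^ i • c.1 (σ ^ m, σ)))
        = (σ ^ i • c.1 (σ ^ m, σ) * c.1 (σ ^ i, σ ^ (m + 1))) *
          ((∏ j ∈ Finset.range i, c.1 (σ ^ j, σ)) *
            σ ^ i • (∏ j ∈ Finset.range m, c.1 (σ ^ j, σ))) := by ac_rfl
      _ = (c.1 (σ ^ (i + m), σ) * c.1 (σ ^ i, σ ^ m)) *
          ((∏ j ∈ Finset.range i, c.1 (σ ^ j, σ)) *
            σ ^ i • (∏ j ∈ Finset.range m, c.1 (σ ^ j, σ))) := by rw [h2]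
      _ = c.1 (σ ^ i, σ ^ m) * ((∏ j ∈ Finset.range i, c.1 (σ ^ j, σ)) *
            σ ^ i • (∏ j ∈ Finset.range m, c.1 (σ ^ j, σ))) * c.1 (σ ^ (i + m), σ) := by ac_rfl

end

end BB37
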