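import Pool.Agent.Lib.MP_bb37eb_nt.ODD.CupC
import Pool.Agent.Lib.MP_bb37eb_nt.ODD.CycA
import Pool.Agent.Lib.MP_bb37eb_nt.ODD.CycB

/-! ODD: cocycles inflated from a cyclic quotient. -/

namespace BB37

section

variable {K : Type} [Field K] [CharZero K] {t : ℕ → Kb K}

/-- the partial products along the powers of an element -/
private noncomputable def Cyc_W (c : Z2 K) (σ : GK K) (m : ℕ) : (Kb K)ˣ :=
  ∏ j ∈ Finset.range m, c.1 (σ ^ j, σ)

omit [CharZero K] in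
private theorem Cyc_fixed (x : Kb K) (c : Z2 K)
    (hfix : ∀ g h j : GK K, g x = x → g • c.1 (h, j) = c.1 (h, j)) (σ g : GK K) (hg : g x = x)
    (m : ℕ) : g • Cyc_W c σ m = Cyc_W c σ m := by
  unfold Cyc_W
  rw [Finset.smul_prod']
  exact Finset.prod_congr rfl fun j _ => hfix g _ _ hg

omit [CharZero K] in
private theorem Cyc_shift (x : Kb K) (c : Z2 K)
    (hinf : ∀ g g' h h' : GK K, g x = g' x → h x = h' x → c.1 (g, h) = c.1 (g', h'))
    (σ : GK K) (n : ℕ) (hn : (σ ^ n) x = x) (m : ℕ) :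
    Cyc_W c σ (n + m) = Cyc_W c σ n * Cyc_W c σ m := by
  unfold Cyc_W
  rw [Finset.prod_range_add]
  congr 1
  refine Finset.prod_congr rfl fun j _ => hinf _ _ _ _ ?_ rfl
  rw [add_comm, pow_add, AlgEquiv.mul_apply, hn]

private theorem Cyc_smulA (x : Kb K) (c : Z2 K)
    (hinf : ∀ g g' h h' : GK K, g x = g' x → h x = h' x → c.1 (g, h) = c.1 (g', h'))
    (h1 : ∀ g, c.1 (g, 1) = 1) (σ : GK K) (n : ℕ) (hn : (σ ^ n) x = x) :
    σ • Cyc_W c σ n = Cyc_W c σ n := by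
  have e1 := cyc_tel c h1 σ 1 n
  have e2 : c.1 (σ ^ 1, σ ^ n) = 1 := by
    rw [← h1 (σ ^ 1)]
    refine hinf _ _ _ _ rfl ?_
    rw [hn]
    rfl
  have e3 : Cyc_W c σ (n + 1) = Cyc_W c σ n * Cyc_W c σ 1 := Cyc_shift x c hinf σ n hn 1
  rw [e2, one_mul, pow_one, add_comm 1 n] at e1
  have e4 : Cyc_W c σ 1 * σ • Cyc_W c σ n = Cyc_W c σ 1 * Cyc_W c σ n := by
    rw [mul_comm (Cyc_W c σ 1) (Cyc_W c σ n), ← e3]
    exact e1
  exact mul_left_cancel e4

/-- a class inflated from `K(t k)` is `(chi_k, a)`. Proof: `infl_norm`, `exists_gen`; put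
`n = 2 ^ (k - s)`, `m g = chi t k g / 2 ^ s < n`, `W m = ∏_(j < m) c (σ ^ j, σ)`, `A = W n`. Since
`σ ^ n` fixes `t k`, `W (m + n) = W m * A`; `cyc_tel` for `(1, n)` gives `σ • A = A`, and `A` is
fixed by the stabiliser of `t k`, hence by all `g` (which are `σ ^ m g` times an element of the
stabiliser): `A = bu a`. And `c (g, h) = c (σ ^ m g, σ ^ m h) = W (m g + m h) / (W (m g) g • W (m h))`
is `a ^ carry` times the inverse of the coboundary of `W (m g)`, where the carry of `m` modulo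
`n` is the carry of `chi` modulo `2 ^ k`. -/
theorem cyc (ht : IsTh t) (k : ℕ) (c : Z2 K)
    (hinf : ∀ g g' h h' : GK K, g (t k) = g' (t k) → h (t k) = h' (t k) →
      c.1 (g, h) = c.1 (g', h')) :
    ∃ a : Kˣ, cls c = CU ht k a ∧ ∀ N, (∀ q, c.1 q ^ N = 1) → a ^ N = 1 := by
  obtain ⟨c', hcc, hinf', hr, hl, hfix, hN⟩ := infl_norm (t k) (fix_conj ht k) c hinf
  obtain ⟨s, hsk, hs1, hs2, σ, hσ⟩ := exists_gen ht k
  have hpow : (2 : ℕ) ^ k = 2 ^ s * 2 ^ (k - s) := by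
    rw [← pow_add, Nat.add_sub_cancel' hsk]
  have hs0 : 0 < (2 : ℕ) ^ s := by positivity
  generalize hn : (2 : ℕ) ^ (k - s) = n at hpow
  have hn0 : 0 < n := by
    rw [← hn]
    positivity
  -- the exponent
  have hm : ∀ g : GK K, ∃ m, chi t k g = 2 ^ s * m := fun g => hs2 g
  choose m hm using hm
  have hmlt : ∀ g, m g < n := by
    intro g
    have h1 := chi_lt ht k g
    rw [hm g, hpow] at h1
    exact lt_of_mul_lt_mul_left h1 (Nat.zero_le _)
  have hchiσ : ∀ j, chi t k (σ ^ j) = (2 ^ s * j) % 2 ^ k := by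
    intro j
    rw [chi_pow ht k σ j, hσ, Nat.mul_mod_mod, mul_comm]
  have hσm : ∀ g : GK K, (σ ^ m g) (t k) = g (t k) := by
    intro g
    rw [← chi_eq ht k, hchiσ, ← hm g, Nat.mod_eq_of_lt (chi_lt ht k g)]
  have hσn : (σ ^ n) (t k) = t k := by
    rw [← chi_eq_zero ht k, hchiσ, ← hpow, Nat.mod_self]
  -- the constant
  have hA1 : ∀ g : GK K, g • Cyc_W c' σ n = Cyc_W c' σ n := by
    intro g
    have h2 : σ • Cyc_W c' σ n = Cyc_W c' σ n := Cyc_smulA (t k) c' hinf' hr σ n hσn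
    have h3 : ∀ j : ℕ, σ ^ j • Cyc_W c' σ n = Cyc_W c' σ n := by
      intro j
      induction j with
      | zero => rw [pow_zero, one_smul]
      | succ j ih => rw [pow_succ, mul_smul, h2, ih]
    have h4 : ((σ ^ m g)⁻¹ * g) (t k) = t k := by
      rw [AlgEquiv.mul_apply, ← hσm g, ← AlgEquiv.mul_apply, inv_mul_cancel]
      rfl
    have h5 : g = σ ^ m g * ((σ ^ m g)⁻¹ * g) := by
      rw [mul_inv_cancel_left]
    rw [h5, mul_smul, Cyc_fixed (t k) c' hfix σ _ h4 n, h3]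
  obtain ⟨a, ha⟩ := exists_of_fixedU hA1
  have ha' : bu a = Cyc_W c' σ n := ha
  refine ⟨a, ?_, ?_⟩
  · rw [← hcc, CU_def, cls_eq_cls]
    refine ⟨fun g => (Cyc_W c' σ (m g))⁻¹, ?_, ?_⟩
    · apply smooth1_of_val (t k)
      intro g g' hg
      have h6 : m g = m g' := by
        have h7 := (chi_eq ht k g g').2 hg
        rw [hm g, hm g'] at h7
        exact Nat.eq_of_mul_eq_mul_left hs0 h7
      simp only [h6]
    · intro g h
      -- the composite exponent
      have e1 : m (g * h) = (m g + m h) % n := by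
        have h7 := chi_mul ht k g h
        rw [hm g, hm h, hm (g * h), hpow, ← mul_add, Nat.mul_mod_mul_left] at h7
        exact Nat.eq_of_mul_eq_mul_left hs0 h7
      have e2 : (2 ^ k ≤ chi t k g + chi t k h) ↔ n ≤ m g + m h := by
        rw [hm g, hm h, hpow, ← mul_add]
        exact Nat.mul_le_mul_left_iff hs0
      have e3 : c'.1 (g, h) = c'.1 (σ ^ m g, σ ^ m h) :=
        hinf' _ _ _ _ (hσm g).symm (hσm h).symm
      have e4 : c'.1 (σ ^ m g, σ ^ m h) * (Cyc_W c' σ (m g) * σ ^ m g • Cyc_W c' σ (m h)) =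
          Cyc_W c' σ (m g + m h) := cyc_tel c' hr σ (m g) (m h)
      have e5 : g • Cyc_W c' σ (m h) = σ ^ m g • Cyc_W c' σ (m h) := by
        have h4 : ((σ ^ m g)⁻¹ * g) (t k) = t k := by
          rw [AlgEquiv.mul_apply, ← hσm g, ← AlgEquiv.mul_apply, inv_mul_cancel]
          rfl
        have h5 : g = σ ^ m g * ((σ ^ m g)⁻¹ * g) := by
          rw [mul_inv_cancel_left]
        conv_lhs => rw [h5]
        rw [mul_smul, Cyc_fixed (t k) c' hfix σ _ h4]
      have e6 : Cyc_W c' σ (m g + m h) = cupf t k a (g, h) * Cyc_W c' σ (m (g * h)) := by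
        unfold cupf
        by_cases hc : n ≤ m g + m h
        · rw [if_pos (e2.2 hc), ha', ← Cyc_shift (t k) c' hinf' σ n hσn, e1]
          congr 1
          have h8 := hmlt g
          have h9 := hmlt h
          rw [Nat.mod_eq_sub_mod hc, Nat.mod_eq_of_lt (by omega)]
          omega
        · rw [if_neg (fun h => hc (e2.1 h)), one_mul, e1, Nat.mod_eq_of_lt (by omega)]
      rw [← e5, ← e3, e6] at e4
      change c'.1 (g, h) / cupf t k a (g, h) = g • (Cyc_W c' σ (m h))⁻¹ * (Cyc_W c' σ (m g))⁻¹ /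
        (Cyc_W c' σ (m (g * h)))⁻¹
      rw [smul_inv']
      generalize g • Cyc_W c' σ (m h) = x1 at e4 ⊢
      generalize Cyc_W c' σ (m g) = x2 at e4 ⊢
      generalize Cyc_W c' σ (m (g * h)) = x3 at e4 ⊢
      generalize c'.1 (g, h) = x4 at e4 ⊢
      generalize cupf t k a (g, h) = x5 at e4 ⊢
      rw [div_eq_iff_eq_mul, div_inv_eq_mul]
      have e7 : x4 = x5 * x3 * (x2 * x1)⁻¹ := by
        rw [← e4, mul_inv_cancel_right]
      rw [e7, mul_inv]
      generalize x1⁻¹ = y1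
      generalize x2⁻¹ = y2
      ac_rfl
  · intro N hNN
    have h1 := hN N hNN
    have h2 : bu (a ^ N) = 1 := by
      rw [map_pow, ha']
      unfold Cyc_W
      rw [← Finset.prod_pow]
      exact Finset.prod_eq_one fun j _ => h1 _
    have h3 : Function.Injective (bu : Kˣ →* (Kb K)ˣ) :=
      Units.map_injective (algebraMap K (Kb K)).injective
    apply h3
    rw [h2, map_one]

end

/-- every class in `InU K` is `(chi_k, a)`; `fix_iff`, `inflate`, `cyc` -/
theorem InU.exists_CU {K : Type} [Field K] [Algebra ℚ K] [CharZero K] {θ : ℕ → Kb ℚ}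
    (hθ : IsTheta θ) {x : H2 K} (hx : InU K x) :
    ∃ (k : ℕ) (a : Kˣ), x = CU (hθ.emb K) k a := by
  obtain ⟨c, k, θ', u, hc, hθ', hu, h⟩ := hx
  obtain ⟨c', hc', hinf⟩ := inflate (emb ℚ K (θ' k)) (fix_conj (hθ'.emb K) k) c u hu h
  have hv : ∀ g g' : GK K, g (emb ℚ K (θ k)) = g' (emb ℚ K (θ k)) →
      g (emb ℚ K (θ' k)) = g' (emb ℚ K (θ' k)) := by
    intro g g' hg
    have h1 : (g'⁻¹ * g) (emb ℚ K (θ k)) = emb ℚ K (θ k) := by
      rw [AlgEquiv.mul_apply, hg, ← AlgEquiv.mul_apply, inv_mul_cancel]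
      rfl
    have h2 : (g'⁻¹ * g) (emb ℚ K (θ' k)) = emb ℚ K (θ' k) :=
      (fix_iff (hθ.emb K) (hθ'.emb K) k (g'⁻¹ * g)).1 h1
    calc g (emb ℚ K (θ' k)) = (g' * (g'⁻¹ * g)) (emb ℚ K (θ' k)) := by rw [mul_inv_cancel_left]
      _ = g' (emb ℚ K (θ' k)) := by rw [AlgEquiv.mul_apply, h2]
  obtain ⟨a, ha, -⟩ := cyc (hθ.emb K) k c' fun g g' h h' hg hh =>
    hinf g g' h h' (hv g g' hg) (hv h h' hh)
  exact ⟨k, a, by rw [← ha, hc', hc]⟩

end BB37
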