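import Pool.Agent.Lib.MP_bb37eb_nt.Core.Alpha
import Pool.Agent.Lib.MP_bb37eb_nt.Core.Adm

/-! ODD: Dickson polynomials and towers `t 0 = 0`, `t (k+1) ^ 2 = 2 + t k`. -/

namespace BB37

/-- the value of the `m`-th Dickson polynomial: `DD m (x + x⁻¹) = x ^ m + x⁻¹ ^ m` -/
noncomputable def DD {F : Type} [Field F] (m : ℕ) (t : F) : F :=
  (Polynomial.dickson 1 (1 : F) m).eval t

/-- a tower of square roots -/
def IsTh {F : Type} [Field F] (t : ℕ → F) : Prop := t 0 = 0 ∧ ∀ k, t (k + 1) ^ 2 = 2 + t k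

theorem isTheta_iff {θ : ℕ → Kb ℚ} : IsTheta θ ↔ IsTh θ := Iff.rfl

section

variable {F F' : Type} [Field F] [Field F']

/-- `Polynomial.dickson_one_one_eval_add_inv` -/
theorem DD_add_inv {x : F} (hx : x ≠ 0) (m : ℕ) : DD m (x + x⁻¹) = x ^ m + x⁻¹ ^ m :=
  Polynomial.dickson_one_one_eval_add_inv x x⁻¹ (mul_inv_cancel₀ hx) m

/-- `Polynomial.map_dickson`, `Polynomial.eval_map` -/
theorem map_DD (f : F →+* F') (m : ℕ) (t : F) : f (DD m t) = DD m (f t) := by
  unfold DD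
  rw [← map_one f, ← Polynomial.map_dickson, Polynomial.eval_map, Polynomial.eval₂_at_apply]

/-- `Polynomial.dickson_one_one_mul` -/
theorem DD_mul (m n : ℕ) (t : F) : DD (m * n) t = DD m (DD n t) := by
  unfold DD
  rw [Polynomial.dickson_one_one_mul, Polynomial.eval_comp]

theorem DD_one (t : F) : DD 1 t = t := by
  unfold DD
  rw [Polynomial.dickson_one, Polynomial.eval_X]

theorem DD_two (t : F) : DD 2 t = t ^ 2 - 2 := by
  unfold DD
  rw [Polynomial.dickson_two]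
  simp only [map_one, one_mul, Nat.cast_one, Polynomial.eval_sub, Polynomial.eval_pow,
    Polynomial.eval_X, Polynomial.eval_ofNat, Polynomial.eval_one]
  ring

theorem IsTh.map {t : ℕ → F} (ht : IsTh t) (f : F →+* F') : IsTh fun k => f (t k) := by
  refine ⟨?_, fun k => ?_⟩
  · show f (t 0) = 0
    rw [ht.1, map_zero]
  · show f (t (k + 1)) ^ 2 = 2 + f (t k)
    rw [← map_pow, ht.2, map_add, map_ofNat]

/-- the level below: `t k = DD 2 (t (k + 1))` -/
theorem IsTh.down {t : ℕ → F} (ht : IsTh t) (k : ℕ) : t k = DD 2 (t (k + 1)) := by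
  rw [DD_two, ht.2]
  ring

theorem IsTh.exists [IsAlgClosed F] : ∃ t : ℕ → F, IsTh t := by
  have h : ∀ z : F, ∃ w : F, w ^ 2 = 2 + z := fun z =>
    IsAlgClosed.exists_pow_nat_eq (2 + z) two_pos
  choose r hr using h
  exact ⟨fun k => Nat.rec 0 (fun _ z => r z) k, rfl, fun k => hr _⟩

end

/-- the tower in the closure of an extension -/
theorem IsTheta.emb {θ : ℕ → Kb ℚ} (hθ : IsTheta θ) (K : Type) [Field K] [Algebra ℚ K] :
    IsTh fun k => emb ℚ K (θ k) :=
  IsTh.map (isTheta_iff.1 hθ) (BB37.emb ℚ K : Kb ℚ →+* Kb K)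

end BB37
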