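import Pool.Agent.Lib.MP_bb37eb_nt.ODD.Dk

/-! ODD: Hilbert 90 for the stabiliser of an element. -/

namespace BB37

/-- a fixed element lies in the base field -/
theorem exists_of_fixed {K : Type} [Field K] [CharZero K] {x : Kb K} (h : ∀ g : GK K, g x = x) :
    ∃ a : K, algebraMap K (Kb K) a = x := by
  exact (InfiniteGalois.mem_range_algebraMap_iff_fixed (k := K) (K := Kb K) x).2 h

theorem exists_of_fixedU {K : Type} [Field K] [CharZero K] {x : (Kb K)ˣ}
    (h : ∀ g : GK K, g • x = x) : ∃ a : Kˣ, Units.map (algebraMap K (Kb K)).toMonoidHom a = x := by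
  have h1 : ∀ g : GK K, g (x : Kb K) = (x : Kb K) := by
    intro g
    have h2 := congrArg (fun u : (Kb K)ˣ => (u : Kb K)) (h g)
    rw [AlgEquiv.smul_units_def] at h2
    exact h2
  obtain ⟨a, ha⟩ := exists_of_fixed h1
  have h0 : a ≠ 0 := by
    rintro rfl
    rw [map_zero] at ha
    exact x.ne_zero ha.symm
  refine ⟨Units.mk0 a h0, ?_⟩
  apply Units.ext
  exact ha

/-- the coboundary of a smooth cochain as a smooth cocycle -/
noncomputable def dd {K : Type} [Field K] (u : GK K → (Kb K)ˣ) (hu : Smooth1 K u) : Z2 K :=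
  ⟨fun p => p.1 • u p.2 * u p.1 / u (p.1 * p.2), B2_le_Z2 ⟨u, hu, fun _ _ => rfl⟩⟩

theorem cls_dd {K : Type} [Field K] (u : GK K → (Kb K)ˣ) (hu : Smooth1 K u) :
    cls (dd u hu) = 1 := cls_eq_one.2 ⟨u, hu, fun _ _ => rfl⟩

/-- a function of `g t` is smooth -/
theorem smooth1_of_val {K : Type} [Field K] (t : Kb K) {X : Type} (f : GK K → X)
    (h : ∀ g g', g t = g' t → f g = f g') : Smooth1 K f := by
  obtain ⟨M, hM, hs⟩ := exists_finite_sub (K := K) {t} (Set.finite_singleton t)
  exact ⟨M, hM, fun g g' hg => h g g' (hg t (hs rfl))⟩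

theorem smooth2_of_val {K : Type} [Field K] (t : Kb K) {X : Type} (f : GK K × GK K → X)
    (h : ∀ g g' k k', g t = g' t → k t = k' t → f (g, k) = f (g', k')) : Smooth2 K f := by
  obtain ⟨M, hM, hs⟩ := exists_finite_sub (K := K) {t} (Set.finite_singleton t)
  exact ⟨M, hM, fun g g' k k' hg hk => h g g' k k' (hg t (hs rfl)) (hk t (hs rfl))⟩

end BB37
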