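import Pool.Agent.Lib.MP_bb37eb_nt.ODD.H90

/-! ODD: Hilbert 90 for the stabiliser of an element. -/

namespace BB37

/-- Let `M` be a finite normal subextension with `t ∈ M`, `w` factoring through `M`, with values
in `M` (`Smooth1.values`, `exists_normal`). The images in `M ≃ₐ[K] M` of the `g` with `g t = t` form
a finite group `H`; by independence of characters (`linearIndependent_monoidHom` or
`Dedekind`) there is `x ∈ M` with `b = ∑_(h ∈ H) w h * h x ≠ 0`; then `g b = (w g)⁻¹ * b`, take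
`z = b⁻¹`. (See `DE/Hilbert.lean`, theorem `hilbert90`, for the handling of `M`; alternatively apply
the Mathlib Hilbert 90 `groupCohomology.isMulCoboundary₁_of_isMulCocycle₁_of_aut_to_units` over the
fixed field of `H` in `M`.) -/
theorem hilbert90_rel {K : Type} [Field K] [CharZero K] (t : Kb K) (w : GK K → (Kb K)ˣ)
    (hw : Smooth1 K w) (hc : ∀ g h, g t = t → h t = t → w (g * h) = w g * g • w h) :
    ∃ z : (Kb K)ˣ, ∀ g, g t = t → w g = g • z / z := by
  classical
  obtain ⟨M0, hM0, hN0, h10, h20⟩ := hw.values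
  obtain ⟨M1, hM1, hs1⟩ := exists_finite_sub (K := K) {t} (Set.finite_singleton t)
  obtain ⟨M, h3, hM, hN⟩ := exists_normal K (M0 ⊔ M1)
  have ht : t ∈ M := h3 (le_sup_right (a := M0) (hs1 rfl))
  have h1 : ∀ g h, Agree K M g h → w g = w h := fun g h hg =>
    h10 g h fun x hx => hg x (h3 (le_sup_left (a := M0) hx))
  have h2 : ∀ g, (w g : Kb K) ∈ M := fun g => h3 (le_sup_left (a := M0) (h20 g))
  let r : GK K →* (M ≃ₐ[K] M) := AlgEquiv.restrictNormalHom M
  have hr : Function.Surjective r := AlgEquiv.restrictNormalHom_surjective (Kb K)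
  choose l hl using hr
  have hrc : ∀ (g : GK K) (x : M), ((r g x : M) : Kb K) = g (x : Kb K) := fun g x =>
    AlgEquiv.restrictNormal_commutes g M x
  have hag : ∀ g h : GK K, r g = r h → w g = w h := by
    intro g h e
    apply h1
    intro x hx
    have e1 := hrc g ⟨x, hx⟩
    have e2 := hrc h ⟨x, hx⟩
    rw [e] at e1
    exact e1.symm.trans e2
  -- the values in `M`
  let f : (M ≃ₐ[K] M) → M := fun γ => ⟨(w (l γ) : Kb K), h2 _⟩
  have hf : ∀ γ, ((f γ : M) : Kb K) = w (l γ) := fun γ => rfl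
  have hf0 : ∀ γ, f γ ≠ 0 := fun γ h0 => (w (l γ)).ne_zero (congrArg Subtype.val h0)
  let T : M := ⟨t, ht⟩
  let H : Finset (M ≃ₐ[K] M) := Finset.univ.filter fun γ => γ T = T
  have hH : ∀ γ, γ ∈ H ↔ γ T = T := fun γ => by simp [H]
  have hlt : ∀ γ ∈ H, l γ t = t := by
    intro γ hγ
    have e := hrc (l γ) T
    rw [hl, (hH γ).1 hγ] at e
    exact e.symm
  have hrt : ∀ g : GK K, g t = t → r g ∈ H := by
    intro g hg
    rw [hH]
    apply Subtype.ext
    rw [hrc]
    exact hg
  -- independence of characters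
  obtain ⟨x, hx⟩ : ∃ x : M, ∑ γ ∈ H, f γ * γ x ≠ 0 := by
    by_contra hno
    push Not at hno
    have hli := linearIndependent_monoidHom M M
    let e : (M ≃ₐ[K] M) → (M →* M) := fun γ => (γ : M →* M)
    have he : Function.Injective e := by
      intro γ δ h
      apply AlgEquiv.ext
      intro y
      exact DFunLike.congr_fun h y
    have hli2 := hli.comp e he
    rw [linearIndependent_iff'] at hli2
    have h0 := hli2 H f (by
      funext y
      have := hno y
      rw [Finset.sum_apply]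
      simpa [e] using this) 1 (by rw [hH]; rfl)
    exact hf0 1 h0
  set b : M := ∑ γ ∈ H, f γ * γ x with hb
  -- the key identity
  have key : ∀ g : GK K, g t = t → (w g : Kb K) * g (b : Kb K) = (b : Kb K) := by
    intro g hg
    have hgH := hrt g hg
    have e1 : g (b : Kb K) = ∑ γ ∈ H, g (w (l γ) : Kb K) * (((r g * γ) x : M) : Kb K) := by
      rw [← hrc g b, hb, map_sum, AddSubmonoidClass.coe_finsetSum]
      apply Finset.sum_congr rfl
      intro γ hγ
      rw [map_mul, MulMemClass.coe_mul, hrc g (f γ), hf]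
      rfl
    have e2 : ∀ γ ∈ H, (w g : Kb K) * g (w (l γ) : Kb K) = (f (r g * γ) : Kb K) := by
      intro γ hγ
      have e3 := hc g (l γ) hg (hlt γ hγ)
      have e4 : w (l (r g * γ)) = w (g * l γ) := hag _ _ (by rw [hl, map_mul, hl])
      rw [hf, e4, e3, Units.val_mul, AlgEquiv.smul_units_def]
      rfl
    rw [e1, Finset.mul_sum, hb, AddSubmonoidClass.coe_finsetSum]
    refine Finset.sum_bij (fun γ _ => r g * γ) ?_ ?_ ?_ ?_
    · intro γ hγ
      rw [hH] at hγ hgH ⊢
      rw [AlgEquiv.mul_apply, hγ, hgH]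
    · intro γ _ δ _ h
      exact mul_left_cancel h
    · intro δ hδ
      refine ⟨(r g)⁻¹ * δ, ?_, by group⟩
      rw [hH] at hδ hgH ⊢
      rw [AlgEquiv.mul_apply, hδ]
      calc (r g)⁻¹ T = (r g)⁻¹ ((r g) T) := by rw [hgH]
        _ = ((r g)⁻¹ * (r g)) T := rfl
        _ = T := by rw [inv_mul_cancel]; rfl
    · intro γ hγ
      rw [MulMemClass.coe_mul, ← e2 γ hγ]
      ring
  have hb0 : (b : Kb K) ≠ 0 := fun h0 => hx (Subtype.ext h0)
  refine ⟨(Units.mk0 (b : Kb K) hb0)⁻¹, fun g hg => ?_⟩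
  rw [eq_div_iff_mul_eq']
  apply Units.ext
  rw [smul_inv', Units.val_mul, Units.val_inv_eq_inv_val, Units.val_inv_eq_inv_val,
    AlgEquiv.smul_units_def]
  change (w g : Kb K) * (b : Kb K)⁻¹ = (g (b : Kb K))⁻¹
  have hk := key g hg
  have hg0 : g (b : Kb K) ≠ 0 := by
    intro h0
    rw [h0, mul_zero] at hk
    exact hb0 hk.symm
  rw [← mul_inv_eq_one₀ (inv_ne_zero hg0), inv_inv, mul_right_comm, hk, mul_inv_cancel₀ hb0]

end BB37
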