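import Pool.Agent.Lib.MP_bb37eb_nt.ODD.CupC

/-! ODD: families concentrated at one place. -/

namespace BB37

private theorem InvS_self (v : Place) (x : H2 (Kv v)) : single v x v = x := by
  unfold single
  exact Function.update_self (β := fun w => H2 (Kv w)) v x 1

private theorem InvS_ne {v w : Place} (x : H2 (Kv v)) (h : w ≠ v) : single v x w = 1 := by
  unfold single
  rw [Function.update_of_ne h]
  rfl

private theorem InvS_fin (v : Place) (x : H2 (Kv v)) : {w | single v x w ≠ 1}.Finite := by
  apply (Set.finite_singleton v).subset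
  intro w hw
  by_contra h
  exact hw (InvS_ne x h)

private theorem InvS_odd (p : Nat.Primes) (hp : p ≠ two) (x : H2 (Kv (some p)))
    (hx : InU (Kv (some p)) x) : Adm (single (some p) x) := by
  refine ⟨InvS_fin (some p) x, fun q hq => ?_, 0, ?_⟩
  · by_cases h : q = p
    · subst h
      rw [InvS_self]
      exact hx
    · have h1 : (some q : Place) ≠ some p := fun e => h (Option.some.inj e)
      rw [InvS_ne x h1]
      exact InU_one
  · have h1 : (some two : Place) ≠ some p := fun e => hp (Option.some.inj e).symm
    rw [InvS_ne x h1, one_pow]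

private theorem InvS_of (p : Nat.Primes) (hp : p ≠ two) (x : H2 (Kv (some p)))
    (h : Adm (single (some p) x)) : InU (Kv (some p)) x := by
  have h1 := h.odd p hp
  rw [InvS_self] at h1
  exact h1

private theorem InvS_two (x : H2 (Kv (some two))) (hx : x * x = 1) :
    Adm (single (some two) x) := by
  refine ⟨InvS_fin (some two) x, fun q hq => ?_, 1, ?_⟩
  · have h1 : (some q : Place) ≠ some two := fun e => hq (Option.some.inj e)
    rw [InvS_ne x h1]
    exact InU_one
  · rw [InvS_self, pow_one, pow_two]
    exact hx

private theorem InvS_real (x : H2 (Kv none)) : Adm (single none x) := by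
  refine ⟨InvS_fin none x, fun q hq => ?_, 0, ?_⟩
  · have h1 : (some q : Place) ≠ none := Option.some_ne_none q
    rw [InvS_ne x h1]
    exact InU_one
  · have h1 : (some two : Place) ≠ none := Option.some_ne_none two
    rw [InvS_ne x h1, one_pow]

theorem adm_single_odd (p : Nat.Primes) (hp : p ≠ two) (x : H2 ℚ_[(p : ℕ)])
    (hx : InU ℚ_[(p : ℕ)] x) : Adm (single (some p) x) := by
  exact InvS_odd p hp x hx

theorem InU_of_adm_single (p : Nat.Primes) (hp : p ≠ two) (x : H2 ℚ_[(p : ℕ)])
    (h : Adm (single (some p) x)) : InU ℚ_[(p : ℕ)] x := by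
  exact InvS_of p hp x h

theorem adm_single_two (x : H2 ℚ_[2]) (hx : x * x = 1) : Adm (single (some two) x) := by
  exact InvS_two x hx

theorem adm_single_real (x : H2 ℝ) : Adm (single none x) := by
  exact InvS_real x

end BB37
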