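import Pool.Agent.Lib.MP_bb37eb_nt.ODD.Inv
import Pool.Agent.Lib.MP_bb37eb_nt.ODD.InvS

/-! ODD: the value of the invariant at the classes of order two. -/

namespace BB37

/-- the chosen classes of order two (`exists_hr`, `exists_h2`, `exists_hp`) -/
structure HData where
  /-- the classes -/
  h : ∀ v : Place, H2 (Kv v)
  re : IsQuat (-1 : ℝ) (-1) (h none : H2 ℝ)
  re_all : ∀ x : H2 ℝ, x = 1 ∨ x = (h none : H2 ℝ)
  dy : IsQuat (-1 : ℚ_[2]) (-1) (h (some two) : H2 ℚ_[2])
  dy_all : ∀ x : H2 ℚ_[2], x * x = 1 → x = 1 ∨ x = (h (some two) : H2 ℚ_[2])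
  ne : ∀ v, h v ≠ 1
  sq : ∀ v, h v * h v = 1
  inU : ∀ p : Nat.Primes, p ≠ two → InU (Kv (some p)) (h (some p))
  odd_all : ∀ p : Nat.Primes, p ≠ two → ∀ x : H2 ℚ_[(p : ℕ)], InU ℚ_[(p : ℕ)] x →
    x * x = 1 → x = 1 ∨ x = (h (some p) : H2 ℚ_[(p : ℕ)])
  odd_quat : ∀ p : Nat.Primes, p ≠ two → ∀ (e : ℚ_[(p : ℕ)]) (x : H2 ℚ_[(p : ℕ)]), ‖e‖ = 1 →
    ¬ IsSquare e → IsQuat e (p : ℚ_[(p : ℕ)]) x → x = (h (some p) : H2 ℚ_[(p : ℕ)])

/-- the properties of the class at one place -/
private def HD_P : ∀ v : Place, H2 (Kv v) → Prop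
  | none, h => IsQuat (-1 : ℝ) (-1) (h : H2 ℝ) ∧ ∀ x : H2 ℝ, x = 1 ∨ x = (h : H2 ℝ)
  | some p, h =>
    (p = two → IsQuat (-1 : ℚ_[(p : ℕ)]) (-1) (h : H2 ℚ_[(p : ℕ)]) ∧
      ∀ x : H2 ℚ_[(p : ℕ)], x * x = 1 → x = 1 ∨ x = (h : H2 ℚ_[(p : ℕ)])) ∧
    (p ≠ two → InU (Kv (some p)) h ∧
      (∀ x : H2 ℚ_[(p : ℕ)], InU ℚ_[(p : ℕ)] x →
        x * x = 1 → x = 1 ∨ x = (h : H2 ℚ_[(p : ℕ)])) ∧
      ∀ (e : ℚ_[(p : ℕ)]) (x : H2 ℚ_[(p : ℕ)]), ‖e‖ = 1 →
        ¬ IsSquare e → IsQuat e (p : ℚ_[(p : ℕ)]) x → x = (h : H2 ℚ_[(p : ℕ)]))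

private theorem HD_exists (v : Place) : ∃ h : H2 (Kv v), h ≠ 1 ∧ h * h = 1 ∧ HD_P v h := by
  match v with
  | none =>
    obtain ⟨h, h1, h2, h3, h4⟩ := exists_hr
    exact ⟨h, h1, h2, h3, h4⟩
  | some p =>
    by_cases hp : p = two
    · subst hp
      obtain ⟨h, h1, h2, h3, h4⟩ := exists_h2
      exact ⟨h, h1, h2, fun _ => ⟨h3, h4⟩, fun h => absurd rfl h⟩
    · obtain ⟨h, h1, h2, h3, h4, h5⟩ := exists_hp p hp
      exact ⟨h, h1, h2, fun h => absurd h hp, fun _ => ⟨h3, h4, h5⟩⟩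

theorem exists_hdata : Nonempty HData := by
  choose h h1 h2 h3 using HD_exists
  exact ⟨{ h := h
           re := (h3 none).1
           re_all := (h3 none).2
           dy := ((h3 (some two)).1 rfl).1
           dy_all := ((h3 (some two)).1 rfl).2
           ne := h1
           sq := h2
           inU := fun p hp => ((h3 (some p)).2 hp).1
           odd_all := fun p hp => ((h3 (some p)).2 hp).2.1
           odd_quat := fun p hp => ((h3 (some p)).2 hp).2.2 }⟩

theorem HData.adm (D : HData) (v : Place) : Adm (single v (D.h v)) := by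
  match v with
  | none => exact adm_single_real (D.h none)
  | some p =>
    by_cases hp : p = two
    · subst hp
      exact adm_single_two (D.h (some two)) (D.sq (some two))
    · exact adm_single_odd p hp (D.h (some p)) (D.inU p hp)

private theorem HD_single_self (v : Place) (x : H2 (Kv v)) : single v x v = x := by
  classical
  unfold single
  exact Function.update_self (β := fun w => H2 (Kv w)) v x 1

private theorem HD_single_ne {v w : Place} (h : w ≠ v) (x : H2 (Kv v)) : single v x w = 1 := by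
  classical
  unfold single
  exact Function.update_of_ne (β := fun w => H2 (Kv w)) h x 1

/-- `γ = 1` is good -/
theorem HData.inv_two (D : HData) : Inv (single (some two) (D.h (some two))) = D.h (some two) := by
  have hg : Good (single (some two) (D.h (some two))) 1 := by
    refine ⟨fun v hv => ?_, 0, ?_⟩
    · rw [HD_single_ne hv, map_one]
    · rw [map_one, one_pow]
  rw [Inv_eq hg, HD_single_self, map_one, div_one]

/-- the class `(-1,-1)` is good -/
theorem HData.inv_real (D : HData) : Inv (single none (D.h none)) = D.h (some two) := by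
  obtain ⟨γ, h1, h2, h3, h4⟩ := exists_hamilton
  have e2 : res ℚ (Kv (some two)) γ = D.h (some two) := IsQuat.eq h3 D.dy
  have er : res ℚ (Kv none) γ = D.h none := IsQuat.eq h4 D.re
  have hg : Good (single none (D.h none)) γ := by
    refine ⟨fun v hv => ?_, 1, ?_⟩
    · match v with
      | none => rw [er, HD_single_self]
      | some p =>
        have hp : p ≠ two := fun h => hv (congrArg some h)
        rw [HD_single_ne (by simp)]
        exact h2 p hp
    · rw [pow_one, pow_two, ← map_mul, h1, map_one]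
  rw [Inv_eq hg, HD_single_ne (by simp), e2, one_div]
  exact inv_eq_of_mul_eq_one_left (D.sq (some two))

end BB37
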