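import Pool.Agent.Lib.MP_bb37eb_nt.ODD.HD

/-! ODD: the primes which are not 1 modulo 8. -/

namespace BB37

private theorem single_same' (v : Place) (x : H2 (Kv v)) : single v x v = x := by
  unfold single
  exact Function.update_self (β := fun w => H2 (Kv w)) v x 1

private theorem single_ne' {v w : Place} (h : w ≠ v) (x : H2 (Kv v)) : single v x w = 1 := by
  unfold single
  rw [Function.update_of_ne h]
  rfl

private theorem norm_prime_ne {q p : Nat.Primes} (h : q ≠ p) : ‖(((p : ℕ) : ℕ) : ℚ_[(q : ℕ)])‖ = 1 := by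
  have h2 := Padic.norm_natCast_eq_one_iff (p := (q : ℕ)) (n := (p : ℕ))
  exact h2.2 ((Nat.coprime_primes q.2 p.2).2 fun e => h (Subtype.ext e))

/-- the general computation -/
private theorem HData.inv_gen (D : HData) (p : Nat.Primes) (hp2 : p ≠ two) (a : ℤ)
    (ha : ∀ q : Nat.Primes, q ≠ two → ‖((a : ℤ) : ℚ_[(q : ℕ)])‖ = 1)
    (hns : ¬ IsSquare ((a : ℤ) : ZMod (p : ℕ)))
    (h2 : ∀ x : H2 ℚ_[2], IsQuat ((a : ℤ) : ℚ_[2]) ((p : ℕ) : ℚ_[2]) x → x ≠ 1) :
    Inv (single (some p) (D.h (some p))) = D.h (some two) := by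
  obtain ⟨γ, hγ⟩ := quat_exists' ((a : ℤ) : ℚ) ((p : ℕ) : ℚ)
  have hloc : ∀ (K : Type) [Field K] [Algebra ℚ K],
      IsQuat ((a : ℤ) : K) ((p : ℕ) : K) (res ℚ K γ) := by
    intro K _ _
    have h := quat_res' (K' := K) hγ
    rwa [map_intCast, map_natCast] at h
  have hne : ∀ q : Nat.Primes, q ≠ two → (q : ℕ) ≠ 2 := fun q hq h => hq (Subtype.ext h)
  have hγ2 : γ * γ = 1 := quat_sq' hγ
  have hgood : Good (single (some p) (D.h (some p))) γ := by
    refine ⟨?_, 1, ?_⟩
    · intro v hv
      match v with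
      | none =>
        rw [single_ne' (by simp), kv_res_real]
        have h := hloc ℝ
        exact quat_real' (by exact_mod_cast p.2.pos) h
      | some q =>
        have hq : q ≠ two := fun h => hv (by rw [h])
        by_cases hqp : q = p
        · subst hqp
          rw [single_same', kv_res]
          apply D.odd_quat q hq ((a : ℤ) : ℚ_[(q : ℕ)]) _ (ha q hq) _ (hloc ℚ_[(q : ℕ)])
          have hnd : ¬ ((q : ℕ) : ℤ) ∣ a := by
            intro hd
            have h5 := (Padic.norm_intCast_eq_one_iff (p := (q : ℕ)) (z := a)).1 (ha q hq)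
            have h6 : IsUnit ((q : ℕ) : ℤ) := h5.isUnit_of_dvd' hd dvd_rfl
            have h7 := Int.isUnit_iff.1 h6
            have h8 := q.2.two_le
            omega
          rw [isSquare_int (hne q hq) a hnd]
          exact hns
        · rw [single_ne' (by simpa using hqp), kv_res]
          apply quat_unit' (hne q hq) _ _ (hloc ℚ_[(q : ℕ)])
          · exact ⟨1, _, by rw [one_pow, one_mul], ha q hq⟩
          · exact ⟨1, _, by rw [one_pow, one_mul], norm_prime_ne hqp⟩
    · rw [← map_pow, pow_one, pow_two, hγ2, map_one]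
  rw [Inv_eq hgood]
  have h1 : single (some p) (D.h (some p)) (some two) = 1 :=
    single_ne' (by simpa using fun h => hp2 h.symm) _
  rw [h1]
  have h3 : (res ℚ ℚ_[2] γ) = (D.h (some two) : H2 ℚ_[2]) := by
    refine (D.dy_all (res ℚ ℚ_[2] γ) ?_).resolve_left (h2 _ (hloc ℚ_[2]))
    rw [← map_mul, hγ2, map_one]
  have h4 : res ℚ (Kv (some two)) γ = D.h (some two) := h3
  rw [h4, one_div, inv_eq_of_mul_eq_one_left (D.sq (some two))]

/-- the global quaternion class `(-1, p)` is good: at `p` it is `h p` (`odd_quat`,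
`ZMod.exists_sq_eq_neg_one_iff`, `isSquare_int`), at the other odd primes `quat_unit'`, at the real
place `quat_real'`; at 2 it is not trivial (`quat_neg_one_ne`), so it is `h 2` (`dy_all`) -/
theorem HData.inv_3 (D : HData) (p : Nat.Primes) (hp : (p : ℕ) % 4 = 3) :
    Inv (single (some p) (D.h (some p))) = D.h (some two) := by
  have hp2 : p ≠ two := by
    rintro rfl
    have : ((two : Nat.Primes) : ℕ) = 2 := rfl
    rw [this] at hp
    omega
  apply D.inv_gen p hp2 (-1)
  · intro q _
    rw [Int.cast_neg, Int.cast_one, norm_neg, norm_one]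
  · rw [Int.cast_neg, Int.cast_one, ZMod.exists_sq_eq_neg_one_iff]
    omega
  · intro x hx
    rw [Int.cast_neg, Int.cast_one] at hx
    exact quat_neg_one_ne hp hx

/-- same for `(2, p)`; `ZMod.exists_sq_eq_two_iff`, `quat_two_ne` -/
theorem HData.inv_5 (D : HData) (p : Nat.Primes) (hp : (p : ℕ) % 8 = 5) :
    Inv (single (some p) (D.h (some p))) = D.h (some two) := by
  have hp2 : p ≠ two := by
    rintro rfl
    have : ((two : Nat.Primes) : ℕ) = 2 := rfl
    rw [this] at hp
    omega
  apply D.inv_gen p hp2 2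
  · intro q hq
    have h := norm_prime_ne (q := q) (p := two) hq
    exact h
  · rw [Int.cast_ofNat, ZMod.exists_sq_eq_two_iff (fun h => hp2 (Subtype.ext h))]
    omega
  · intro x hx
    rw [Int.cast_ofNat] at hx
    exact quat_two_ne hp hx

end BB37
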