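import Pool.Agent.Lib.MP_bb37eb_nt.Core.Places

/-! ODD: the least nonresidue. -/

namespace BB37

/-- the least nonresidue: a prime `q < p`, odd -/
theorem exists_nonresidue (p : Nat.Primes) (hp : (p : ℕ) % 8 = 1) : ∃ q : Nat.Primes,
    q ≠ two ∧ (q : ℕ) < p ∧ ¬ IsSquare (((q : ℕ) : ℤ) : ZMod p) ∧
    ¬ IsSquare (((p : ℕ) : ℤ) : ZMod q) := by
  classical
  have hp2 : (p : ℕ) ≠ 2 := by
    intro h
    rw [h] at hp
    norm_num at hp
  have hne : ∃ n : ℕ, ¬ IsSquare ((n : ℕ) : ZMod p) := by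
    obtain ⟨a, ha⟩ := FiniteField.exists_nonsquare (F := ZMod p) (by rw [ZMod.ringChar_zmod_n]; exact hp2)
    refine ⟨a.val, ?_⟩
    rwa [ZMod.natCast_zmod_val]
  let q := Nat.find hne
  have hq : ¬ IsSquare ((q : ℕ) : ZMod p) := Nat.find_spec hne
  have hmin : ∀ m, m < q → IsSquare ((m : ℕ) : ZMod p) := by
    intro m hm
    by_contra h
    exact Nat.find_min hne hm h
  have hqp : q < p := by
    obtain ⟨n, hn⟩ := hne
    have h1 : ¬ IsSquare (((n % (p : ℕ) : ℕ)) : ZMod p) := by
      rwa [ZMod.natCast_mod]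
    have h2 : q ≤ n % (p : ℕ) := Nat.find_min' ⟨n, hn⟩ h1
    exact lt_of_le_of_lt h2 (Nat.mod_lt _ p.2.pos)
  have hq1 : q ≠ 1 := by
    intro h
    apply hq
    rw [h, Nat.cast_one]
    exact IsSquare.one
  have hq0 : q ≠ 0 := by
    intro h
    apply hq
    rw [h, Nat.cast_zero]
    exact IsSquare.zero
  have hprime : q.Prime := by
    by_contra hnp
    have hmf : q.minFac < q := by
      refine lt_of_le_of_ne (Nat.minFac_le (Nat.pos_of_ne_zero hq0)) ?_
      intro h
      exact hnp (h ▸ Nat.minFac_prime hq1)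
    obtain ⟨r, hr⟩ := Nat.minFac_dvd q
    have hmp := Nat.minFac_prime hq1
    have hr0 : r ≠ 0 := by
      rintro rfl
      rw [mul_zero] at hr
      exact hq0 hr
    have hrq : r < q := by
      calc r < q.minFac * r := by
            have := hmp.one_lt
            nlinarith [Nat.pos_of_ne_zero hr0]
        _ = q := hr.symm
    apply hq
    rw [hr, Nat.cast_mul]
    exact (hmin _ hmf).mul (hmin _ hrq)
  have hq2 : q ≠ 2 := by
    intro h
    apply hq
    rw [h]
    have := (ZMod.exists_sq_eq_two_iff hp2).2 (Or.inl hp)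
    exact_mod_cast this
  refine ⟨⟨q, hprime⟩, ?_, hqp, ?_, ?_⟩
  · intro h
    exact hq2 (congrArg Subtype.val h)
  · intro h
    apply hq
    exact_mod_cast h
  · intro h
    apply hq
    have : Fact q.Prime := ⟨hprime⟩
    have := (ZMod.exists_sq_eq_prime_iff_of_mod_four_eq_one (p := (p : ℕ)) (q := q) (by omega) hq2).2
      (by exact_mod_cast h)
    exact this
end BB37
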