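import Pool.Agent.Lib.MP_bb37eb_nt.ODD.HD
import Pool.Agent.Lib.MP_bb37eb_nt.ODD.NR

/-! ODD: the primes which are 1 modulo 8. -/

namespace BB37

private theorem hdc_single_same (v : Place) (x : H2 (Kv v)) : single v x v = x := by
  classical
  unfold single
  exact Function.update_self ..

private theorem hdc_single_ne {v w : Place} (x : H2 (Kv v)) (h : w ≠ v) : single v x w = 1 := by
  classical
  unfold single
  rw [Function.update_of_ne h]
  rfl

private theorem hdc_norm {l m : Nat.Primes} (h : m ≠ l) : ‖((m : ℕ) : ℚ_[(l : ℕ)])‖ = 1 := by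
  rw [Padic.norm_natCast_eq_one_iff]
  refine (Nat.coprime_primes l.2 m.2).2 ?_
  intro h1
  exact h (Subtype.ext h1.symm)

private theorem hdc_not_square {l m : Nat.Primes} (hl : l ≠ two) (h : m ≠ l)
    (h1 : ¬ IsSquare (((m : ℕ) : ℤ) : ZMod l)) : ¬ IsSquare ((m : ℕ) : ℚ_[(l : ℕ)]) := by
  have hl2 : (l : ℕ) ≠ 2 := fun h2 => hl (Subtype.ext h2)
  have hd : ¬ ((l : ℕ) : ℤ) ∣ ((m : ℕ) : ℤ) := by
    rw [Int.natCast_dvd_natCast]
    intro h2
    have := (Nat.prime_dvd_prime_iff_eq l.2 m.2).1 h2
    exact h (Subtype.ext this.symm)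
  have h3 := isSquare_int hl2 ((m : ℕ) : ℤ) hd
  intro h4
  refine h1 (h3.1 ?_)
  rwa [Int.cast_natCast]

/-- the global class `(q, p)` is good for the product of the two families: at `p` it is `h p`, at
`q` it is `h q` (`IsQuat.symm`), at 2 it is trivial (`isSquare_nat_two`, `quat_square'`) -/
theorem HData.inv_1 (D : HData) (p q : Nat.Primes) (hp : (p : ℕ) % 8 = 1) (hq : q ≠ two)
    (hqp : q ≠ p) (h1 : ¬ IsSquare (((q : ℕ) : ℤ) : ZMod p))
    (h2 : ¬ IsSquare (((p : ℕ) : ℤ) : ZMod q)) :
    Inv (single (some p) (D.h (some p)) * single (some q) (D.h (some q))) = 1 := by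
  have hp2 : p ≠ two := by
    rintro rfl
    exact absurd hp (by decide)
  obtain ⟨γ, hγ⟩ := quat_exists' ((q : ℕ) : ℚ) ((p : ℕ) : ℚ)
  have hres : ∀ (K : Type) [Field K] [Algebra ℚ K],
      IsQuat ((q : ℕ) : K) ((p : ℕ) : K) (res ℚ K γ) := by
    intro K _ _
    have := quat_res' (K' := K) hγ
    rwa [map_natCast, map_natCast] at this
  have h2γ : res ℚ (Kv (some two)) γ = 1 := by
    have h3 : IsSquare ((p : ℕ) : ℚ_[2]) := isSquare_nat_two hp
    exact quat_square' h3 (hres ℚ_[2])
  have hgood : Good (single (some p) (D.h (some p)) * single (some q) (D.h (some q))) γ := by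
    refine ⟨fun v hv => ?_, 0, ?_⟩
    · rw [Pi.mul_apply]
      match v with
      | none =>
        rw [hdc_single_ne _ (by simp), hdc_single_ne _ (by simp), mul_one]
        have h3 : (0:ℝ) < ((p : ℕ) : ℝ) := by exact_mod_cast p.2.pos
        exact quat_real' h3 (hres ℝ)
      | some l =>
        have hl2 : l ≠ two := fun h => hv (by rw [h])
        have hl2' : (l : ℕ) ≠ 2 := fun h3 => hl2 (Subtype.ext h3)
        by_cases hlp : l = p
        · subst hlp
          rw [hdc_single_same, hdc_single_ne _ (fun h => hqp (Option.some.inj h).symm), mul_one]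
          exact D.odd_quat l hl2 _ _ (hdc_norm hqp) (hdc_not_square hl2 hqp h1) (hres ℚ_[(l : ℕ)])
        · by_cases hlq : l = q
          · subst hlq
            rw [hdc_single_same, hdc_single_ne _ (fun h => hlp (Option.some.inj h)), one_mul]
            exact D.odd_quat l hl2 _ _ (hdc_norm (Ne.symm hqp))
              (hdc_not_square hl2 (Ne.symm hqp) h2) (hres ℚ_[(l : ℕ)]).symm
          · rw [hdc_single_ne _ (fun h => hlp (Option.some.inj h)),
              hdc_single_ne _ (fun h => hlq (Option.some.inj h)), mul_one]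
            refine quat_unit' (p := (l : ℕ)) hl2' ⟨1, _, by rw [one_pow, one_mul], ?_⟩
              ⟨1, _, by rw [one_pow, one_mul], ?_⟩ (hres ℚ_[(l : ℕ)])
            · exact hdc_norm (Ne.symm hlq)
            · exact hdc_norm (Ne.symm hlp)
    · rw [h2γ, one_pow]
  rw [Inv_eq hgood, h2γ, Pi.mul_apply,
    hdc_single_ne _ (fun h => hp2 (Option.some.inj h).symm),
    hdc_single_ne _ (fun h => hq (Option.some.inj h).symm), mul_one, div_one]

end BB37
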