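import Pool.Agent.Lib.MP_bb37eb_nt.ODD.H90

/-! ODD: inflation, first step. -/

namespace BB37

open groupCohomology

/-- Normalisation on the right. Let `H = {h | h t = t}` (normal by `hn`). Put
`c1 = c / dd u`, so `c1 = 1` on `H × H`, in particular `c1 (1,1) = 1`. Choose representatives
`r g` of the cosets `g H` (a function of `g t`, e.g. `r g = Function.invFun (fun g => g t) (g t)`
suitably changed so that `r = 1` on `H`), `g = r g * e g` with `e g ∈ H`, put
`v g = c1 (r g, e g)` (smooth: for `M` normal finite containing `t` such that `c1` factors through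
`M`) and `c2 = c1 * dd v`. Then `v = 1` on `H` and on representatives, `c2 (r g, h) = 1`,
`c2 = 1` on `H × H`, and the cocycle condition for `(r g, e g, h)` gives `c2 (g, h) = 1` for all
`g` and `h ∈ H`. -/
theorem inflA {K : Type} [Field K] (t : Kb K) (hn : ∀ g h : GK K, h t = t → h (g t) = g t)
    (c : Z2 K) (u : GK K → (Kb K)ˣ) (hu : Smooth1 K u)
    (hc : ∀ g h : GK K, g t = t → h t = t → c.1 (g, h) = g • u h * u g / u (g * h)) :
    ∃ c2 : Z2 K, cls c2 = cls c ∧ ∀ g h : GK K, h t = t → c2.1 (g, h) = 1 := by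
  classical
  -- the first modification
  obtain ⟨c1, hc1⟩ : ∃ c1 : Z2 K, c1 = c / dd u hu := ⟨_, rfl⟩
  have hcls1 : cls c1 = cls c := by
    rw [hc1, cls_div, cls_dd, div_one]
  have hval1 : ∀ g h : GK K, c1.1 (g, h) = c.1 (g, h) / (g • u h * u g / u (g * h)) := by
    intro g h
    rw [hc1]
    rfl
  have h11 : ∀ g h : GK K, g t = t → h t = t → c1.1 (g, h) = 1 := by
    intro g h hg hh
    rw [hval1, hc g h hg hh, div_self']
  have hcoc : ∀ g h j : GK K,
      c1.1 (g * h, j) * c1.1 (g, h) = g • c1.1 (h, j) * c1.1 (g, h * j) := c1.2.2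
  have h1j : ∀ j : GK K, c1.1 (1, j) = 1 := by
    intro j
    have e := hcoc 1 1 j
    rw [one_mul, one_mul, one_smul, h11 1 1 rfl rfl, mul_one] at e
    exact left_eq_mul.1 e
  -- representatives
  obtain ⟨r, hr1, hr2, hr3⟩ : ∃ r : GK K → GK K, (∀ g, r g t = g t) ∧
      (∀ g g' : GK K, g t = g' t → r g = r g') ∧ (∀ g : GK K, g t = t → r g = 1) := by
    refine ⟨fun g => if g t = t then 1 else Function.invFun (fun g : GK K => g t) (g t),
      ?_, ?_, ?_⟩
    · intro g
      by_cases hg : g t = t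
      · simp [hg]
      · have : (fun g : GK K => g t) (Function.invFun (fun g : GK K => g t) (g t)) = g t :=
          Function.invFun_eq (f := fun g : GK K => g t) (b := g t) ⟨g, rfl⟩
        simpa [hg] using this
    · intro g g' hg
      simp only [hg]
    · intro g hg
      simp [hg]
  have he : ∀ g : GK K, ((r g)⁻¹ * g) t = t := by
    intro g
    have : (r g)⁻¹ (r g t) = t := (r g).symm_apply_apply t
    rw [AlgEquiv.mul_apply, ← hr1 g]
    exact this
  obtain ⟨M, hM, hMc⟩ := c1.2.1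
  have hv : Smooth1 K (fun g => c1.1 (r g, (r g)⁻¹ * g)) := by
    obtain ⟨M1, hM1, ht⟩ := exists_finite_sub (K := K) {t} (Set.finite_singleton t)
    refine ⟨M ⊔ M1, inferInstance, ?_⟩
    intro g g' hg
    have e1 : r g = r g' := hr2 g g' (hg t (le_sup_right (a := M) (ht rfl)))
    show c1.1 (r g, (r g)⁻¹ * g) = c1.1 (r g', (r g')⁻¹ * g')
    rw [← e1]
    apply hMc
    · intro x _
      rfl
    · intro x hx
      rw [AlgEquiv.mul_apply, AlgEquiv.mul_apply, hg x (le_sup_left (a := M) hx)]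
  refine ⟨c1 * dd _ hv, ?_, ?_⟩
  · rw [cls_mul, cls_dd, mul_one, hcls1]
  · intro g h hh
    have hval : (c1 * dd _ hv).1 (g, h) = c1.1 (g, h) *
        (g • c1.1 (r h, (r h)⁻¹ * h) * c1.1 (r g, (r g)⁻¹ * g) /
          c1.1 (r (g * h), (r (g * h))⁻¹ * (g * h))) := rfl
    have e1 : r (g * h) = r g := hr2 _ _ (by rw [AlgEquiv.mul_apply, hh])
    have e2 : r h = 1 := hr3 h hh
    have e3 := hcoc (r g) ((r g)⁻¹ * g) h
    rw [mul_inv_cancel_left, h11 _ _ (he g) hh, smul_one, one_mul, mul_assoc] at e3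
    rw [hval, e1, e2, h1j, smul_one, one_mul, ← e3, ← mul_div_assoc, div_self']

end BB37
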