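import Pool.Agent.Lib.MP_bb37eb_nt.ODD.InfA
import Pool.Agent.Lib.MP_bb37eb_nt.ODD.H90R

/-! ODD: inflation, second step. -/

namespace BB37

/-- if `c (g,h) = 1` for `h` fixing `t`, then `c (g, j)` depends on `j` only through `j t`.
Proof: cocycle condition for `(g, h, j)` with `h ∈ G`, `j ∈ H`:
`c (g h, j) c (g, h) = g c (h, j) c (g, h j)`. -/
theorem infl_right {K : Type} [Field K] (t : Kb K) (c : Z2 K)
    (h1 : ∀ g h : GK K, h t = t → c.1 (g, h) = 1) (g h h' : GK K) (hh : h t = h' t) :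
    c.1 (g, h) = c.1 (g, h') := by
  have hj : (h⁻¹ * h') t = t := by
    rw [AlgEquiv.mul_apply, ← hh]
    exact h.symm_apply_apply t
  have e : c.1 (g * h, h⁻¹ * h') * c.1 (g, h) =
      g • c.1 (h, h⁻¹ * h') * c.1 (g, h * (h⁻¹ * h')) := c.2.2 g h (h⁻¹ * h')
  rw [h1 _ _ hj, h1 _ _ hj, smul_one, one_mul, one_mul, mul_inv_cancel_left] at e
  exact e

/-- Second normalisation. For `g ∈ G` the function `h ↦ c (h, g)` on `H` is a 1-cocycle: the
condition for `(h', h, g)` and `h g = g (g⁻¹ h g)`, `g⁻¹ h g ∈ H` (by `hn`), with `infl_right`.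
`hilbert90_rel` gives `s g` with `c (h, g) = h • s g / s g`, chosen to depend on `g t` only
(`infl_right`) and equal to 1 if `g t = t`. Take `c3 = c / dd s`. -/
theorem inflB {K : Type} [Field K] [CharZero K] (t : Kb K)
    (hn : ∀ g h : GK K, h t = t → h (g t) = g t) (c : Z2 K)
    (h1 : ∀ g h : GK K, h t = t → c.1 (g, h) = 1) :
    ∃ c3 : Z2 K, cls c3 = cls c ∧ (∀ g h : GK K, h t = t → c3.1 (g, h) = 1) ∧
      ∀ g h : GK K, h t = t → c3.1 (h, g) = 1 := by
  classical
  have hz : ∀ g : GK K, ∃ z : (Kb K)ˣ, ∀ h : GK K, h t = t → c.1 (h, g) = h • z / z := by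
    intro g
    apply hilbert90_rel t (fun h => c.1 (h, g))
    · obtain ⟨M, hM, hMc⟩ := c.2.1
      exact ⟨M, hM, fun a b hab => hMc a b g g hab fun _ _ => rfl⟩
    · intro a b ha hb
      have e : c.1 (a * b, g) * c.1 (a, b) = a • c.1 (b, g) * c.1 (a, b * g) := c.2.2 a b g
      have e1 : c.1 (a, b * g) = c.1 (a, g) := by
        apply infl_right t c h1
        rw [AlgEquiv.mul_apply]
        exact hn g b hb
      rw [h1 a b hb, mul_one, e1] at e
      rw [e, mul_comm]
  obtain ⟨s, hs1, hs2, hs3⟩ : ∃ s : GK K → (Kb K)ˣ,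
      (∀ g g' : GK K, g t = g' t → s g = s g') ∧ (∀ g : GK K, g t = t → s g = 1) ∧
      ∀ g h : GK K, h t = t → c.1 (h, g) = h • s g / s g := by
    choose z hz using hz
    refine ⟨fun g => if g t = t then 1 else z (Function.invFun (fun g : GK K => g t) (g t)),
      ?_, ?_, ?_⟩
    · intro g g' hg
      simp only [hg]
    · intro g hg
      simp [hg]
    · intro g h hh
      by_cases hg : g t = t
      · simp only [hg, if_true]
        rw [h1 h g hg, smul_one, div_one]
      · simp only [hg, if_false]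
        rw [← hz _ h hh]
        apply infl_right t c h1
        exact (Function.invFun_eq (f := fun g : GK K => g t) (b := g t) ⟨g, rfl⟩).symm
  have hsm : Smooth1 K s := smooth1_of_val t s hs1
  have hval : ∀ g h : GK K, (c / dd s hsm).1 (g, h) =
      c.1 (g, h) / (g • s h * s g / s (g * h)) := fun g h => rfl
  refine ⟨c / dd s hsm, ?_, ?_, ?_⟩
  · rw [cls_div, cls_dd, div_one]
  · intro g h hh
    have e1 : s (g * h) = s g := hs1 _ _ (by rw [AlgEquiv.mul_apply, hh])
    rw [hval, h1 g h hh, e1, hs2 h hh, smul_one, one_mul, div_self', div_one]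
  · intro g h hh
    have e1 : s (h * g) = s g := hs1 _ _ (by rw [AlgEquiv.mul_apply]; exact hn g h hh)
    rw [hval, e1, hs2 h hh, mul_one, ← hs3 g h hh, div_self']

/-- Third step: the cocycle condition for `(g, h, j)` with `h ∈ H` gives
`c (g h, j) = c (g, h j)`, `h j = j (j⁻¹ h j)`. -/
theorem infl_left {K : Type} [Field K] (t : Kb K)
    (hn : ∀ g h : GK K, h t = t → h (g t) = g t) (c : Z2 K)
    (h1 : ∀ g h : GK K, h t = t → c.1 (g, h) = 1) (h2 : ∀ g h : GK K, h t = t → c.1 (h, g) = 1)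
    (g g' h : GK K) (hh : g t = g' t) :
    c.1 (g, h) = c.1 (g', h) := by
  have hj : (g⁻¹ * g') t = t := by
    rw [AlgEquiv.mul_apply, ← hh]
    exact g.symm_apply_apply t
  have e : c.1 (g * (g⁻¹ * g'), h) * c.1 (g, g⁻¹ * g') =
      g • c.1 (g⁻¹ * g', h) * c.1 (g, g⁻¹ * g' * h) := c.2.2 g (g⁻¹ * g') h
  have e1 : c.1 (g, g⁻¹ * g' * h) = c.1 (g, h) := by
    apply infl_right t c h1
    rw [AlgEquiv.mul_apply (g⁻¹ * g') h]
    exact hn h (g⁻¹ * g') hj
  rw [h1 _ _ hj, h2 _ _ hj, smul_one, one_mul, mul_one, mul_inv_cancel_left, e1] at e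
  exact e.symm

/-- a class split by `K(t)`, a normal extension, is inflated -/
theorem inflate {K : Type} [Field K] [CharZero K] (t : Kb K)
    (hn : ∀ g h : GK K, h t = t → h (g t) = g t)
    (c : Z2 K) (u : GK K → (Kb K)ˣ) (hu : Smooth1 K u)
    (hc : ∀ g h : GK K, g t = t → h t = t → c.1 (g, h) = g • u h * u g / u (g * h)) :
    ∃ c' : Z2 K, cls c' = cls c ∧
      ∀ g g' h h' : GK K, g t = g' t → h t = h' t → c'.1 (g, h) = c'.1 (g', h') := by
  obtain ⟨c2, e2, h2⟩ := inflA t hn c u hu hc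
  obtain ⟨c3, e3, h3, h4⟩ := inflB t hn c2 h2
  refine ⟨c3, e3.trans e2, fun g g' h h' hg hh => ?_⟩
  rw [infl_left t hn c3 h3 h4 g g' h hg, infl_right t c3 h3 g' h h' hh]

end BB37
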