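import Pool.Agent.Lib.MP_bb37eb_nt.ODD.InvB

/-! ODD: the invariant. -/

namespace BB37

open Classical in
/-- the invariant -/
noncomputable def Inv (b : ∀ v : Place, H2 (Kv v)) : H2 (Kv (some two)) :=
  if h : ∃ γ, Good b γ then b (some two) / res ℚ (Kv (some two)) h.choose else 1

theorem Inv_eq {b : ∀ v : Place, H2 (Kv v)} {γ : H2 ℚ} (h : Good b γ) :
    Inv b = b (some two) / res ℚ (Kv (some two)) γ := by
  have hex : ∃ γ, Good b γ := ⟨γ, h⟩
  rw [Inv, dif_pos hex, hex.choose_spec.unique h]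

theorem adm_mul' (b b' : ∀ v : Place, H2 (Kv v)) (h : Adm b) (h' : Adm b') : Adm (b * b') := by
  refine ⟨?_, ?_, ?_⟩
  · refine (h.fin.union h'.fin).subset ?_
    intro v hv
    by_contra hc
    rw [Set.mem_union, not_or] at hc
    obtain ⟨h1, h2⟩ := hc
    simp only [Set.mem_setOf_eq, not_not] at h1 h2
    apply hv
    rw [Pi.mul_apply, h1, h2, mul_one]
  · intro p hp
    exact InU_mul (h.odd p hp) (h'.odd p hp)
  · obtain ⟨m, hm⟩ := h.at2
    obtain ⟨m', hm'⟩ := h'.at2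
    refine ⟨m + m', ?_⟩
    rw [Pi.mul_apply, mul_pow, pow_add, pow_mul, hm, one_pow, mul_comm (2 ^ m), pow_mul, hm',
      one_pow, mul_one]

theorem Inv_mul (b b' : ∀ v : Place, H2 (Kv v)) (h : Adm b) (h' : Adm b') :
    Inv (b * b') = Inv b * Inv b' := by
  obtain ⟨γ, hγ⟩ := exists_good h
  obtain ⟨γ', hγ'⟩ := exists_good h'
  rw [Inv_eq hγ, Inv_eq hγ', Inv_eq (hγ.mul hγ'), Pi.mul_apply, map_mul, mul_div_mul_comm]

/-- if `b` is global, `b = res γ0`, then `γ0` is good because `b 2` has 2-power order -/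
theorem Inv_eq_one (b : ∀ v : Place, H2 (Kv v)) (h : Adm b) : Inv b = 1 ↔ Glob b := by
  constructor
  · intro h1
    obtain ⟨γ, hγ⟩ := exists_good h
    rw [Inv_eq hγ, div_eq_one] at h1
    refine ⟨γ, fun v => ?_⟩
    by_cases hv : v = some two
    · subst hv
      exact h1.symm
    · exact hγ.1 v hv
  · rintro ⟨γ, hγ⟩
    obtain ⟨m, hm⟩ := h.at2
    have hg : Good b γ := ⟨fun v _ => hγ v, m, by rw [hγ, hm]⟩
    rw [Inv_eq hg, hγ, div_self']

end BB37
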