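import Pool.Agent.Lib.MP_bb37eb_nt.ODD.Loc

/-! ODD: the invariant. -/

namespace BB37

/-- `γ` agrees with `b` outside 2 -/
def Good (b : ∀ v : Place, H2 (Kv v)) (γ : H2 ℚ) : Prop :=
  (∀ v, v ≠ some two → res ℚ (Kv v) γ = b v) ∧ ∃ m : ℕ, res ℚ (Kv (some two)) γ ^ 2 ^ m = 1

theorem Good.mul {b b' : ∀ v : Place, H2 (Kv v)} {γ γ' : H2 ℚ} (h : Good b γ) (h' : Good b' γ') :
    Good (b * b') (γ * γ') := by
  obtain ⟨h1, m, hm⟩ := h
  obtain ⟨h1', m', hm'⟩ := h'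
  refine ⟨fun v hv => ?_, m + m', ?_⟩
  · rw [map_mul, h1 v hv, h1' v hv]
    rfl
  · rw [map_mul, mul_pow, pow_add, pow_mul, hm, one_pow, one_mul, mul_comm (2 ^ m), pow_mul, hm',
      one_pow]

/-- `inj_two` for `γ / γ'` -/
theorem Good.unique {b : ∀ v : Place, H2 (Kv v)} {γ γ' : H2 ℚ} (h : Good b γ) (h' : Good b γ') :
    res ℚ (Kv (some two)) γ = res ℚ (Kv (some two)) γ' := by
  obtain ⟨h1, m, hm⟩ := h
  obtain ⟨h1', m', hm'⟩ := h'
  have key : ∀ v, v ≠ some two → res ℚ (Kv v) (γ / γ') = 1 := by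
    intro v hv
    rw [map_div, h1 v hv, h1' v hv, div_self']
  have h2 : res ℚ (Kv (some two)) (γ / γ') ^ 2 ^ (m + m') = 1 := by
    rw [map_div, div_pow, pow_add, pow_mul, hm, one_pow, mul_comm (2 ^ m), pow_mul, hm', one_pow,
      div_one]
  have h3 : res ℚ (Kv (some two)) (γ / γ') = 1 := by
    refine inj_two (γ / γ') (fun p hp => ?_) ?_ ⟨m + m', h2⟩
    · exact key (some p) fun hc => hp (Option.some.inj hc)
    · exact key none fun hc => by cases hc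
  rw [map_div, div_eq_one] at h3
  exact h3

end BB37
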