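import Pool.Agent.Lib.MP_bb37eb_nt.ODD.InvA

/-! ODD: existence of good global classes. -/

namespace BB37

open Classical in
private theorem exists_good_aux (c : ∀ p : Nat.Primes, H2 ℚ_[(p : ℕ)])
    (hc : ∀ p : Nat.Primes, p ≠ two → InU ℚ_[(p : ℕ)] (c p))
    (S : Finset Nat.Primes) : ∃ γ : H2 ℚ,
    (∀ p : Nat.Primes, p ≠ two → res ℚ ℚ_[(p : ℕ)] γ = if p ∈ S then c p else 1) ∧
      res ℚ ℝ γ = 1 ∧ ∃ m : ℕ, γ ^ 2 ^ m = 1 := by
  induction S using Finset.induction_on with
  | empty => exact ⟨1, fun p _ => by rw [if_neg (Finset.notMem_empty p), map_one], map_one _, 0,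
      one_pow _⟩
  | insert p S hp ih =>
    obtain ⟨γ, h1, h2, m, h3⟩ := ih
    by_cases hp2 : p = two
    · refine ⟨γ, fun q hq => ?_, h2, m, h3⟩
      rw [h1 q hq]
      have hqp : q ≠ p := fun h => hq (h.trans hp2)
      by_cases hqS : q ∈ S
      · rw [if_pos hqS, if_pos (Finset.mem_insert_of_mem hqS)]
      · rw [if_neg hqS, if_neg (by rw [Finset.mem_insert, not_or]; exact ⟨hqp, hqS⟩)]
    · obtain ⟨δ, hδ, hδq, hδr, m', hδ2⟩ := exists_global p hp2 (c p) (hc p hp2)
      refine ⟨γ * δ, fun q hq => ?_, by rw [map_mul, h2, hδr, one_mul], m + m', ?_⟩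
      · rw [map_mul, h1 q hq]
        by_cases hqp : q = p
        · subst hqp
          rw [if_neg hp, if_pos (Finset.mem_insert_self _ _), hδ, one_mul]
        · rw [hδq q hq hqp, mul_one]
          by_cases hqS : q ∈ S
          · rw [if_pos hqS, if_pos (Finset.mem_insert_of_mem hqS)]
          · rw [if_neg hqS, if_neg (by rw [Finset.mem_insert, not_or]; exact ⟨hqp, hqS⟩)]
      · rw [mul_pow, pow_add, pow_mul, h3, one_pow, one_mul, mul_comm (2 ^ m), pow_mul, hδ2,
          one_pow]

/-- finite products: induction on the finite set of odd primes with `b p ≠ 1`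
(`exists_global`), the real place with `exists_hamilton` -/
theorem exists_good {b : ∀ v : Place, H2 (Kv v)} (hb : Adm b) : ∃ γ, Good b γ := by
  classical
  have hfin : {p : Nat.Primes | b (some p) ≠ 1}.Finite :=
    hb.fin.preimage (Option.some_injective _).injOn
  obtain ⟨γ, h1, h2, m, h3⟩ := exists_good_aux (fun p => b (some p)) hb.odd hfin.toFinset
  have h4 : ∀ p : Nat.Primes, p ≠ two → res ℚ (Kv (some p)) γ = b (some p) := by
    intro p hp
    have h5 := h1 p hp
    by_cases hs : p ∈ hfin.toFinset
    · rw [if_pos hs] at h5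
      exact h5
    · rw [if_neg hs] at h5
      have h6 : b (some p) = 1 := by
        by_contra hc
        exact hs (hfin.mem_toFinset.2 hc)
      rw [h6]
      exact h5
  by_cases hr : b none = 1
  · refine ⟨γ, ?_, m, by rw [← map_pow, h3, map_one]⟩
    intro v hv
    match v with
    | none => exact h2.trans hr.symm
    | some p => exact h4 p fun h => hv (congrArg some h)
  · obtain ⟨h, hne, hsq, hq, hall⟩ := exists_hr
    obtain ⟨δ, hδ, hδp, -, hδr⟩ := exists_hamilton
    have hbn : b none = h := (hall (b none)).resolve_left hr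
    have hδn : res ℚ ℝ δ = h := (hall _).resolve_left (H2_real_ne _ hδr)
    refine ⟨γ * δ, ?_, m + 1, ?_⟩
    · intro v hv
      match v with
      | none =>
        have e : res ℚ ℝ (γ * δ) = h := by rw [map_mul, h2, one_mul, hδn]
        exact e.trans hbn.symm
      | some p =>
        have hp : p ≠ two := fun h => hv (congrArg some h)
        have e1 : res ℚ (Kv (some p)) δ = 1 := hδp p hp
        rw [map_mul, h4 p hp, e1, mul_one]
    · have e : (γ * δ) ^ 2 ^ (m + 1) = 1 := by
        rw [mul_pow, pow_succ, pow_mul, h3, one_pow, one_mul, mul_comm, pow_mul, pow_two δ, hδ,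
          one_pow]
      rw [← map_pow, e, map_one]

end BB37
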