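import Pool.Agent.Lib.MP_bb37eb_nt.ODD.HDB
import Pool.Agent.Lib.MP_bb37eb_nt.ODD.HDC

/-! ODD: the statement on the invariant. -/

namespace BB37

/-- strong induction on `p` -/
theorem HData.inv_odd (D : HData) (p : Nat.Primes) (hp : p ≠ two) :
    Inv (single (some p) (D.h (some p))) = D.h (some two) := by
  obtain ⟨n, hn⟩ : ∃ n, n = (p : ℕ) := ⟨_, rfl⟩
  induction n using Nat.strong_induction_on generalizing p with
  | _ n ih =>
    have hodd : (p : ℕ) % 2 = 1 := by
      rcases p.2.eq_two_or_odd with h | h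
      · exact absurd (Subtype.ext h) hp
      · exact h
    have hcases : (p : ℕ) % 4 = 3 ∨ (p : ℕ) % 8 = 5 ∨ (p : ℕ) % 8 = 1 := by omega
    rcases hcases with h | h | h
    · exact D.inv_3 p h
    · exact D.inv_5 p h
    · obtain ⟨q, hq, hqp, h1, h2⟩ := exists_nonresidue p h
      have hne : q ≠ p := by
        rintro rfl
        exact lt_irrefl _ hqp
      have e := D.inv_1 p q h hq hne h1 h2
      rw [Inv_mul _ _ (D.adm (some p)) (D.adm (some q)), ih q (by omega) q hq rfl] at e
      have e2 := D.sq (some two)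
      exact mul_right_cancel (e.trans e2.symm)

theorem ODD_inv' : ∃ (Inv : (∀ v : Place, H2 (Kv v)) → H2 (Kv (some two)))
    (h : ∀ v : Place, H2 (Kv v)),
    (∀ b b', Adm b → Adm b' → Inv (b * b') = Inv b * Inv b') ∧
    (∀ b, Adm b → (Inv b = 1 ↔ Glob b)) ∧
    (∀ v, h v ≠ 1 ∧ h v * h v = 1 ∧ Adm (single v (h v)) ∧
      Inv (single v (h v)) = h (some two)) ∧
    (∀ v x, Adm (single v x) → x * x = 1 → x = 1 ∨ x = h v) ∧
    (∀ x : H2 (Kv (some two)), x * x = 1 → x = 1 ∨ x = h (some two)) := by
  obtain ⟨D⟩ := exists_hdata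
  refine ⟨Inv, D.h, Inv_mul, Inv_eq_one, fun v => ⟨D.ne v, D.sq v, D.adm v, ?_⟩, ?_, D.dy_all⟩
  · match v with
    | none => exact D.inv_real
    | some p =>
      by_cases hp : p = two
      · subst hp
        exact D.inv_two
      · exact D.inv_odd p hp
  · intro v x hx hxx
    match v with
    | none => exact D.re_all x
    | some p =>
      by_cases hp : p = two
      · subst hp
        exact D.dy_all x hxx
      · exact D.odd_all p hp x (InU_of_adm_single p hp x hx) hxx

end BB37
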