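import Pool.Agent.Lib.MP_bb37eb_nt.ODD.Q2

/-! ODD: dyadic quaternion classes. -/

namespace BB37

private theorem natCast_zmod (p : ℕ) :
    PadicInt.toZModPow 3 (p : ℤ_[2]) = ((p : ℕ) : ZMod (2 ^ 3)) := map_natCast _ _

private theorem zmod_cases {p r : ℕ} (hp : p % 8 = r) :
    PadicInt.toZModPow 3 (p : ℤ_[2]) = ((r : ℕ) : ZMod (2 ^ 3)) := by
  rw [natCast_zmod]
  have h : p ≡ r [MOD 2 ^ 3] := by
    have h1 : r < 8 := by omega
    change p % 8 = r % 8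
    omega
  exact (ZMod.natCast_eq_natCast_iff _ _ _).2 h

private theorem norm_odd {p : ℕ} (hp : p % 2 = 1) : ‖(p : ℤ_[2])‖ = 1 := by
  have h : ¬ ‖((p : ℤ) : ℤ_[2])‖ < 1 := by
    rw [PadicInt.norm_intCast_lt_one_iff]
    omega
  have h1 := PadicInt.norm_le_one (p : ℤ_[2])
  have h2 : ((p : ℤ) : ℤ_[2]) = (p : ℤ_[2]) := by norm_cast
  rw [h2] at h
  exact le_antisymm h1 (not_lt.1 h)

theorem square_of_quat_two' {δ : ℚ_[2]} (h0 : δ ≠ 0)
    (hδ : ∃ s u : ℚ_[2], δ = s ^ 2 * u ∧ ‖u‖ = 1)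
    (h1 : IsQuat (-1 : ℚ_[2]) δ 1) (h2 : IsQuat (2 : ℚ_[2]) δ 1) : IsSquare δ := by
  obtain ⟨s, u, hsu, hu⟩ := hδ
  have hs : s ≠ 0 := by
    rintro rfl
    apply h0
    rw [hsu]
    ring
  let U : ℤ_[2] := ⟨u, hu.le⟩
  have hU : ‖U‖ = 1 := hu
  have hUc : (U : ℚ_[2]) = u := rfl
  obtain ⟨x, y, hxy⟩ := (quat_one_iff' (by norm_num) h0 h1).1 rfl
  obtain ⟨z, w, hzw⟩ := (quat_one_iff' (by norm_num) h0 h2).1 rfl
  have e1 : (x / s) ^ 2 + (y / s) ^ 2 = (U : ℚ_[2]) := by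
    rw [hUc, div_pow, div_pow, ← add_div, div_eq_iff (pow_ne_zero 2 hs)]
    linear_combination hxy + hsu
  have e2 : (z / s) ^ 2 - 2 * (w / s) ^ 2 = (U : ℚ_[2]) := by
    rw [hUc, div_pow, div_pow, ← mul_div_assoc, ← sub_div, div_eq_iff (pow_ne_zero 2 hs)]
    linear_combination hzw + hsu
  have m1 := mod8_of_add hU e1
  have m2 := mod8_of_sub_two hU e2
  have h15 : (1 : ZMod (2 ^ 3)) ≠ 5 ∧ (5 : ZMod (2 ^ 3)) ≠ 7 := by decide
  have m : PadicInt.toZModPow 3 U = 1 := by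
    rcases m1 with h | h
    · exact h
    · rcases m2 with h' | h'
      · exact h'
      · exact absurd (h.symm.trans h') h15.2
  obtain ⟨t, ht⟩ := isSquare_two m
  refine ⟨s * t, ?_⟩
  have ht' : u = (t : ℚ_[2]) * t := by
    rw [← hUc, ht, PadicInt.coe_mul]
  rw [hsu, ht']
  ring

/-- `(-1, p)` at 2 for `p ≡ 3` modulo 4 -/
theorem quat_neg_one_ne {p : ℕ} (hp : p % 4 = 3) {x : H2 ℚ_[2]}
    (hx : IsQuat (-1 : ℚ_[2]) (p : ℚ_[2]) x) : x ≠ 1 := by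
  intro h
  have hp0 : (p : ℚ_[2]) ≠ 0 := by
    have : p ≠ 0 := by omega
    exact_mod_cast this
  obtain ⟨a, b, hab⟩ := (quat_one_iff' (by norm_num) hp0 hx).1 h
  have e : a ^ 2 + b ^ 2 = ((p : ℤ_[2]) : ℚ_[2]) := by
    rw [PadicInt.coe_natCast]
    linear_combination hab
  have m := mod8_of_add (norm_odd (by omega)) e
  have hc : p % 8 = 3 ∨ p % 8 = 7 := by omega
  rcases hc with hc | hc
  · rw [zmod_cases hc] at m
    revert m
    decide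
  · rw [zmod_cases hc] at m
    revert m
    decide

/-- `(2, p)` at 2 for `p ≡ 5` modulo 8 -/
theorem quat_two_ne {p : ℕ} (hp : p % 8 = 5) {x : H2 ℚ_[2]}
    (hx : IsQuat (2 : ℚ_[2]) (p : ℚ_[2]) x) : x ≠ 1 := by
  intro h
  have hp0 : (p : ℚ_[2]) ≠ 0 := by
    have : p ≠ 0 := by omega
    exact_mod_cast this
  obtain ⟨a, b, hab⟩ := (quat_one_iff' (by norm_num) hp0 hx).1 h
  have e : a ^ 2 - 2 * b ^ 2 = ((p : ℤ_[2]) : ℚ_[2]) := by
    rw [PadicInt.coe_natCast]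
    linear_combination hab
  have m := mod8_of_sub_two (norm_odd (by omega)) e
  rw [zmod_cases hp] at m
  revert m
  decide

/-- `p ≡ 1` modulo 8 is a dyadic square -/
theorem isSquare_nat_two {p : ℕ} (hp : p % 8 = 1) : IsSquare (p : ℚ_[2]) := by
  obtain ⟨t, ht⟩ := isSquare_two (x := (p : ℤ_[2])) (by
    rw [zmod_cases hp]
    norm_num)
  refine ⟨(t : ℚ_[2]), ?_⟩
  have := congrArg (fun z : ℤ_[2] => (z : ℚ_[2])) ht
  simpa using this

end BB37
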