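import Pool.Agent.Lib.MP_bb37eb_nt.ODD.QP

/-! ODD: norms from unramified quadratic extensions. -/

namespace BB37

section

variable {p : ℕ} [Fact p.Prime]

private theorem qpb_toZMod_eq_zero (x : ℤ_[p]) : PadicInt.toZMod x = 0 ↔ ‖x‖ < 1 := by
  rw [← RingHom.mem_ker, PadicInt.ker_toZMod, IsLocalRing.mem_maximalIdeal, PadicInt.mem_nonunits]

private theorem qpb_ne (x : ℤ_[p]) (h : ‖x‖ = 1) : PadicInt.toZMod x ≠ 0 := by
  rw [Ne, qpb_toZMod_eq_zero, h]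
  exact lt_irrefl _

private theorem qpb_norm (x : ℤ_[p]) (h : PadicInt.toZMod x ≠ 0) : ‖x‖ = 1 := by
  rw [Ne, qpb_toZMod_eq_zero, not_lt] at h
  exact le_antisymm (PadicInt.norm_le_one x) h

private theorem qpb_surj (a : ZMod p) : ∃ x : ℤ_[p], PadicInt.toZMod x = a :=
  ⟨((a.val : ℕ) : ℤ_[p]), by rw [map_natCast, ZMod.natCast_zmod_val]⟩

/-- a quadratic form over the residue field -/
private theorem qpb_zmod (hp : p ≠ 2) {U W : ZMod p} (hU : U ≠ 0) :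
    ∃ a b : ZMod p, a ^ 2 - U * b ^ 2 = W := by
  open Polynomial in
  obtain ⟨a, b, h⟩ := FiniteField.exists_root_sum_quadratic (R := ZMod p)
    (f := X ^ 2 - C W) (g := C (-U) * X ^ 2)
    (by rw [degree_X_pow_sub_C (by norm_num)]; rfl)
    (by rw [degree_C_mul_X_pow 2 (neg_ne_zero.2 hU)]; rfl)
    (by rw [ZMod.card]; exact (Fact.out : p.Prime).mod_two_eq_one_iff_ne_two.2 hp)
  refine ⟨a, b, ?_⟩
  simp only [Polynomial.eval_sub, Polynomial.eval_pow, Polynomial.eval_X, Polynomial.eval_C,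
    Polynomial.eval_mul] at h
  linear_combination h

/-- every unit is a value of `X ^ 2 - u * Y ^ 2`; `FiniteField.exists_root_sum_quadratic` or
`ZMod` counting, then `isSquare_of_near` for `w + u * y ^ 2` or for `- w / u` -/
theorem unit_norm (hp : p ≠ 2) {u w : ℚ_[p]} (hu : ‖u‖ = 1) (hw : ‖w‖ = 1) :
    ∃ x y : ℚ_[p], x ^ 2 - u * y ^ 2 = w := by
  set u' : ℤ_[p] := ⟨u, hu.le⟩ with hu'
  set w' : ℤ_[p] := ⟨w, hw.le⟩ with hw'
  have hu0 : u ≠ 0 := by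
    rintro rfl
    simp at hu
  have hU : PadicInt.toZMod u' ≠ 0 := qpb_ne u' hu
  have hW : PadicInt.toZMod w' ≠ 0 := qpb_ne w' hw
  obtain ⟨a, b, hab⟩ := qpb_zmod (W := PadicInt.toZMod w') hp hU
  obtain ⟨x, hx⟩ := qpb_surj a
  obtain ⟨y, hy⟩ := qpb_surj b
  by_cases ha : a = 0
  · -- `- w / u` is near to `y ^ 2`
    have hb : b ≠ 0 := by
      rintro rfl
      apply hW
      rw [← hab, ha]
      ring
    have hyn : ‖(y : ℚ_[p])‖ = 1 := qpb_norm y (by rw [hy]; exact hb)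
    have h1 : ‖w' + u' * y ^ 2‖ < 1 := by
      rw [← qpb_toZMod_eq_zero, map_add, map_mul, map_pow, hy, ← hab, ha]
      ring
    have h1' : ‖w + u * (y : ℚ_[p]) ^ 2‖ < 1 := by
      have h2 : ‖w' + u' * y ^ 2‖ = ‖w + u * (y : ℚ_[p]) ^ 2‖ := by
        rw [PadicInt.norm_def]
        push_cast
        rfl
      rwa [h2] at h1
    obtain ⟨r, hr⟩ := isSquare_of_near (x := -(w / u)) hp hyn (by
      have e : -(w / u) - (y : ℚ_[p]) ^ 2 = -((w + u * (y : ℚ_[p]) ^ 2) / u) := by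
        field_simp
        ring
      rw [e, norm_neg, norm_div, hu, div_one]
      exact h1')
    refine ⟨0, r, ?_⟩
    have : r ^ 2 = -(w / u) := by rw [hr]; ring
    rw [this]
    field_simp
    ring
  · have hxn : ‖(x : ℚ_[p])‖ = 1 := qpb_norm x (by rw [hx]; exact ha)
    have h1 : ‖w' + u' * y ^ 2 - x ^ 2‖ < 1 := by
      rw [← qpb_toZMod_eq_zero, map_sub, map_add, map_mul, map_pow, map_pow, hy, hx, ← hab]
      ring
    have h1' : ‖w + u * (y : ℚ_[p]) ^ 2 - (x : ℚ_[p]) ^ 2‖ < 1 := by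
      have h2 : ‖w' + u' * y ^ 2 - x ^ 2‖ = ‖w + u * (y : ℚ_[p]) ^ 2 - (x : ℚ_[p]) ^ 2‖ := by
        rw [PadicInt.norm_def]
        push_cast
        rfl
      rwa [h2] at h1
    obtain ⟨r, hr⟩ := isSquare_of_near hp hxn h1'
    refine ⟨r, y, ?_⟩
    have : r ^ 2 = w + u * (y : ℚ_[p]) ^ 2 := by rw [hr]; ring
    rw [this]
    ring

/-- statement of the interface; if `s = 0` nothing is moved; `IsQuat.congr`, `quat_one_iff'`,
`unit_norm` -/
theorem quat_unit' (hp : p ≠ 2) {a δ : ℚ_[p]}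
    (ha : ∃ s u : ℚ_[p], a = s ^ 2 * u ∧ ‖u‖ = 1) (hδ : ∃ s u : ℚ_[p], δ = s ^ 2 * u ∧ ‖u‖ = 1)
    {x : H2 ℚ_[p]} (hx : IsQuat a δ x) : x = 1 := by
  obtain ⟨s, u, hsu, hu⟩ := ha
  obtain ⟨s', u', hsu', hu'⟩ := hδ
  have hu0 : u ≠ 0 := by
    rintro rfl
    simp at hu
  have hu0' : u' ≠ 0 := by
    rintro rfl
    simp at hu'
  by_cases hs : s = 0
  · refine quat_square_left ⟨0, ?_⟩ hx
    rw [hsu, hs]
    ring
  by_cases hs' : s' = 0
  · refine quat_square' ⟨0, ?_⟩ hx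
    rw [hsu', hs']
    ring
  have h2 : IsQuat u u' x := (IsQuat.congr hs hs' hsu hsu').1 hx
  exact (quat_one_iff' hu0 hu0' h2).2 (unit_norm hp hu hu')

end

end BB37
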