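import Pool.Agent.Lib.MP_bb37eb_nt.ODD.QRB
import Pool.Agent.Lib.MP_bb37eb_nt.ODD.Q2B
import Pool.Agent.Lib.MP_bb37eb_nt.ODD.QPB
import Pool.Agent.Lib.MP_bb37eb_nt.L2.Final

/-! ODD: the dyadic and the real class, the Hamilton quaternions. -/

namespace BB37

/-- the dyadic class -/
theorem exists_h2 : ∃ h : H2 ℚ_[2], h ≠ 1 ∧ h * h = 1 ∧ IsQuat (-1 : ℚ_[2]) (-1) h ∧
    ∀ x : H2 ℚ_[2], x * x = 1 → x = 1 ∨ x = h := by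
  obtain ⟨h, hq⟩ := quat_exists' (-1 : ℚ_[2]) (-1)
  refine ⟨h, L2_ne_one h hq, quat_sq' hq, hq, fun x hx => ?_⟩
  rcases L2_two_torsion x hx with h1 | h1
  · exact Or.inl h1
  · exact Or.inr (h1.eq hq)

/-- the real class -/
theorem exists_hr : ∃ h : H2 ℝ, h ≠ 1 ∧ h * h = 1 ∧ IsQuat (-1 : ℝ) (-1) h ∧
    ∀ x : H2 ℝ, x = 1 ∨ x = h := by
  obtain ⟨h, hq⟩ := quat_exists' (-1 : ℝ) (-1)
  refine ⟨h, H2_real_ne h hq, quat_sq' hq, hq, fun x => ?_⟩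
  rcases H2_real x with h1 | h1
  · exact Or.inl h1
  · exact Or.inr (h1.eq hq)

private theorem res_hamilton (K : Type) [Field K] [Algebra ℚ K] {γ : H2 ℚ}
    (hγ : IsQuat (-1 : ℚ) (-1) γ) : IsQuat (-1 : K) (-1) (res ℚ K γ) := by
  have h := quat_res' (K' := K) hγ
  rwa [map_neg, map_one] at h

/-- the global class `(-1,-1)`: trivial at the odd primes (`quat_unit'`) -/
theorem exists_hamilton : ∃ γ : H2 ℚ, γ * γ = 1 ∧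
    (∀ p : Nat.Primes, p ≠ two → res ℚ ℚ_[(p : ℕ)] γ = 1) ∧
    IsQuat (-1 : ℚ_[2]) (-1) (res ℚ ℚ_[2] γ) ∧ IsQuat (-1 : ℝ) (-1) (res ℚ ℝ γ) := by
  obtain ⟨γ, hγ⟩ := quat_exists' (-1 : ℚ) (-1)
  refine ⟨γ, quat_sq' hγ, fun p hp => ?_, res_hamilton ℚ_[2] hγ, res_hamilton ℝ hγ⟩
  have hp2 : (p : ℕ) ≠ 2 := fun h => hp (Subtype.ext h)
  have h1 : ∃ s u : ℚ_[(p : ℕ)], (-1 : ℚ_[(p : ℕ)]) = s ^ 2 * u ∧ ‖u‖ = 1 :=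
    ⟨1, -1, by ring, by rw [norm_neg, norm_one]⟩
  exact quat_unit' hp2 h1 h1 (res_hamilton ℚ_[(p : ℕ)] hγ)

end BB37
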