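import Pool.Agent.Lib.MP_bb37eb_nt.ODD.QBB

/-! ODD: the real place. -/

namespace BB37

theorem quat_real' {a δ : ℝ} (hδ : 0 < δ) {x : H2 ℝ} (hx : IsQuat a δ x) : x = 1 :=
  quat_square' ⟨√δ, (Real.mul_self_sqrt hδ.le).symm⟩ hx

/-- the isomorphism of the closure of the real numbers with the complex numbers -/
private noncomputable def qr_e : Kb ℝ ≃ₐ[ℝ] ℂ :=
  have : IsAlgClosure ℝ ℂ := ⟨inferInstance, Algebra.IsAlgebraic.of_finite ℝ ℂ⟩
  IsAlgClosure.equiv ℝ (Kb ℝ) ℂ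

private theorem qr_decomp (z : Kb ℝ) : z = algebraMap ℝ (Kb ℝ) (qr_e z).re +
    algebraMap ℝ (Kb ℝ) (qr_e z).im * qr_e.symm Complex.I := by
  apply qr_e.injective
  rw [map_add, map_mul, AlgEquiv.commutes, AlgEquiv.commutes, AlgEquiv.apply_symm_apply]
  exact (Complex.re_add_im (qr_e z)).symm

private theorem qr_I_sq : (qr_e.symm Complex.I) ^ 2 = (-1 : Kb ℝ) := by
  rw [← map_pow, Complex.I_sq, map_neg, map_one]

/-- the elements of the closure of the real numbers (`IsAlgClosure.equiv ℝ (Kb ℝ) ℂ`) -/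
theorem exists_I : ∃ i : Kb ℝ, i ^ 2 = -1 ∧
    ∀ z : Kb ℝ, ∃ x y : ℝ, z = algebraMap ℝ (Kb ℝ) x + algebraMap ℝ (Kb ℝ) y * i :=
  ⟨qr_e.symm Complex.I, qr_I_sq, fun z => ⟨_, _, qr_decomp z⟩⟩

/-- `G_R = {1, σ}` -/
theorem GR : ∃ σ : GK ℝ, σ ≠ 1 ∧ σ * σ = 1 ∧ ∀ g : GK ℝ, g = 1 ∨ g = σ := by
  have happ : ∀ z, ((qr_e.trans Complex.conjAe).trans qr_e.symm : GK ℝ) z =
      qr_e.symm (Complex.conjAe (qr_e z)) := fun z => rfl
  have hI : ((qr_e.trans Complex.conjAe).trans qr_e.symm : GK ℝ) (qr_e.symm Complex.I) =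
      -(qr_e.symm Complex.I) := by
    rw [happ, AlgEquiv.apply_symm_apply, ← map_neg]
    congr 1
    simp
  have key : ∀ g h : GK ℝ, g (qr_e.symm Complex.I) = h (qr_e.symm Complex.I) → g = h := by
    intro g h hgh
    refine AlgEquiv.ext fun z => ?_
    rw [qr_decomp z, map_add, map_add, map_mul, map_mul, AlgEquiv.commutes, AlgEquiv.commutes,
      AlgEquiv.commutes, AlgEquiv.commutes, hgh]
  refine ⟨(qr_e.trans Complex.conjAe).trans qr_e.symm, ?_, ?_, ?_⟩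
  · intro h
    have h1 := DFunLike.congr_fun h (qr_e.symm Complex.I)
    rw [hI, AlgEquiv.one_apply, ← map_neg] at h1
    have h2 := congrArg Complex.im (qr_e.symm.injective h1)
    simp at h2
    norm_num at h2
  · apply key
    rw [AlgEquiv.mul_apply, hI, map_neg, hI, neg_neg, AlgEquiv.one_apply]
  · intro g
    have h1 : (g (qr_e.symm Complex.I)) ^ 2 = (qr_e.symm Complex.I) ^ 2 := by
      rw [← map_pow, qr_I_sq, map_neg, map_one]
    rcases sq_eq_sq_iff_eq_or_eq_neg.1 h1 with h | h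
    · left
      apply key
      rw [h, AlgEquiv.one_apply]
    · right
      apply key
      rw [h, hI]

private theorem qr_th {t : ℕ → Kb ℝ} (ht : IsTh t) (k : ℕ) :
    ∃ x : ℝ, t k = algebraMap ℝ (Kb ℝ) x ∧ -2 ≤ x ∧ x ≤ 2 := by
  induction k with
  | zero =>
    refine ⟨0, ?_, by norm_num, by norm_num⟩
    rw [map_zero]
    exact ht.1
  | succ k ih =>
    obtain ⟨x, h1, h2, h3⟩ := ih
    have h4 : 0 ≤ 2 + x := by linarith
    have h5 : (t (k + 1)) ^ 2 = (algebraMap ℝ (Kb ℝ) (√(2 + x))) ^ 2 := by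
      rw [ht.2 k, h1, ← map_pow, Real.sq_sqrt h4, map_add, map_ofNat]
    have h6 : √(2 + x) ≤ 2 := by
      rw [Real.sqrt_le_left (by norm_num)]
      linarith
    have h7 : 0 ≤ √(2 + x) := Real.sqrt_nonneg _
    rcases sq_eq_sq_iff_eq_or_eq_neg.1 h5 with h | h
    · exact ⟨√(2 + x), h, by linarith, h6⟩
    · refine ⟨-√(2 + x), ?_, by linarith, by linarith⟩
      rw [map_neg]
      exact h

/-- the `t k` are real: `t k ∈ [-2, 2]` by induction -/
theorem th_real {t : ℕ → Kb ℝ} (ht : IsTh t) (k : ℕ) (g : GK ℝ) : g (t k) = t k := by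
  obtain ⟨x, h, -, -⟩ := qr_th ht k
  rw [h, AlgEquiv.commutes]

end BB37
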