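import Pool.Agent.Lib.MP_bb37eb_nt.ODD.Up
import Pool.Agent.Lib.MP_bb37eb_nt.ODD.QR

/-! ODD: global classes with prescribed restriction. -/

namespace BB37

/-- a local class at an odd prime extends to a global class trivial outside this prime and 2:
`InU.exists_CU`, `CU_eq_pu`, the global class `(chi_k, p ^ m)`: `res_CU`, `CU_unit`, `CU_fix` with
`th_real`, `CU_torsion` -/
theorem exists_global (p : Nat.Primes) (hp : p ≠ two) (x : H2 ℚ_[(p : ℕ)])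
    (hx : InU ℚ_[(p : ℕ)] x) : ∃ γ : H2 ℚ, res ℚ ℚ_[(p : ℕ)] γ = x ∧
    (∀ q : Nat.Primes, q ≠ two → q ≠ p → res ℚ ℚ_[(q : ℕ)] γ = 1) ∧ res ℚ ℝ γ = 1 ∧
    ∃ m : ℕ, γ ^ 2 ^ m = 1 := by
  obtain ⟨θ, hθ⟩ : ∃ θ : ℕ → Kb ℚ, IsTheta θ := IsTh.exists
  obtain ⟨k, a, rfl⟩ := InU.exists_CU hθ hx
  have hp2 : (p : ℕ) ≠ 2 := fun h => hp (Subtype.ext h)
  obtain ⟨m, hm⟩ := CU_eq_pu hp2 (hθ.emb ℚ_[(p : ℕ)]) k a
  obtain ⟨b, hb⟩ : ∃ b : ℚˣ, (b : ℚ) = ((p : ℕ) : ℚ) :=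
    ⟨Units.mk0 ((p : ℕ) : ℚ) (by exact_mod_cast p.2.ne_zero), rfl⟩
  refine ⟨CU (t := θ) hθ k (b ^ m), ?_, fun q hq hqp => ?_, ?_, k, CU_torsion hθ k _⟩
  · rw [res_CU hθ k, hm, map_zpow, map_zpow]
    congr 2
    apply Units.ext
    simp [pu, hb]
  · rw [res_CU hθ k]
    have hq2 : (q : ℕ) ≠ 2 := fun h => hq (Subtype.ext h)
    refine CU_unit hq2 (hθ.emb ℚ_[(q : ℕ)]) k _ ?_
    rw [map_zpow]
    have h1 : ‖((p : ℕ) : ℚ_[(q : ℕ)])‖ = 1 := by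
      rw [Padic.norm_natCast_eq_one_iff]
      exact (Nat.coprime_primes q.2 p.2).2 fun h => hqp (Subtype.ext h)
    have h2 : ((Units.map (algebraMap ℚ ℚ_[(q : ℕ)]).toMonoidHom b : ℚ_[(q : ℕ)]ˣ) : ℚ_[(q : ℕ)]) =
        ((p : ℕ) : ℚ_[(q : ℕ)]) := by simp [hb]
    rw [Units.val_zpow_eq_zpow_val, norm_zpow, h2, h1, one_zpow]
  · rw [res_CU hθ k]
    exact CU_fix (hθ.emb ℝ) k (fun g => th_real (hθ.emb ℝ) k g) _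

end BB37
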