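import Pool.Agent.Lib.MP_bb37eb_nt.ODD.LocA
import Pool.Agent.Lib.MP_bb37eb_nt.ODD.LocB
import Pool.Agent.Lib.MP_bb37eb_nt.ODD.LocC
import Pool.Agent.Lib.MP_bb37eb_nt.ZA.Final

/-! ODD: injectivity. -/

namespace BB37

theorem kv_res (p : Nat.Primes) (γ : H2 ℚ) :
    res ℚ (Kv (some p)) γ = (res ℚ ℚ_[(p : ℕ)] γ : H2 ℚ_[(p : ℕ)]) := rfl

theorem kv_res_real (γ : H2 ℚ) : res ℚ (Kv none) γ = (res ℚ ℝ γ : H2 ℝ) := rfl

private theorem isQuat_unique {K : Type} [Field K] {a b : K} {x y : H2 K} (hx : IsQuat a b x)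
    (hy : IsQuat a b y) : x = y := by
  obtain ⟨c, hc, rfl⟩ := hx
  obtain ⟨d, hd, rfl⟩ := hy
  have : c = d := Subtype.ext (hc.trans hd.symm)
  rw [this]

private theorem exists_pred {G : Type} [Group G] {x : G} (hx : x ≠ 1) (h : ∃ m : ℕ, x ^ 2 ^ m = 1) :
    ∃ m : ℕ, x ^ 2 ^ m ≠ 1 ∧ x ^ 2 ^ m * x ^ 2 ^ m = 1 := by
  classical
  have h0 : Nat.find h ≠ 0 := by
    intro h0
    have := Nat.find_spec h
    rw [h0] at this
    exact hx (by simpa using this)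
  obtain ⟨k, hk⟩ := Nat.exists_eq_succ_of_ne_zero h0
  refine ⟨k, ?_, ?_⟩
  · intro hc
    have := Nat.find_min' h hc
    omega
  · have := Nat.find_spec h
    rw [hk, Nat.succ_eq_add_one, pow_succ, mul_two, pow_add] at this
    exact this

/-- Injectivity. Proof: let `x = res_2 δ ≠ 1`, `x ^ 2 ^ m = 1` with `m` minimal, `δ' = δ ^ 2 ^ (m-1)`;
`res_2 δ'` is the class of order 2, so `δ' * hamilton` is trivial at all primes, hence trivial
(`Z_H2`), but it is not trivial at the real place. -/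
theorem inj_two (δ : H2 ℚ) (h : ∀ p : Nat.Primes, p ≠ two → res ℚ ℚ_[(p : ℕ)] δ = 1)
    (hr : res ℚ ℝ δ = 1) (h2 : ∃ m : ℕ, res ℚ ℚ_[2] δ ^ 2 ^ m = 1) : res ℚ ℚ_[2] δ = 1 := by
  have hodd := h
  clear h
  by_contra hx
  obtain ⟨m, hm1, hm2⟩ := exists_pred hx h2
  obtain ⟨h, -, hh1, hh2, hh3⟩ := exists_h2
  obtain ⟨γ, -, hγ1, hγ2, hγ3⟩ := exists_hamilton
  obtain ⟨r, hr0, -, hr2, -⟩ := exists_hr
  have e1 : res ℚ ℚ_[2] δ ^ 2 ^ m = h := (hh3 _ hm2).resolve_left hm1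
  have e2 : res ℚ ℚ_[2] γ = h := isQuat_unique hγ2 hh2
  have e3 : res ℚ ℝ γ = r := isQuat_unique hγ3 hr2
  have key : δ ^ 2 ^ m * γ = 1 := by
    apply Z_H2
    intro p
    by_cases hp : p = two
    · subst hp
      have : res ℚ ℚ_[2] (δ ^ 2 ^ m * γ) = 1 := by
        rw [map_mul, map_pow, e1, e2, hh1]
      exact this
    · rw [map_mul, map_pow, hodd p hp, hγ1 p hp, one_pow, one_mul]
  have e4 := congrArg (res ℚ ℝ) key
  rw [map_mul, map_pow, hr, e3, one_pow, one_mul, map_one] at e4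
  exact hr0 e4

end BB37
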