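import Pool.Agent.Lib.MP_bb37eb_nt.ODD.Up
import Pool.Agent.Lib.MP_bb37eb_nt.ODD.QPC

/-! ODD: the class of order two at an odd prime. -/

namespace BB37

/-- the class of order two at an odd prime: at most one in `InU`, it exists and it is `(e, p)` for
every nonsquare unit `e`. `exists_level`, `InU.exists_CU`, `CU_eq_pu`, `two_torsion_CU`,
`hp_ne_one`, `quat_eq_hp`, `InU_CU`. -/
theorem exists_hp (p : Nat.Primes) (hp : p ≠ two) : ∃ h : H2 ℚ_[(p : ℕ)], h ≠ 1 ∧ h * h = 1 ∧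
    InU ℚ_[(p : ℕ)] h ∧ (∀ x, InU ℚ_[(p : ℕ)] x → x * x = 1 → x = 1 ∨ x = h) ∧
    ∀ (e : ℚ_[(p : ℕ)]) (x : H2 ℚ_[(p : ℕ)]), ‖e‖ = 1 → ¬ IsSquare e →
      IsQuat e (p : ℚ_[(p : ℕ)]) x → x = h := by
  have hp2 : (p : ℕ) ≠ 2 := fun h => hp (Subtype.ext h)
  obtain ⟨θ, hθ'⟩ := IsTh.exists (F := Kb ℚ)
  have hθ : IsTheta θ := isTheta_iff.2 hθ'
  obtain ⟨s, h1, h2⟩ := exists_level hp2 (hθ.emb ℚ_[(p : ℕ)])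
  obtain ⟨h3, h4⟩ := hp_ne_one hp2 (hθ.emb ℚ_[(p : ℕ)]) h1 h2
  refine ⟨CU (hθ.emb ℚ_[(p : ℕ)]) (s + 1) (pu (p : ℕ)), h3, h4, InU_CU hθ _ _, ?_, ?_⟩
  · intro x hx hxx
    obtain ⟨k, a, rfl⟩ := InU.exists_CU hθ hx
    obtain ⟨m, hm⟩ := CU_eq_pu hp2 (hθ.emb ℚ_[(p : ℕ)]) k a
    rw [hm] at hxx ⊢
    exact two_torsion_CU hp2 (hθ.emb ℚ_[(p : ℕ)]) h1 h2 k m hxx
  · intro e x he he' hx
    exact quat_eq_hp hp2 (hθ.emb ℚ_[(p : ℕ)]) h1 h2 he he' hx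

end BB37
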