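import Pool.Agent.Lib.MP_bb37eb_nt.ODD.Cup
import Pool.Agent.Lib.MP_bb37eb_nt.ODD.H90R
import Pool.Agent.Lib.MP_bb37eb_nt.ODD.CycA

/-! ODD: trivial classes `(chi_k, a)` and norms. -/

namespace BB37

/-- the normalised cochain -/
private theorem Nrm_aux {K : Type} [Field K] [CharZero K] {t : ℕ → Kb K} (ht : IsTh t) {k : ℕ}
    {a : Kˣ} (h : CU ht k a = 1) :
    ∃ w : GK K → (Kb K)ˣ, (∀ g h : GK K, g • w h * w g = cupf t k a (g, h) * w (g * h)) ∧
      ∀ g : GK K, g (t k) = t k → w g = 1 := by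
  rw [CU_def, cls_eq_one] at h
  obtain ⟨w, hw, h1⟩ := h
  have h1' : ∀ g h : GK K, cupf t k a (g, h) * w (g * h) = g • w h * w g := by
    intro g h
    have e := h1 g h
    rw [eq_div_iff_mul_eq'] at e
    exact e
  have hc : ∀ g h : GK K, g (t k) = t k → h (t k) = t k → cupf t k a (g, h) = 1 := by
    intro g h hg hh
    rw [← chi_eq_zero ht] at hg hh
    simp only [cupf, hg, hh]
    rw [if_neg]
    have := Nat.two_pow_pos k
    omega
  obtain ⟨y, hy⟩ := hilbert90_rel (t k) w hw (fun g h hg hh => by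
    rw [mul_comm, ← h1' g h, hc g h hg hh, one_mul])
  refine ⟨fun g => w g * y / g • y, fun g h => ?_, fun g hg => ?_⟩
  · simp only [smul_div', smul_mul', mul_smul]
    have e := h1' g h
    generalize cupf t k a (g, h) = c at *
    generalize w (g * h) = a1 at *
    generalize g • w h = a2 at *
    generalize g • h • y = a3 at *
    generalize g • y = a4 at *
    have : a2 * a4 / a3 * (w g * y / a4) = (a2 * w g) * y / a3 := by
      simp only [div_eq_mul_inv]
      have e1 : a2 * a4 * a3⁻¹ * (w g * y * a4⁻¹) = a2 * w g * y * a3⁻¹ * (a4 * a4⁻¹) := by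
        ac_rfl
      rw [e1, mul_inv_cancel, mul_one]
    rw [this, ← e]
    simp only [div_eq_mul_inv]
    ac_rfl
  · change w g * y / g • y = 1
    rw [hy g hg, div_mul_cancel, div_self']

/-- `(chi_k, a) = 1` implies that `a` is a norm from `K(t k)`. Proof: `cupf t k a` is the
coboundary of a smooth `w`; on `H = {h | h (t k) = t k}` `w` is a 1-cocycle, by `hilbert90_rel`
`w h = h • y / y`; put `w' g = w g * y / g • y`, same coboundary, `w' = 1` on `H`,
`w' (g h) = w' g` for `h ∈ H` and `h • w' g = w' (h g) = w' (g (g⁻¹ h g)) = w' g`. Put `z = w' σ`.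
Since `chi (σ ^ i) = i * 2 ^ s` for `i < 2 ^ (k - s)`, `w' (σ ^ (i + 1)) = σ ^ i • z * w' (σ ^ i)`
for `i + 1 < 2 ^ (k - s)` and `w' (σ ^ n) = σ ^ (n-1) • z * w' (σ ^ (n-1)) / a`, `σ ^ n ∈ H`. -/
theorem norm_of_CU {K : Type} [Field K] [CharZero K] {t : ℕ → Kb K} (ht : IsTh t) {k s : ℕ}
    (hs : s < k) {σ : GK K} (hσ : chi t k σ = 2 ^ s) {a : Kˣ} (h : CU ht k a = 1) :
    ∃ z : (Kb K)ˣ, (∀ g : GK K, g (t k) = t k → g • z = z) ∧
      bu a = ∏ i ∈ Finset.range (2 ^ (k - s)), σ ^ i • z := by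
  obtain ⟨w, h1, h2⟩ := Nrm_aux ht h
  -- invariance on the right
  have hr : ∀ g h : GK K, h (t k) = t k → w (g * h) = w g := by
    intro g h hh
    have e := h1 g h
    have hh' := (chi_eq_zero ht k h).2 hh
    rw [h2 h hh, smul_one, one_mul] at e
    rw [e]
    simp only [cupf, hh']
    rw [if_neg, one_mul]
    have := chi_lt ht k g
    omega
  have hl : ∀ g h : GK K, g (t k) = t k → w (g * h) = g • w h := by
    intro g h hg
    have e := h1 g h
    have hg' := (chi_eq_zero ht k g).2 hg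
    rw [h2 g hg, mul_one] at e
    rw [e]
    simp only [cupf, hg']
    rw [if_neg, one_mul]
    have := chi_lt ht k h
    omega
  have hinv : ∀ g h : GK K, g (t k) = t k → g • w h = w h := by
    intro g h hg
    have e1 : (h⁻¹ * g * h) (t k) = t k := by
      rw [AlgEquiv.mul_apply, AlgEquiv.mul_apply, fix_conj ht k h g hg]
      exact h.symm_apply_apply (t k)
    rw [← hl g h hg, ← hr h _ e1]
    congr 1
    group
  refine ⟨w σ, fun g hg => hinv g σ hg, ?_⟩
  obtain ⟨n, hn⟩ : ∃ n, n = 2 ^ (k - s) := ⟨_, rfl⟩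
  have hn2 : n * 2 ^ s = 2 ^ k := by
    rw [hn, ← pow_add]
    congr 1
    omega
  have hn0 : 0 < n := by
    rw [hn]
    positivity
  have h2s : 0 < 2 ^ s := by positivity
  have hchi : ∀ i < n, chi t k (σ ^ i) = i * 2 ^ s := by
    intro i hi
    rw [chi_pow ht, hσ]
    apply Nat.mod_eq_of_lt
    rw [← hn2]
    exact Nat.mul_lt_mul_of_pos_right hi h2s
  have hprod : ∀ i < n, w (σ ^ i) = ∏ j ∈ Finset.range i, σ ^ j • w σ := by
    intro i
    induction i with
    | zero =>
      intro _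
      rw [pow_zero, Finset.range_zero, Finset.prod_empty]
      exact h2 1 rfl
    | succ i ih =>
      intro hi
      have e := h1 (σ ^ i) σ
      rw [Finset.prod_range_succ, ← ih (by omega), pow_succ, mul_comm (w (σ ^ i)), e]
      simp only [cupf, hchi i (by omega), hσ]
      rw [if_neg, one_mul]
      rw [← Nat.succ_mul, ← hn2, not_le]
      exact Nat.mul_lt_mul_of_pos_right hi h2s
  obtain ⟨m, rfl⟩ : ∃ m, n = m + 1 := ⟨n - 1, by omega⟩
  rw [← hn, Finset.prod_range_succ, ← hprod m (by omega), mul_comm (w (σ ^ m)), h1 (σ ^ m) σ,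
    ← pow_succ, h2 (σ ^ (m + 1)), mul_one]
  · simp only [cupf, hchi m (by omega), hσ]
    rw [if_pos]
    rw [← Nat.succ_mul, ← hn2]
  · rw [← chi_eq_zero ht, chi_pow ht, hσ, hn2, Nat.mod_self]

end BB37
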