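import Pool.Agent.Lib.MP_bb37eb_nt.ODD.Dk

/-! ODD: the norm on the algebraic closure of the `p`-adic numbers. -/

namespace BB37

/-- the extension of the `p`-adic norm -/
structure PNorm (p : ℕ) [Fact p.Prime] where
  /-- the norm -/
  N : Kb ℚ_[p] → ℝ
  mul : ∀ x y, N (x * y) = N x * N y
  add : ∀ x y, N (x + y) ≤ max (N x) (N y)
  base : ∀ x : ℚ_[p], N (algebraMap _ _ x) = ‖x‖
  nonneg : ∀ x, 0 ≤ N x
  eq_zero : ∀ x, N x = 0 ↔ x = 0
  le_one : ∀ x, N x ≤ 1 ↔ IsIntegral ℤ_[p] x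
  gal : ∀ (g : GK ℚ_[p]) x, N (g x) = N x

namespace PNorm

variable {p : ℕ} [Fact p.Prime] (P : PNorm p)

theorem one : P.N 1 = 1 := by
  have h := P.base 1
  rwa [map_one, norm_one] at h

theorem zero : P.N 0 = 0 := (P.eq_zero 0).2 rfl

theorem neg (x : Kb ℚ_[p]) : P.N (-x) = P.N x := by
  have h := P.base (-1)
  rw [map_neg, map_one, norm_neg, norm_one] at h
  rw [neg_eq_neg_one_mul, P.mul, h, one_mul]

theorem sub (x y : Kb ℚ_[p]) : P.N (x - y) ≤ max (P.N x) (P.N y) := by
  rw [sub_eq_add_neg, ← P.neg y]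
  exact P.add x (-y)

theorem pow (x : Kb ℚ_[p]) (n : ℕ) : P.N (x ^ n) = P.N x ^ n := by
  induction n with
  | zero => rw [pow_zero, pow_zero, P.one]
  | succ n ih => rw [pow_succ, pow_succ, P.mul, ih]

theorem inv (x : Kb ℚ_[p]) : P.N x⁻¹ = (P.N x)⁻¹ := by
  by_cases hx : x = 0
  · rw [hx, inv_zero, P.zero, inv_zero]
  · have h1 : P.N x ≠ 0 := fun h => hx ((P.eq_zero x).1 h)
    have h2 : P.N x⁻¹ * P.N x = 1 := by
      rw [← P.mul, inv_mul_cancel₀ hx, P.one]
    exact eq_inv_of_mul_eq_one_left h2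

/-- the ultrametric equality -/
theorem add_eq {x y : Kb ℚ_[p]} (h : P.N x ≠ P.N y) : P.N (x + y) = max (P.N x) (P.N y) := by
  rcases lt_or_gt_of_ne h with h | h
  · rw [max_eq_right h.le]
    apply le_antisymm
    · exact (P.add x y).trans (max_le h.le le_rfl)
    · have h1 : P.N y ≤ max (P.N (x + y)) (P.N x) := by
        have h2 := P.sub (x + y) x
        rwa [add_sub_cancel_left] at h2
      rcases le_max_iff.1 h1 with h3 | h3
      · exact h3
      · exact absurd h3 (not_le.2 h)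
  · rw [max_eq_left h.le]
    apply le_antisymm
    · exact (P.add x y).trans (max_le le_rfl h.le)
    · have h1 : P.N x ≤ max (P.N (x + y)) (P.N y) := by
        have h2 := P.sub (x + y) y
        rwa [add_sub_cancel_right] at h2
      rcases le_max_iff.1 h1 with h3 | h3
      · exact h3
      · exact absurd h3 (not_le.2 h)

/-- if `N (x - y) < N x` then `N y = N x` -/
theorem eq_of_sub_lt {x y : Kb ℚ_[p]} (h : P.N (x - y) < P.N x) : P.N y = P.N x := by
  have h1 := P.add_eq (x := x) (y := -(x - y)) (by rw [P.neg]; exact h.ne')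
  rw [P.neg, max_eq_left h.le] at h1
  have h2 : x + -(x - y) = y := by ring
  rwa [h2] at h1

theorem two (hp : p ≠ 2) : P.N 2 = 1 := by
  have h := P.base 2
  rw [map_ofNat] at h
  rw [h]
  have h1 : ‖((2 : ℕ) : ℚ_[p])‖ = 1 := by
    rw [Padic.norm_natCast_eq_one_iff]
    exact (Nat.coprime_primes Fact.out Nat.prime_two).2 hp
  exact_mod_cast h1

theorem prod {ι : Type} (s : Finset ι) (f : ι → Kb ℚ_[p]) :
    P.N (∏ i ∈ s, f i) = ∏ i ∈ s, P.N (f i) := by
  classical
  induction s using Finset.induction_on with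
  | empty => rw [Finset.prod_empty, Finset.prod_empty, P.one]
  | insert a s ha ih => rw [Finset.prod_insert ha, Finset.prod_insert ha, P.mul, ih]

end PNorm

end BB37
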