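import Pool.Agent.Lib.MP_bb37eb_nt.ODD.PN

/-! ODD: square roots and the norm. -/

namespace BB37

namespace PNorm

variable {p : ℕ} [Fact p.Prime] (P : PNorm p)

private theorem sqrt_fixed_aux (hp : p ≠ 2) {r x : Kb ℚ_[p]} {g : GK ℚ_[p]}
    (h : P.N (r - x) < P.N x) (hr : g (r ^ 2) = r ^ 2) (hx : g x = x) : g r = r := by
  have h1 : (g r - r) * (g r + r) = 0 := by
    have : (g r) ^ 2 = r ^ 2 := by rw [← map_pow, hr]
    linear_combination this
  rcases mul_eq_zero.1 h1 with h2 | h2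
  · exact sub_eq_zero.1 h2
  · exfalso
    have h3 : g r = -r := eq_neg_of_add_eq_zero_left h2
    have h4 : P.N (-r - x) = P.N (r - x) := by
      have := P.gal g (r - x)
      rw [map_sub, hx, h3] at this
      exact this
    have h5 : P.N ((-r - x) + (r - x)) ≤ max (P.N (-r - x)) (P.N (r - x)) := P.add _ _
    rw [h4, max_self] at h5
    have h6 : (-r - x) + (r - x) = -(2 * x) := by ring
    rw [h6, P.neg, P.mul, P.two hp, one_mul] at h5
    exact absurd h (not_lt.2 h5)

/-- Krasner for square roots at odd primes: `r` is fixed if `r ^ 2` and `x` are fixed and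
`r ^ 2` is close to `x ^ 2`. Proof: `(r - x) * (r + x)` is small so, up to changing the sign of `x`,
`N (r - x) < N x`; `g r = r` or `g r = - r`; in the second case `N (- r - x) = N (g (r - x)) < N x`
and `N (2 * x) < N x`. -/
theorem sqrt_fixed (hp : p ≠ 2) {r x : Kb ℚ_[p]} {g : GK ℚ_[p]}
    (h : P.N (r ^ 2 - x ^ 2) < P.N x ^ 2) (hr : g (r ^ 2) = r ^ 2) (hx : g x = x) : g r = r := by
  have h1 : r ^ 2 - x ^ 2 = (r - x) * (r + x) := by ring
  rw [h1, P.mul] at h
  by_cases h2 : P.N (r - x) < P.N x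
  · exact sqrt_fixed_aux P hp h2 hr hx
  · have h3 : P.N (r + x) < P.N x := by
      by_contra h4
      have h2' := not_lt.1 h2
      have h4' := not_lt.1 h4
      have h5 : P.N x ^ 2 ≤ P.N (r - x) * P.N (r + x) := by
        rw [sq]
        exact mul_le_mul h2' h4' (P.nonneg _) (P.nonneg _)
      exact absurd h (not_lt.2 h5)
    refine sqrt_fixed_aux P hp (x := -x) ?_ hr (by rw [map_neg, hx])
    rw [P.neg, sub_neg_eq_add]
    exact h3

private theorem th_aux2 {t : ℕ → Kb ℚ_[p]} (ht : IsTh t) (k : ℕ)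
    (h : P.N (t k + 2) = 1) : P.N (t (k + 1)) = 1 := by
  have h1 : P.N (t (k + 1)) ^ 2 = 1 := by
    rw [← P.pow, ht.2 k, add_comm, h]
  have h2 := P.nonneg (t (k + 1))
  nlinarith [h1, h2]

/-- `N (t k - 2) = 1 = N (t k + 2)`: induction with
`(t (k+1) - 2) * (t (k+1) + 2) = t k - 2`, both factors integral -/
theorem th_aux (hp : p ≠ 2) {t : ℕ → Kb ℚ_[p]} (ht : IsTh t) (k : ℕ) :
    P.N (t k) ≤ 1 ∧ P.N (t k - 2) = 1 ∧ P.N (t k + 2) = 1 := by
  induction k with
  | zero =>
    rw [ht.1, P.zero]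
    refine ⟨zero_le_one, ?_, ?_⟩
    · rw [zero_sub, P.neg, P.two hp]
    · rw [zero_add, P.two hp]
  | succ k ih =>
    have h1 := th_aux2 P ht k ih.2.2
    have h2 : P.N (t (k + 1) - 2) ≤ 1 := by
      have := P.sub (t (k + 1)) 2
      rwa [h1, P.two hp, max_self] at this
    have h3 : P.N (t (k + 1) + 2) ≤ 1 := by
      have := P.add (t (k + 1)) 2
      rwa [h1, P.two hp, max_self] at this
    have h4 : P.N (t (k + 1) - 2) * P.N (t (k + 1) + 2) = 1 := by
      rw [← P.mul, ← ih.2.1]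
      congr 1
      linear_combination ht.2 k
    have h5 := P.nonneg (t (k + 1) - 2)
    have h6 := P.nonneg (t (k + 1) + 2)
    refine ⟨h1.le, ?_, ?_⟩
    · nlinarith
    · nlinarith

theorem th_succ (hp : p ≠ 2) {t : ℕ → Kb ℚ_[p]} (ht : IsTh t) (k : ℕ) :
    P.N (t (k + 1)) = 1 :=
  th_aux2 P ht k (th_aux P hp ht k).2.2

end PNorm

end BB37
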