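import Pool.Agent.Lib.MP_bb37eb_nt.ODD.QBB

/-! ODD: quaternion classes over the dyadic numbers. -/

namespace BB37


private theorem hensel_sq2 (x : ℤ_[2])
    (h : ‖x - 1‖ < ‖(2 : ℤ_[2])‖ ^ 2) : IsSquare x := by
  let F : Polynomial ℤ_[2] := Polynomial.X ^ 2 - Polynomial.C x
  have h1 : Polynomial.aeval (1 : ℤ_[2]) F = 1 - x := by simp [F]
  have h2 : Polynomial.aeval (1 : ℤ_[2]) (Polynomial.derivative F) = 2 := by
    simp [F]
    norm_num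
  obtain ⟨z, hz, -⟩ := hensels_lemma (F := F) (a := (1 : ℤ_[2]))
    (by rw [h1, h2, norm_sub_rev]; exact h)
  refine ⟨z, ?_⟩
  have h3 : z ^ 2 - x = 0 := by simpa [F] using hz
  linear_combination -h3

private theorem norm_two_eq : ‖(2 : ℤ_[2])‖ = 2⁻¹ := by
  have h := PadicInt.norm_p (p := 2)
  exact_mod_cast h

/-- Hensel's lemma: a 2-adic integer congruent to 1 modulo 8 is a square
(`hensels_lemma` for `X ^ 2 - C x` at `1`: `‖x - 1‖ < ‖2‖ ^ 2`) -/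
theorem isSquare_two {x : ℤ_[2]} (h : PadicInt.toZModPow 3 x = 1) : IsSquare x := by
  apply hensel_sq2
  have h1 : x - 1 ∈ RingHom.ker (PadicInt.toZModPow 3 : ℤ_[2] →+* ZMod (2 ^ 3)) := by
    rw [RingHom.mem_ker, map_sub, h, map_one, sub_self]
  rw [PadicInt.ker_toZModPow] at h1
  have h2 := (PadicInt.norm_le_pow_iff_mem_span_pow (x - 1) 3).2 h1
  refine lt_of_le_of_lt h2 ?_
  rw [norm_two_eq]
  norm_num

private theorem norm_ge_two {y : ℚ_[2]} (hy : 1 < ‖y‖) : 2 ≤ ‖y‖ := by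
  have hy0 : y ≠ 0 := by
    rintro rfl
    rw [norm_zero] at hy
    linarith
  rw [Padic.norm_eq_zpow_neg_valuation hy0] at hy ⊢
  have h1 : (0 : ℤ) < -y.valuation := by
    by_contra h
    push Not at h
    have h2 : (((2 : ℕ) : ℝ)) ^ (-y.valuation) ≤ (((2 : ℕ) : ℝ)) ^ (0 : ℤ) :=
      zpow_le_zpow_right₀ (by norm_num) h
    rw [zpow_zero] at h2
    linarith
  have h3 : (((2 : ℕ) : ℝ)) ^ (1 : ℤ) ≤ (((2 : ℕ) : ℝ)) ^ (-y.valuation) :=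
    zpow_le_zpow_right₀ (by norm_num) (by omega)
  rw [zpow_one] at h3
  exact_mod_cast h3

/-- there is no `z` with `‖z ^ 2 - c‖ ≤ 1 / 4` if `c` is not a square modulo 4 -/
private theorem no_root {c : ℤ_[2]} (hc : ∀ w : ZMod (2 ^ 2), w ^ 2 - PadicInt.toZModPow 2 c ≠ 0)
    (z : ℚ_[2]) (hz : ‖z ^ 2 - (c : ℚ_[2])‖ ≤ (4 : ℝ)⁻¹) : False := by
  have hz1 : ‖z‖ ≤ 1 := by
    by_contra h
    push Not at h
    have h1 : ‖z ^ 2‖ ≤ 1 := by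
      have e : z ^ 2 = (z ^ 2 - (c : ℚ_[2])) + c := by ring
      rw [e]
      refine (Padic.nonarchimedean _ _).trans (max_le (hz.trans (by norm_num)) ?_)
      exact PadicInt.norm_le_one c
    rw [norm_pow] at h1
    nlinarith [norm_nonneg z]
  let Z : ℤ_[2] := ⟨z, hz1⟩
  have h1 : ‖Z ^ 2 - c‖ ≤ ((2 : ℕ) : ℝ) ^ (-((2 : ℕ) : ℤ)) := by
    have e : ((Z ^ 2 - c : ℤ_[2]) : ℚ_[2]) = z ^ 2 - (c : ℚ_[2]) := by
      rw [PadicInt.coe_sub, PadicInt.coe_pow]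
    rw [PadicInt.norm_def, e]
    refine hz.trans (le_of_eq ?_)
    norm_num
  have h2 := (PadicInt.norm_le_pow_iff_mem_span_pow (Z ^ 2 - c) 2).1 h1
  have h3 : Z ^ 2 - c ∈ RingHom.ker (PadicInt.toZModPow 2 : ℤ_[2] →+* ZMod (2 ^ 2)) := by
    rw [PadicInt.ker_toZModPow]
    exact h2
  rw [RingHom.mem_ker, map_sub, map_pow] at h3
  exact hc _ h3

private theorem div_bound {q y : ℚ_[2]} (hq : ‖q‖ ≤ 1) (hy : 1 < ‖y‖) :
    ‖q / y ^ 2‖ ≤ (4 : ℝ)⁻¹ := by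
  have h2 := norm_ge_two hy
  rw [norm_div, norm_pow, div_le_iff₀ (by positivity)]
  nlinarith

private theorem int_of_add' {x y : ℚ_[2]} (h : ‖x ^ 2 + y ^ 2‖ ≤ 1) : ‖y‖ ≤ 1 := by
  by_contra hy
  push Not at hy
  have hy0 : y ≠ 0 := by
    rintro rfl
    rw [norm_zero] at hy
    linarith
  refine no_root (c := -1) ?_ (x / y) ?_
  · rw [map_neg, map_one]
    decide
  · have e : (x / y) ^ 2 - ((-1 : ℤ_[2]) : ℚ_[2]) = (x ^ 2 + y ^ 2) / y ^ 2 := by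
      rw [PadicInt.coe_neg, PadicInt.coe_one]
      field_simp
      ring
    rw [e]
    exact div_bound h hy

/-- if `u` is a unit and `x ^ 2 + y ^ 2 = u` then `x`, `y` are integral. Proof: otherwise multiply
by the smallest power of 4: `X ^ 2 + Y ^ 2 = 0` in `ZMod 4` with `X` or `Y` odd. -/
theorem int_of_add {x y : ℚ_[2]} (h : ‖x ^ 2 + y ^ 2‖ ≤ 1) : ‖x‖ ≤ 1 ∧ ‖y‖ ≤ 1 :=
  ⟨int_of_add' (x := y) (by rwa [add_comm]), int_of_add' h⟩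

/-- same for `x ^ 2 - 2 * y ^ 2` -/
theorem int_of_sub_two {x y : ℚ_[2]} (h : ‖x ^ 2 - 2 * y ^ 2‖ ≤ 1) : ‖x‖ ≤ 1 ∧ ‖y‖ ≤ 1 := by
  have hy1 : ‖y‖ ≤ 1 := by
    by_contra hy
    push Not at hy
    have hy0 : y ≠ 0 := by
      rintro rfl
      rw [norm_zero] at hy
      linarith
    refine no_root (c := 2) ?_ (x / y) ?_
    · rw [map_ofNat]
      decide
    · have e : (x / y) ^ 2 - ((2 : ℤ_[2]) : ℚ_[2]) = (x ^ 2 - 2 * y ^ 2) / y ^ 2 := by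
        have : ((2 : ℤ_[2]) : ℚ_[2]) = 2 := by norm_cast
        rw [this]
        field_simp
      rw [e]
      exact div_bound h hy
  refine ⟨?_, hy1⟩
  have h2 : ‖x ^ 2‖ ≤ 1 := by
    have e : x ^ 2 = (x ^ 2 - 2 * y ^ 2) + 2 * y ^ 2 := by ring
    rw [e]
    refine (Padic.nonarchimedean _ _).trans (max_le h ?_)
    rw [norm_mul, norm_pow]
    have h3 : ‖(2 : ℚ_[2])‖ ≤ 1 := by
      have := PadicInt.norm_le_one (2 : ℤ_[2])
      rw [PadicInt.norm_def] at this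
      exact_mod_cast this
    have h4 : ‖y‖ ^ 2 ≤ 1 := by nlinarith [norm_nonneg y]
    nlinarith [norm_nonneg (2 : ℚ_[2]), sq_nonneg ‖y‖]
  rw [norm_pow] at h2
  nlinarith [norm_nonneg x]

private theorem unit_inv {u : ℤ_[2]} (hu : ‖u‖ = 1) : ∃ v : ℤ_[2], u * v = 1 := by
  obtain ⟨w, rfl⟩ := PadicInt.isUnit_iff.2 hu
  exact ⟨↑w⁻¹, by simp⟩

/-- values in `ZMod 8`, by `decide` -/
theorem mod8_of_add {u : ℤ_[2]} (hu : ‖u‖ = 1) {x y : ℚ_[2]} (h : x ^ 2 + y ^ 2 = u) :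
    PadicInt.toZModPow 3 u = 1 ∨ PadicInt.toZModPow 3 u = 5 := by
  have hi := int_of_add (x := x) (y := y) (by rw [h]; exact PadicInt.norm_le_one u)
  let X : ℤ_[2] := ⟨x, hi.1⟩
  let Y : ℤ_[2] := ⟨y, hi.2⟩
  obtain ⟨v, hv⟩ := unit_inv hu
  have e : u = X ^ 2 + Y ^ 2 := by
    apply Subtype.ext
    rw [← h, PadicInt.coe_add, PadicInt.coe_pow, PadicInt.coe_pow]
  have key : ∀ a b c : ZMod (2 ^ 3), (a ^ 2 + b ^ 2) * c = 1 → a ^ 2 + b ^ 2 = 1 ∨ a ^ 2 + b ^ 2 = 5 := by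
    decide
  have h1 := congrArg (PadicInt.toZModPow 3 : ℤ_[2] →+* ZMod (2 ^ 3)) hv
  rw [e] at h1 ⊢
  rw [map_mul, map_add, map_pow, map_pow, map_one] at h1
  rw [map_add, map_pow, map_pow]
  exact key _ _ _ h1

theorem mod8_of_sub_two {u : ℤ_[2]} (hu : ‖u‖ = 1) {x y : ℚ_[2]} (h : x ^ 2 - 2 * y ^ 2 = u) :
    PadicInt.toZModPow 3 u = 1 ∨ PadicInt.toZModPow 3 u = 7 := by
  have hi := int_of_sub_two (x := x) (y := y) (by rw [h]; exact PadicInt.norm_le_one u)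
  let X : ℤ_[2] := ⟨x, hi.1⟩
  let Y : ℤ_[2] := ⟨y, hi.2⟩
  obtain ⟨v, hv⟩ := unit_inv hu
  have e : u = X ^ 2 - 2 * Y ^ 2 := by
    apply Subtype.ext
    rw [← h, PadicInt.coe_sub, PadicInt.coe_mul, PadicInt.coe_pow, PadicInt.coe_pow]
    have : ((2 : ℤ_[2]) : ℚ_[2]) = 2 := by norm_cast
    rw [this]
  have key : ∀ a b c : ZMod (2 ^ 3), (a ^ 2 - 2 * b ^ 2) * c = 1 →
      a ^ 2 - 2 * b ^ 2 = 1 ∨ a ^ 2 - 2 * b ^ 2 = 7 := by
    decide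
  have h1 := congrArg (PadicInt.toZModPow 3 : ℤ_[2] →+* ZMod (2 ^ 3)) hv
  rw [e] at h1 ⊢
  rw [map_mul, map_sub, map_mul, map_pow, map_pow, map_one, map_ofNat] at h1
  rw [map_sub, map_mul, map_pow, map_pow, map_ofNat]
  exact key _ _ _ h1

end BB37
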