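import Pool.Agent.Lib.MP_bb37eb_nt.ODD.H90

/-! ODD: quaternion cocycles. -/

namespace BB37

/-- `g` moves the square roots of `a` -/
def mv {K : Type} [Field K] (a : K) (g : GK K) : Prop :=
  ∃ r : Kb K, r ^ 2 = algebraMap K (Kb K) a ∧ g r ≠ r

section

variable {K : Type} [Field K]

/-- the roots are `r` and `- r` -/
theorem mv_iff {a : K} {r : Kb K} (hr : r ^ 2 = algebraMap K (Kb K) a) (g : GK K) :
    mv a g ↔ g r ≠ r := by
  constructor
  · rintro ⟨r', hr', hg⟩ h
    have h1 : r' ^ 2 = r ^ 2 := by rw [hr', hr]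
    rcases sq_eq_sq_iff_eq_or_eq_neg.1 h1 with h2 | h2
    · rw [h2] at hg
      exact hg h
    · rw [h2, map_neg, h] at hg
      exact hg rfl
  · intro h
    exact ⟨r, hr, h⟩

theorem exists_root (a : K) : ∃ r : Kb K, r ^ 2 = algebraMap K (Kb K) a := by
  exact IsAlgClosed.exists_pow_nat_eq (algebraMap K (Kb K) a) (n := 2) (by norm_num)

theorem apply_root {a : K} {r : Kb K} (hr : r ^ 2 = algebraMap K (Kb K) a) (g : GK K) :
    g r = r ∨ g r = -r := by
  apply sq_eq_sq_iff_eq_or_eq_neg.1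
  rw [← map_pow, hr, AlgEquiv.commutes]

/-- true in characteristic two as well, where nothing is moved -/
theorem mv_mul (a : K) (g h : GK K) : mv a (g * h) ↔ ¬(mv a g ↔ mv a h) := by
  obtain ⟨r, hr⟩ := exists_root a
  rw [mv_iff hr, mv_iff hr, mv_iff hr, AlgEquiv.mul_apply]
  by_cases hh : h r = r
  · rw [hh]
    simp
  · have h1 : h r = -r := (apply_root hr h).resolve_left hh
    have h2 : -r ≠ r := by rw [← h1]; exact hh
    rw [h1, map_neg]
    rcases apply_root hr g with h3 | h3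
    · rw [h3]
      simp [h2]
    · rw [h3]
      simp [h2]

theorem mv_congr {a a' : K} {s : K} (hs : s ≠ 0) (h : a = s ^ 2 * a') (g : GK K) :
    mv a g ↔ mv a' g := by
  obtain ⟨r, hr⟩ := exists_root a'
  have h1 : (algebraMap K (Kb K) s * r) ^ 2 = algebraMap K (Kb K) a := by
    rw [mul_pow, hr, h, map_mul, map_pow]
  rw [mv_iff hr, mv_iff h1, map_mul, AlgEquiv.commutes]
  have h2 : algebraMap K (Kb K) s ≠ 0 := by
    intro h3
    exact hs ((map_eq_zero _).1 h3)
  constructor
  · intro h3 h4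
    exact h3 (by rw [h4])
  · intro h3 h4
    exact h3 (mul_left_cancel₀ h2 h4)

theorem mv_of_isSquare {a : K} (ha : IsSquare a) (g : GK K) : ¬ mv a g := by
  obtain ⟨s, rfl⟩ := ha
  have h1 : (algebraMap K (Kb K) s) ^ 2 = algebraMap K (Kb K) (s * s) := by
    rw [map_mul, pow_two]
  rw [mv_iff h1]
  intro h
  exact h (AlgEquiv.commutes g s)

open Classical in
theorem qfun_def (a b : K) (g h : GK K) :
    qfun a b (g, h) = if mv a g ∧ mv b h then -1 else 1 := by
  rfl

theorem qfun_mem (a b : K) : qfun a b ∈ Z2 K := by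
  classical
  obtain ⟨r, hr⟩ := exists_root a
  obtain ⟨s, hs⟩ := exists_root b
  refine ⟨?_, ?_⟩
  · obtain ⟨M, hM, hsub⟩ := exists_finite_sub (K := K) {r, s} (Set.toFinite _)
    refine ⟨M, hM, ?_⟩
    intro g g' h h' hg hh
    have h1 : g r = g' r := hg r (hsub (by simp))
    have h2 : h s = h' s := hh s (hsub (by simp))
    have h3 : mv a g ↔ mv a g' := by rw [mv_iff hr, mv_iff hr, h1]
    have h4 : mv b h ↔ mv b h' := by rw [mv_iff hs, mv_iff hs, h2]
    rw [qfun_def, qfun_def]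
    simp only [h3, h4]
  · intro g h j
    have hneg : ∀ g : GK K, g • (-1 : (Kb K)ˣ) = -1 := by
      intro g
      apply Units.ext
      rw [AlgEquiv.smul_units_def]
      simp
    simp only [qfun_def, mv_mul]
    by_cases h1 : mv a g <;> by_cases h2 : mv a h <;> by_cases h3 : mv b h <;>
      by_cases h4 : mv b j <;> simp [h1, h2, h3, h4, hneg]

theorem quat_exists' (a b : K) : ∃ x : H2 K, IsQuat a b x := ⟨_, ⟨qfun a b, qfun_mem a b⟩, rfl, rfl⟩

end

end BB37
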