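import Pool.Agent.Lib.MP_bb37eb_nt.ODD.QA

/-! ODD: formal properties of quaternion classes. -/

namespace BB37

section

variable {K : Type} [Field K]

theorem IsQuat.eq {a b : K} {x y : H2 K} (hx : IsQuat a b x) (hy : IsQuat a b y) : x = y := by
  obtain ⟨c, h1, rfl⟩ := hx
  obtain ⟨d, h2, rfl⟩ := hy
  have h : c = d := Subtype.ext (h1.trans h2.symm)
  rw [h]

private theorem qab_one {a b : K} (h : ∀ g h : GK K, ¬ (mv a g ∧ mv b h)) {x : H2 K}
    (hx : IsQuat a b x) : x = 1 := by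
  obtain ⟨c, h1, rfl⟩ := hx
  have h2 : c = 1 := by
    apply Subtype.ext
    rw [h1]
    funext p
    obtain ⟨g, k⟩ := p
    rw [qfun_def, if_neg (h g k)]
    rfl
  rw [h2]
  exact cls_one

theorem quat_sq' {a b : K} {x : H2 K} (hx : IsQuat a b x) : x * x = 1 := by
  obtain ⟨c, h1, rfl⟩ := hx
  rw [← cls_mul]
  have h2 : c * c = 1 := by
    apply Subtype.ext
    have h3 : (c * c).1 = c.1 * c.1 := rfl
    rw [h3, h1]
    funext p
    obtain ⟨g, k⟩ := p
    rw [Pi.mul_apply, qfun_def]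
    split_ifs
    · rw [neg_mul_neg, one_mul]
      rfl
    · rw [one_mul]
      rfl
  rw [h2]
  exact cls_one

theorem quat_square' {a b : K} (hb : IsSquare b) {x : H2 K} (hx : IsQuat a b x) : x = 1 :=
  qab_one (fun _ h hh => mv_of_isSquare hb h hh.2) hx

theorem quat_square_left {a b : K} (ha : IsSquare a) {x : H2 K} (hx : IsQuat a b x) : x = 1 :=
  qab_one (fun g _ hh => mv_of_isSquare ha g hh.1) hx

/-- only the classes modulo squares matter -/
theorem IsQuat.congr {a b a' b' s s' : K} (hs : s ≠ 0) (hs' : s' ≠ 0) (h : a = s ^ 2 * a')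
    (h' : b = s' ^ 2 * b') {x : H2 K} : IsQuat a b x ↔ IsQuat a' b' x := by
  have e : qfun a b = qfun a' b' := by
    funext p
    obtain ⟨g, k⟩ := p
    rw [qfun_def, qfun_def]
    have e1 := mv_congr hs h g
    have e2 := mv_congr hs' h' k
    by_cases p1 : mv a g ∧ mv b k
    · rw [if_pos p1, if_pos ⟨e1.1 p1.1, e2.1 p1.2⟩]
    · rw [if_neg p1, if_neg (fun h => p1 ⟨e1.2 h.1, e2.2 h.2⟩)]
  unfold IsQuat
  rw [e]

/-- symmetry: the quotient of the two cocycles is the coboundary of `g ↦ (-1)^(chi_a g chi_b g)` -/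
theorem IsQuat.symm {a b : K} {x : H2 K} (hx : IsQuat a b x) : IsQuat b a x := by
  classical
  obtain ⟨c, h1, rfl⟩ := hx
  refine ⟨⟨qfun b a, qfun_mem b a⟩, rfl, ?_⟩
  rw [cls_eq_cls]
  obtain ⟨r, hr⟩ := exists_root a
  obtain ⟨r', hr'⟩ := exists_root b
  obtain ⟨M, hM, hs⟩ := exists_finite_sub (K := K) {r, r'} (by simp)
  refine ⟨fun g => if mv a g ∧ mv b g then -1 else 1, ⟨M, hM, ?_⟩, ?_⟩
  · intro g k hg
    have e1 : mv a g ↔ mv a k := by
      rw [mv_iff hr, mv_iff hr, hg r (hs (by simp))]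
    have e2 : mv b g ↔ mv b k := by
      rw [mv_iff hr', mv_iff hr', hg r' (hs (by simp))]
    exact if_congr (and_congr e1 e2) rfl rfl
  · intro g k
    rw [Pi.div_apply]
    rw [h1]
    simp only
    rw [qfun_def, qfun_def]
    have e1 := mv_mul a g k
    have e2 := mv_mul b g k
    by_cases p1 : mv a g <;> by_cases p2 : mv a k <;> by_cases p3 : mv b g <;>
      by_cases p4 : mv b k <;>
      simp [e1, e2, p1, p2, p3, p4]

end

/-- naturality -/
theorem quat_res' {K K' : Type} [Field K] [Field K'] [Algebra K K'] {a b : K} {x : H2 K}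
    (hx : IsQuat a b x) : IsQuat (algebraMap K K' a) (algebraMap K K' b) (res K K' x) := by
  obtain ⟨c, h1, rfl⟩ := hx
  have key : ∀ (a : K) (g : GK K'), mv a (resG K K' g) ↔ mv (algebraMap K K' a) g := by
    intro a g
    obtain ⟨r, hr⟩ := exists_root a
    have hr' : (emb K K' r) ^ 2 = algebraMap K' (Kb K') (algebraMap K K' a) := by
      rw [← map_pow, hr, ← IsScalarTower.algebraMap_apply K K' (Kb K')]
      exact (emb K K').commutes a
    rw [mv_iff hr, mv_iff hr', ← emb_resG]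
    exact not_congr ⟨fun h => by rw [h], fun h => (emb K K').toRingHom.injective h⟩
  refine ⟨resZ K K' c, ?_, (res_cls K K' c).symm⟩
  funext p
  obtain ⟨g, k⟩ := p
  have e : (resZ K K' c).1 (g, k) = embU K K' (c.1 (resG K K' g, resG K K' k)) := rfl
  rw [e, h1, qfun_def, qfun_def]
  have e1 := key a g
  have e2 := key b k
  by_cases p1 : mv a (resG K K' g) <;> by_cases p2 : mv b (resG K K' k)
  · rw [if_pos ⟨p1, p2⟩, if_pos ⟨e1.1 p1, e2.1 p2⟩]
    apply Units.ext
    simp [embU]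
  · rw [if_neg (fun h => p2 h.2), if_neg (fun h => p2 (e2.2 h.2)), map_one]
  · rw [if_neg (fun h => p1 h.1), if_neg (fun h => p1 (e1.2 h.1)), map_one]
  · rw [if_neg (fun h => p1 h.1), if_neg (fun h => p1 (e1.2 h.1)), map_one]

end BB37
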