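import Pool.Agent.Lib.MP_bb37eb_nt.ODD.QAB

/-! ODD: quaternion cocycles and norms. -/

namespace BB37

open Classical in
/-- the cochain with value `b` if both arguments move the roots of `a` -/
noncomputable def kfun {K : Type} [Field K] (a : K) (b : Kˣ) : GK K × GK K → (Kb K)ˣ := fun p =>
  if mv a p.1 ∧ mv a p.2 then Units.map (algebraMap K (Kb K)).toMonoidHom b else 1

section

variable {K : Type} [Field K] [CharZero K]

/-- `(a, b)` is the class of `kfun a b`. Proof: by `IsQuat.symm` use `qfun b a`; with `r ^ 2 = b` and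
`w g = r` if `mv a g`, `1` otherwise, the coboundary of `w` at `(g, h)` is
`(-1)^(chi_b g chi_a h) * b ^ carry` where `b ^ carry = kfun a b`; and `kfun a b ^ 2` is the
coboundary of `g ↦ b` if `mv a g`, `1` otherwise. -/
theorem kfun_quat {a : K} {b : Kˣ} : ∃ h : kfun a b ∈ Z2 K,
    IsQuat a (b : K) (cls ⟨kfun a b, h⟩) := by
  classical
  obtain ⟨r, hr⟩ := exists_root (b : K)
  obtain ⟨s, hs⟩ := exists_root a
  have hr0 : r ≠ 0 := by
    rintro rfl
    rw [zero_pow two_ne_zero] at hr
    exact b.ne_zero ((map_eq_zero (algebraMap K (Kb K))).1 hr.symm)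
  obtain ⟨ru, hru0⟩ : ∃ ru : (Kb K)ˣ, (ru : Kb K) = r := ⟨Units.mk0 r hr0, rfl⟩
  have hru : Units.map (algebraMap K (Kb K)).toMonoidHom b = ru * ru := by
    apply Units.ext
    rw [Units.val_mul, hru0, ← sq, hr]
    rfl
  have hact : ∀ g : GK K, g • ru = if mv (b : K) g then -ru else ru := by
    intro g
    apply Units.ext
    rw [AlgEquiv.smul_units_def]
    have e : ((Units.map (g : Kb K →* Kb K)) ru : Kb K) = g r := by
      rw [← hru0]
      rfl
    by_cases hm : mv (b : K) g
    · rw [if_pos hm, Units.val_neg, hru0]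
      rcases apply_root hr g with h | h
      · exact absurd h ((mv_iff hr g).1 hm)
      · exact e.trans h
    · rw [if_neg hm, hru0]
      have h : g r = r := by
        by_contra hne
        exact hm ((mv_iff hr g).2 hne)
      exact e.trans h
  have hB : qfun (b : K) a / kfun a b ∈ B2 K := by
    obtain ⟨M, hM, hsM⟩ := exists_finite_sub (K := K) {s} (by simp)
    refine ⟨fun g => if mv a g then ru⁻¹ else 1, ⟨M, hM, ?_⟩, ?_⟩
    · intro g k hg
      have e : mv a g ↔ mv a k := by
        rw [mv_iff hs, mv_iff hs, hg s (hsM (by simp))]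
      exact if_congr e rfl rfl
    · intro g k
      have e1 := mv_mul a g k
      have e2 := hact g
      rw [Pi.div_apply, qfun_def]
      unfold kfun
      rw [hru]
      by_cases p1 : mv a g <;> by_cases p2 : mv a k <;> by_cases p3 : mv (b : K) g <;>
        simp [e1, e2, p1, p2, p3, smul_inv']
      rw [div_eq_mul_inv, mul_inv, neg_mul, one_mul]
  have hq : qfun (b : K) a ∈ Z2 K := qfun_mem _ _
  have hk : kfun a b ∈ Z2 K := by
    have h1 : kfun a b = qfun (b : K) a / (qfun (b : K) a / kfun a b) := by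
      rw [div_div_cancel]
    rw [h1]
    exact (Z2 K).div_mem hq (B2_le_Z2 hB)
  refine ⟨hk, IsQuat.symm ⟨⟨qfun (b : K) a, hq⟩, rfl, ?_⟩⟩
  rw [cls_eq_cls]
  exact hB

end

end BB37
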