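import Pool.Agent.Lib.MP_bb37eb_nt.ODD.QB
import Pool.Agent.Lib.MP_bb37eb_nt.ODD.H90R

/-! ODD: quaternion classes and norms. -/

namespace BB37

section

variable {K : Type} [Field K] [CharZero K]

/-- if `b` is a norm: cochain `z` on the `g` with `mv a g`, `z = u + r v`, `r ^ 2 = a` -/
theorem kfun_of_norm {a : K} {b : Kˣ} {u v : K} (h : u ^ 2 - a * v ^ 2 = b) :
    kfun a b ∈ B2 K := by
  classical
  obtain ⟨r, hr⟩ := exists_root a
  let U : Kb K := algebraMap K (Kb K) u
  let V : Kb K := algebraMap K (Kb K) v
  have hprod : (U - r * V) * (U + r * V) = algebraMap K (Kb K) (b : K) := by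
    have e : (U - r * V) * (U + r * V) = U ^ 2 - r ^ 2 * V ^ 2 := by ring
    rw [e, hr, ← h, map_sub, map_mul, map_pow, map_pow]
  have hb : algebraMap K (Kb K) (b : K) ≠ 0 := by
    rw [Ne, map_eq_zero]
    exact b.ne_zero
  have hz : U + r * V ≠ 0 := by
    intro h0
    rw [h0, mul_zero] at hprod
    exact hb hprod.symm
  let z : (Kb K)ˣ := Units.mk0 (U + r * V) hz
  refine ⟨fun g => if mv a g then z else 1, ?_, ?_⟩
  · apply smooth1_of_val r
    intro g g' hg
    have e : mv a g ↔ mv a g' := by rw [mv_iff hr, mv_iff hr, hg]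
    exact if_congr e rfl rfl
  · intro g k
    have e1 := mv_mul a g k
    have hU : ∀ g : GK K, g U = U := fun g => g.commutes u
    have hV : ∀ g : GK K, g V = V := fun g => g.commutes v
    have e0 : kfun a b (g, k) = if mv a g ∧ mv a k then
        Units.map (algebraMap K (Kb K)).toMonoidHom b else 1 := rfl
    rw [e0]
    by_cases p1 : mv a g <;> by_cases p2 : mv a k
    · have hg : g r = -r := by
        rcases apply_root hr g with h1 | h1
        · exact absurd h1 ((mv_iff hr g).1 p1)
        · exact h1
      have p3 : ¬ mv a (g * k) := by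
        rw [e1]
        simp [p1, p2]
      simp only [p1, p2, p3, and_self, if_true, if_false, div_one]
      apply Units.ext
      rw [Units.val_mul, AlgEquiv.smul_units_def]
      have e2 : ((Units.map ((g : Kb K ≃ₐ[K] Kb K) : Kb K →* Kb K)) z : Kb K) = U - r * V := by
        change g (U + r * V) = _
        rw [map_add, map_mul, hU, hV, hg]
        ring
      rw [e2]
      exact hprod.symm
    · have p3 : mv a (g * k) := by
        rw [e1]
        simp [p1, p2]
      simp [p1, p2, p3]
    · have hg : g r = r := by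
        by_contra h1
        exact p1 ((mv_iff hr g).2 h1)
      have p3 : mv a (g * k) := by
        rw [e1]
        simp [p1, p2]
      have e2 : g • z = z := by
        apply Units.ext
        rw [AlgEquiv.smul_units_def]
        change g (U + r * V) = U + r * V
        rw [map_add, map_mul, hU, hV, hg]
      simp [p1, p2, p3, e2]
    · have p3 : ¬ mv a (g * k) := by
        rw [e1]
        simp [p1, p2]
      simp [p1, p2, p3]

/-- if the cocycle is a coboundary then `b` is a norm. If `a` is a square the norm form is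
universal. Otherwise `hilbert90_rel` for a root `r` of `a`: the cochain `w` can be changed so that
`w = 1` on the stabiliser of `r`; then for `g r = - r` the value `z = w g` is fixed by the
stabiliser of `r`, and `b = kfun (g, g) = g z * z`; `z = u + r v` because `z` is fixed by the
stabiliser (`u = (z + g z) / 2`, `exists_of_fixed`). -/
theorem norm_of_kfun {a : K} {b : Kˣ} (ha : a ≠ 0) (h : kfun a b ∈ B2 K) :
    ∃ u v : K, u ^ 2 - a * v ^ 2 = b := by
  classical
  have hchar : CharZero (Kb K) := charZero_Kb K
  obtain ⟨r, hr⟩ := exists_root a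
  have hr0 : r ≠ 0 := by
    rintro rfl
    rw [zero_pow two_ne_zero] at hr
    exact ha ((map_eq_zero _).1 hr.symm)
  by_cases hfix : ∀ g : GK K, g r = r
  · obtain ⟨s, hs⟩ := exists_of_fixed hfix
    have hs2 : s ^ 2 = a := by
      apply (algebraMap K (Kb K)).injective
      rw [map_pow, hs, hr]
    have hs0 : s ≠ 0 := by
      rintro rfl
      rw [map_zero] at hs
      exact hr0 hs.symm
    refine ⟨((b : K) + 1) / 2, ((b : K) - 1) / (2 * s), ?_⟩
    rw [← hs2]
    field_simp
    ring
  · push Not at hfix
    obtain ⟨g0, hg0⟩ := hfix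
    have hg0' : g0 r = -r := by
      rcases apply_root hr g0 with h1 | h1
      · exact absurd h1 hg0
      · exact h1
    obtain ⟨w, hw, hc⟩ := h
    have hk1 : ∀ g k : GK K, ¬ (mv a g ∧ mv a k) → kfun a b (g, k) = 1 := by
      intro g k hh
      exact if_neg hh
    have hk2 : kfun a b (g0, g0) = Units.map (algebraMap K (Kb K)).toMonoidHom b := by
      have : mv a g0 := (mv_iff hr g0).2 hg0
      exact if_pos ⟨this, this⟩
    have nmv : ∀ g : GK K, g r = r → ¬ mv a g := by
      intro g hg hm
      exact (mv_iff hr g).1 hm hg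
    obtain ⟨z0, hz0⟩ := hilbert90_rel r w hw (by
      intro g k hg hk
      have e := hc g k
      rw [hk1 g k (fun hh => nmv g hg hh.1)] at e
      rw [mul_comm (w g)]
      exact (div_eq_one.1 e.symm).symm)
    -- the changed cochain
    let w' : GK K → (Kb K)ˣ := fun g => w g * z0 / g • z0
    have hc' : ∀ g k, kfun a b (g, k) = g • w' k * w' g / w' (g * k) := by
      intro g k
      rw [hc g k]
      simp only [w', smul_div', smul_mul', mul_smul]
      generalize g • w k = a1
      generalize w g = a2
      generalize w (g * k) = a3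
      generalize g • z0 = a4
      generalize g • k • z0 = a5
      have e : a1 * a4 / a5 * (a2 * z0 / a4) / (a3 * z0 / a5) =
          a1 * a2 / a3 * (a4 / a4) * (a5 / a5) * (z0 / z0) := by
        simp only [div_eq_mul_inv, mul_inv_rev, inv_inv]
        ac_rfl
      rw [e, div_self', div_self', div_self', mul_one, mul_one, mul_one]
    have hw1 : ∀ g : GK K, g r = r → w' g = 1 := by
      intro g hg
      simp only [w']
      rw [hz0 g hg]
      simp
    let z : (Kb K)ˣ := w' g0
    -- elements of the stabiliser fix z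
    have hinv : ∀ g : GK K, g r = r → g⁻¹ r = r := by
      intro g hg
      have : g⁻¹ (g r) = r := by
        rw [← AlgEquiv.mul_apply, inv_mul_cancel, AlgEquiv.one_apply]
      rwa [hg] at this
    have hg0inv : g0⁻¹ r = -r := by
      have : g0⁻¹ (g0 r) = r := by
        rw [← AlgEquiv.mul_apply, inv_mul_cancel, AlgEquiv.one_apply]
      rw [hg0', map_neg] at this
      exact neg_eq_iff_eq_neg.1 this
    have hstab : ∀ k : GK K, k r = r → k • z = z := by
      intro k hk
      have e1 := hc' k g0
      rw [hk1 k g0 (fun hh => nmv k hk hh.1), hw1 k hk, mul_one] at e1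
      have e1' : k • w' g0 = w' (k * g0) := div_eq_one.1 e1.symm
      have hk' : (g0⁻¹ * k * g0) r = r := by
        rw [AlgEquiv.mul_apply, AlgEquiv.mul_apply, hg0', map_neg, hk, map_neg, hg0inv, neg_neg]
      have e2 := hc' g0 (g0⁻¹ * k * g0)
      rw [hk1 g0 _ (fun hh => nmv _ hk' hh.2), hw1 _ hk', smul_one, one_mul] at e2
      have e2' : w' g0 = w' (g0 * (g0⁻¹ * k * g0)) := div_eq_one.1 e2.symm
      have e3 : g0 * (g0⁻¹ * k * g0) = k * g0 := by group
      rw [e3] at e2'
      change k • w' g0 = w' g0
      rw [e1', ← e2']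
    have hzK : ∀ k : GK K, k r = r → k (z : Kb K) = z := by
      intro k hk
      have := congrArg (fun u : (Kb K)ˣ => (u : Kb K)) (hstab k hk)
      rw [AlgEquiv.smul_units_def] at this
      exact this
    have hsq : (g0 * g0) r = r := by
      rw [AlgEquiv.mul_apply, hg0', map_neg, hg0', neg_neg]
    have hb : g0 (z : Kb K) * z = algebraMap K (Kb K) (b : K) := by
      have e := hc' g0 g0
      rw [hk2, hw1 _ hsq, div_one] at e
      have := congrArg (fun u : (Kb K)ˣ => (u : Kb K)) e
      rw [Units.val_mul, AlgEquiv.smul_units_def] at this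
      exact this.symm
    -- the other conjugates
    have h1 : ∀ g : GK K, g r = r → g (z : Kb K) = z ∧ g (g0 (z : Kb K)) = g0 z := by
      intro g hg
      refine ⟨hzK g hg, ?_⟩
      have hk' : (g0⁻¹ * g * g0) r = r := by
        rw [AlgEquiv.mul_apply, AlgEquiv.mul_apply, hg0', map_neg, hg, map_neg, hg0inv, neg_neg]
      have e := hzK _ hk'
      have e3 : g * g0 = g0 * (g0⁻¹ * g * g0) := by group
      rw [← AlgEquiv.mul_apply, e3, AlgEquiv.mul_apply, e]
    have h2 : ∀ g : GK K, g r = -r → g (z : Kb K) = g0 z ∧ g (g0 (z : Kb K)) = z := by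
      intro g hg
      have hk : (g0⁻¹ * g) r = r := by
        rw [AlgEquiv.mul_apply, hg, map_neg, hg0inv, neg_neg]
      have e3 : g = g0 * (g0⁻¹ * g) := by group
      have e4 := h1 _ hk
      refine ⟨?_, ?_⟩
      · rw [e3, AlgEquiv.mul_apply, e4.1]
      · rw [e3, AlgEquiv.mul_apply, e4.2, ← AlgEquiv.mul_apply]
        exact hzK _ hsq
    obtain ⟨u, hu⟩ := exists_of_fixed (K := K) (x := ((z : Kb K) + g0 z) / 2) (by
      intro g
      rw [map_div₀, map_add, map_ofNat]
      rcases apply_root hr g with hg | hg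
      · rw [(h1 g hg).1, (h1 g hg).2]
      · rw [(h2 g hg).1, (h2 g hg).2, add_comm])
    obtain ⟨v, hv⟩ := exists_of_fixed (K := K) (x := ((z : Kb K) - g0 z) / (2 * r)) (by
      intro g
      rw [map_div₀, map_sub, map_mul, map_ofNat]
      rcases apply_root hr g with hg | hg
      · rw [(h1 g hg).1, (h1 g hg).2, hg]
      · rw [(h2 g hg).1, (h2 g hg).2, hg, mul_neg, div_neg, ← neg_div, neg_sub])
    refine ⟨u, v, ?_⟩
    apply (algebraMap K (Kb K)).injective
    rw [map_sub, map_mul, map_pow, map_pow, hu, hv, ← hr, ← hb]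
    field_simp
    ring

theorem quat_one_iff' {a b : K} (ha : a ≠ 0) (hb : b ≠ 0)
    {x : H2 K} (hx : IsQuat a b x) : x = 1 ↔ ∃ u v : K, u ^ 2 - a * v ^ 2 = b := by
  obtain ⟨h, h1⟩ := kfun_quat (a := a) (b := Units.mk0 b hb)
  rw [hx.eq h1, cls_eq_one]
  exact ⟨norm_of_kfun ha, fun ⟨u, v, h2⟩ => kfun_of_norm h2⟩

end

end BB37
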