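import Pool.Agent.Lib.MP_bb37eb_nt.ODD.QBB

/-! ODD: quaternion classes over the `p`-adic numbers, `p` odd. -/

namespace BB37


private theorem hensel_sq {p : ℕ} [Fact p.Prime] (x : ℤ_[p])
    (h : ‖x - 1‖ < ‖(2 : ℤ_[p])‖ ^ 2) : IsSquare x := by
  let F : Polynomial ℤ_[p] := Polynomial.X ^ 2 - Polynomial.C x
  have h1 : Polynomial.aeval (1 : ℤ_[p]) F = 1 - x := by simp [F]
  have h2 : Polynomial.aeval (1 : ℤ_[p]) (Polynomial.derivative F) = 2 := by
    simp [F]
    norm_num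
  obtain ⟨z, hz, -⟩ := hensels_lemma (F := F) (a := (1 : ℤ_[p]))
    (by rw [h1, h2, norm_sub_rev]; exact h)
  refine ⟨z, ?_⟩
  have h3 : z ^ 2 - x = 0 := by simpa [F] using hz
  linear_combination -h3

section

variable {p : ℕ} [Fact p.Prime]

private theorem norm_two (hp : p ≠ 2) : ‖(2 : ℤ_[p])‖ = 1 := by
  have hpp : p.Prime := Fact.out
  refine le_antisymm (PadicInt.norm_le_one _) ?_
  by_contra h
  push Not at h
  have h2 : ‖((2 : ℤ) : ℤ_[p])‖ < 1 := by exact_mod_cast h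
  rw [PadicInt.norm_int_lt_one_iff_dvd] at h2
  have h3 : p ∣ 2 := by exact_mod_cast h2
  exact hp ((Nat.prime_dvd_prime_iff_eq hpp Nat.prime_two).1 h3)

/-- Hensel's lemma (`hensels_lemma` for `X ^ 2 - C x` in `ℤ_[p][X]`, at `1`) -/
theorem isSquare_of_near_one (hp : p ≠ 2) {x : ℚ_[p]} (h : ‖x - 1‖ < 1) : IsSquare x := by
  have hx : ‖x‖ ≤ 1 := by
    have e : x = (x - 1) + 1 := by ring
    rw [e]
    refine (Padic.nonarchimedean _ _).trans (max_le h.le ?_)
    rw [norm_one]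
  let X : ℤ_[p] := ⟨x, hx⟩
  have h1 : IsSquare X := by
    apply hensel_sq
    rw [norm_two hp, one_pow, PadicInt.norm_def]
    exact_mod_cast h
  obtain ⟨y, hy⟩ := h1
  exact ⟨(y : ℚ_[p]), by exact_mod_cast congrArg (fun z : ℤ_[p] => (z : ℚ_[p])) hy⟩

theorem isSquare_of_near (hp : p ≠ 2) {x y : ℚ_[p]} (hy : ‖y‖ = 1) (h : ‖x - y ^ 2‖ < 1) :
    IsSquare x := by
  have hy0 : y ≠ 0 := by
    rintro rfl
    simp at hy
  have h1 : IsSquare (x / y ^ 2) := by
    apply isSquare_of_near_one hp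
    have e : x / y ^ 2 - 1 = (x - y ^ 2) / y ^ 2 := by
      field_simp
    rw [e, norm_div, norm_pow, hy, one_pow, div_one]
    exact h
  obtain ⟨z, hz⟩ := h1
  refine ⟨z * y, ?_⟩
  have h2 : x = (x / y ^ 2) * y ^ 2 := by field_simp
  rw [h2, hz]
  ring

private theorem toZMod_ne_zero {x : ℤ_[p]} (hx : ‖x‖ = 1) : PadicInt.toZMod x ≠ 0 := by
  intro h
  have h1 : x ∈ RingHom.ker (PadicInt.toZMod : ℤ_[p] →+* ZMod p) := h
  rw [PadicInt.ker_toZMod] at h1
  have h2 := (IsLocalRing.mem_maximalIdeal _).1 h1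
  rw [PadicInt.mem_nonunits] at h2
  linarith

private theorem isSquare_iff_toZMod (hp : p ≠ 2) {x : ℤ_[p]} (hx : ‖x‖ = 1) :
    IsSquare (x : ℚ_[p]) ↔ IsSquare (PadicInt.toZMod x : ZMod p) := by
  constructor
  · rintro ⟨y, hy⟩
    have hy1 : ‖y‖ = 1 := by
      have h1 : ‖y‖ * ‖y‖ = 1 := by
        rw [← norm_mul, ← hy, ← PadicInt.norm_def, hx]
      nlinarith [norm_nonneg y]
    let Y : ℤ_[p] := ⟨y, hy1.le⟩
    have e : x = Y * Y := by
      apply Subtype.ext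
      exact hy
    rw [e, map_mul]
    exact ⟨_, rfl⟩
  · rintro ⟨c, hc⟩
    have hy : PadicInt.toZMod ((c.val : ℕ) : ℤ_[p]) = c := by
      rw [map_natCast, ZMod.natCast_zmod_val]
    set y : ℤ_[p] := ((c.val : ℕ) : ℤ_[p]) with hydef
    have hxy : ‖x - y ^ 2‖ < 1 := by
      have h1 : x - y ^ 2 ∈ RingHom.ker (PadicInt.toZMod : ℤ_[p] →+* ZMod p) := by
        rw [RingHom.mem_ker, map_sub, map_pow, hy, hc]
        ring
      rw [PadicInt.ker_toZMod] at h1
      exact PadicInt.mem_nonunits.1 ((IsLocalRing.mem_maximalIdeal _).1 h1)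
    have hy1 : ‖y‖ = 1 := by
      refine le_antisymm (PadicInt.norm_le_one _) ?_
      by_contra h
      push Not at h
      have h1 : y ∈ RingHom.ker (PadicInt.toZMod : ℤ_[p] →+* ZMod p) := by
        rw [PadicInt.ker_toZMod]
        exact (IsLocalRing.mem_maximalIdeal _).2 (PadicInt.mem_nonunits.2 h)
      rw [RingHom.mem_ker, hy] at h1
      apply toZMod_ne_zero hx
      rw [hc, h1, mul_zero]
    refine isSquare_of_near hp (y := (y : ℚ_[p])) ?_ ?_
    · rw [← PadicInt.norm_def, hy1]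
    · rw [PadicInt.norm_def] at hxy
      exact_mod_cast hxy

/-- units modulo squares -/
theorem isSquare_mul_unit (hp : p ≠ 2) {u v : ℚ_[p]} (hu : ‖u‖ = 1) (hv : ‖v‖ = 1)
    (hu' : ¬ IsSquare u) (hv' : ¬ IsSquare v) : IsSquare (u * v) := by
  classical
  let U : ℤ_[p] := ⟨u, hu.le⟩
  let V : ℤ_[p] := ⟨v, hv.le⟩
  have hU : ‖U‖ = 1 := hu
  have hV : ‖V‖ = 1 := hv
  have h1 : ¬ IsSquare (PadicInt.toZMod U : ZMod p) := fun h => hu' ((isSquare_iff_toZMod hp hU).2 h)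
  have h2 : ¬ IsSquare (PadicInt.toZMod V : ZMod p) := fun h => hv' ((isSquare_iff_toZMod hp hV).2 h)
  have hchar : ringChar (ZMod p) ≠ 2 := by rwa [ZMod.ringChar_zmod_n]
  have h3 : IsSquare (PadicInt.toZMod (U * V) : ZMod p) := by
    have hne : (PadicInt.toZMod (U * V) : ZMod p) ≠ 0 := by
      rw [map_mul]
      exact mul_ne_zero (toZMod_ne_zero hU) (toZMod_ne_zero hV)
    rw [← quadraticChar_one_iff_isSquare hne, map_mul, map_mul,
      (quadraticChar_neg_one_iff_not_isSquare).2 h1, (quadraticChar_neg_one_iff_not_isSquare).2 h2]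
    norm_num
  have hUV : ‖U * V‖ = 1 := by rw [norm_mul, hU, hV, one_mul]
  have h4 := (isSquare_iff_toZMod hp hUV).2 h3
  have e : ((U * V : ℤ_[p]) : ℚ_[p]) = u * v := by
    rw [PadicInt.coe_mul]
  rwa [e] at h4

/-- an integer is a square if and only if it is a square modulo `p` -/
theorem isSquare_int (hp : p ≠ 2) (m : ℤ) (hm : ¬ (p : ℤ) ∣ m) :
    IsSquare (m : ℚ_[p]) ↔ IsSquare (m : ZMod p) := by
  have h1 : ‖(m : ℤ_[p])‖ = 1 := by
    refine le_antisymm (PadicInt.norm_le_one _) ?_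
    by_contra h
    push Not at h
    exact hm (PadicInt.norm_int_lt_one_iff_dvd m |>.1 h)
  have h2 := isSquare_iff_toZMod hp h1
  rw [map_intCast, PadicInt.coe_intCast] at h2
  exact h2

end

end BB37
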