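import Pool.Agent.Lib.MP_bb37eb_nt.ODD.QP

/-! ODD: divisible units. -/

namespace BB37

section

variable {p : ℕ} [Fact p.Prime]

private theorem qpd_toZMod_eq_zero (x : ℤ_[p]) : PadicInt.toZMod x = 0 ↔ ‖x‖ < 1 := by
  rw [← RingHom.mem_ker, PadicInt.ker_toZMod, IsLocalRing.mem_maximalIdeal, PadicInt.mem_nonunits]

/-- closeness to 1 of products of units -/
private theorem qpd_near_mul {x y : ℚ_[p]} (hy : ‖y‖ = 1) (h1 : ‖x - 1‖ < 1) (h2 : ‖y - 1‖ < 1) :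
    ‖x * y - 1‖ < 1 := by
  have e : x * y - 1 = (x - 1) * y + (y - 1) := by ring
  rw [e]
  refine lt_of_le_of_lt (Padic.nonarchimedean _ _) (max_lt ?_ h2)
  rw [norm_mul, hy, mul_one]
  exact h1

private theorem qpd_near_pow {x : ℚ_[p]} (hx : ‖x‖ = 1) (h1 : ‖x - 1‖ < 1) (n : ℕ) :
    ‖x ^ n - 1‖ < 1 := by
  induction n with
  | zero => simp
  | succ n ih =>
    rw [pow_succ]
    exact qpd_near_mul hx ih h1

private theorem qpd_near_inv {x : ℚ_[p]} (hx : ‖x‖ = 1) (h1 : ‖x - 1‖ < 1) :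
    ‖x⁻¹ - 1‖ < 1 := by
  have hx0 : x ≠ 0 := by
    rintro rfl
    simp at hx
  have e : x⁻¹ - 1 = -(x⁻¹ * (x - 1)) := by
    field_simp
    ring
  rw [e, norm_neg, norm_mul, norm_inv, hx]
  simpa using h1

private theorem qpd_fermat {u : ℚ_[p]} (hu : ‖u‖ = 1) : ‖u ^ (p - 1) - 1‖ < 1 := by
  set u' : ℤ_[p] := ⟨u, hu.le⟩ with hu'
  have h0 : PadicInt.toZMod u' ≠ 0 := by
    rw [Ne, qpd_toZMod_eq_zero]
    intro h
    have h2 : ‖u'‖ = ‖u‖ := rfl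
    rw [h2, hu] at h
    exact lt_irrefl _ h
  have h1 := ZMod.pow_card_sub_one_eq_one h0
  have h2 : PadicInt.toZMod (u' ^ (p - 1) - 1) = 0 := by
    rw [map_sub, map_pow, h1, map_one, sub_self]
  rw [qpd_toZMod_eq_zero] at h2
  have h3 : ‖u' ^ (p - 1) - 1‖ = ‖u ^ (p - 1) - 1‖ := by
    rw [PadicInt.norm_def]
    push_cast
    rfl
  rwa [h3] at h2

/-- one extraction of a square root -/
private theorem qpd_step (hp : p ≠ 2) {o : ℕ} (ho : Odd o) {w : ℚ_[p]} (hw : ‖w‖ = 1)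
    (h1 : ‖w ^ o - 1‖ < 1) : ∃ v : ℚ_[p], ‖v‖ = 1 ∧ ‖v ^ o - 1‖ < 1 ∧ v ^ 2 = w := by
  obtain ⟨j, hj⟩ := ho
  have hw0 : w ≠ 0 := by
    rintro rfl
    simp at hw
  set y : ℚ_[p] := w ^ (j + 1) with hy
  have hyn : ‖y‖ = 1 := by rw [hy, norm_pow, hw, one_pow]
  have hy0 : y ≠ 0 := pow_ne_zero _ hw0
  have hwo : ‖w ^ o‖ = 1 := by rw [norm_pow, hw, one_pow]
  have e1 : w / y ^ 2 = (w ^ o)⁻¹ := by
    rw [hy, hj]
    field_simp
    ring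
  have h2 : ‖w / y ^ 2 - 1‖ < 1 := by
    rw [e1]
    exact qpd_near_inv hwo h1
  obtain ⟨t, ht⟩ := isSquare_of_near_one hp h2
  have htn : ‖t‖ = 1 := by
    have h3 : ‖t‖ * ‖t‖ = 1 := by
      rw [← norm_mul, ← ht, norm_div, norm_pow, hw, hyn]
      norm_num
    nlinarith [norm_nonneg t]
  have hyo : ‖y ^ o - 1‖ < 1 := by
    have : y ^ o = (w ^ o) ^ (j + 1) := by
      rw [hy, ← pow_mul, ← pow_mul, mul_comm]
    rw [this]
    exact qpd_near_pow hwo h1 _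
  have key : ∀ s : ℚ_[p], ‖s‖ = 1 → ‖s - 1‖ < 1 → s * s = w / y ^ 2 →
      ∃ v : ℚ_[p], ‖v‖ = 1 ∧ ‖v ^ o - 1‖ < 1 ∧ v ^ 2 = w := by
    intro s hs hs1 hss
    refine ⟨y * s, by rw [norm_mul, hyn, hs, one_mul], ?_, ?_⟩
    · rw [mul_pow]
      exact qpd_near_mul (by rw [norm_pow, hs, one_pow]) hyo (qpd_near_pow hs hs1 _)
    · rw [mul_pow, show s ^ 2 = s * s by ring, hss]
      field_simp
  have h4 : ‖t - 1‖ * ‖t + 1‖ < 1 := by
    rw [← norm_mul, show (t - 1) * (t + 1) = t * t - 1 by ring, ← ht]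
    exact h2
  by_cases h5 : ‖t - 1‖ < 1
  · exact key t htn h5 ht.symm
  · have h6 : ‖t + 1‖ < 1 := by
      have h7 := not_lt.1 h5
      by_contra h8
      have h9 := not_lt.1 h8
      nlinarith
    refine key (-t) (by rw [norm_neg, htn]) ?_ (by rw [neg_mul_neg, ht])
    rw [show -t - 1 = -(t + 1) by ring, norm_neg]
    exact h6

/-- roots of unity and divisible units: for a unit `u` there is `m` such that `u ^ (2 ^ m)` is a
`2 ^ n`-th power for all `n`. Proof: let `2 ^ m * o = p - 1`, `o` odd; a unit `w` whose residue has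
odd order `o` is the square of such a unit: `w / (w ^ ((o+1)/2)) ^ 2` is close to 1. -/
theorem unit_divisible (hp : p ≠ 2) {u : ℚ_[p]} (hu : ‖u‖ = 1) :
    ∃ m : ℕ, ∀ n : ℕ, ∃ v : ℚ_[p], v ^ 2 ^ n = u ^ 2 ^ m := by
  have hp1 : p - 1 ≠ 0 := by
    have := (Fact.out : p.Prime).one_lt
    omega
  obtain ⟨m, o, ho, hmo⟩ := Nat.exists_eq_two_pow_mul_odd hp1
  refine ⟨m, fun n => ?_⟩
  have hw : ‖u ^ 2 ^ m‖ = 1 := by rw [norm_pow, hu, one_pow]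
  have hwo : ‖(u ^ 2 ^ m) ^ o - 1‖ < 1 := by
    rw [← pow_mul, ← hmo]
    exact qpd_fermat hu
  have main : ∀ n : ℕ, ∃ v : ℚ_[p], ‖v‖ = 1 ∧ ‖v ^ o - 1‖ < 1 ∧ v ^ 2 ^ n = u ^ 2 ^ m := by
    intro n
    induction n with
    | zero => exact ⟨u ^ 2 ^ m, hw, hwo, by simp⟩
    | succ n ih =>
      obtain ⟨v, hv, hvo, hvn⟩ := ih
      obtain ⟨v', hv', hvo', hvv⟩ := qpd_step hp ho hv hvo
      exact ⟨v', hv', hvo', by rw [pow_succ', pow_mul, hvv, hvn]⟩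
  obtain ⟨v, -, -, hv⟩ := main n
  exact ⟨v, hv⟩

end

end BB37
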