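import Pool.Agent.Lib.MP_bb37eb_nt.ODD.QR

/-! ODD: the group `H2 ℝ`. -/

namespace BB37

open groupCohomology

private theorem qrb_ext {i : Kb ℝ}
    (hi : ∀ z : Kb ℝ, ∃ x y : ℝ, z = algebraMap ℝ (Kb ℝ) x + algebraMap ℝ (Kb ℝ) y * i)
    (g h : GK ℝ) (hgh : g i = h i) : g = h := by
  refine AlgEquiv.ext fun z => ?_
  obtain ⟨x, y, rfl⟩ := hi z
  rw [map_add, map_add, map_mul, map_mul, AlgEquiv.commutes, AlgEquiv.commutes,
    AlgEquiv.commutes, AlgEquiv.commutes, hgh]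

private theorem qrb_alg {G : Type} [CommGroup G] (A C w e : G) :
    A * (w * w) * e = A * w * (C * w) / C * e := by
  rw [mul_comm C w, ← mul_assoc (A * w) w C, mul_div_cancel_right, mul_assoc A w w]

private theorem qrb_key (c : Z2 ℝ) {i : Kb ℝ} (hi1 : i ^ 2 = -1)
    (hi : ∀ z : Kb ℝ, ∃ x y : ℝ, z = algebraMap ℝ (Kb ℝ) x + algebraMap ℝ (Kb ℝ) y * i)
    {σ : GK ℝ} (hσ1 : σ ≠ 1) (hσσ : σ * σ = 1) (hall : ∀ g : GK ℝ, g = 1 ∨ g = σ)
    (w e : (Kb ℝ)ˣ) (hw : σ • w = w)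
    (he : c.1 (σ, σ) = σ • c.1 (1, 1) * (w * w) * e) (d : Z2 ℝ)
    (hd1 : d.1 (1, 1) = 1) (hd2 : d.1 (1, σ) = 1) (hd3 : d.1 (σ, 1) = 1) (hd4 : d.1 (σ, σ) = e) :
    cls c = cls d := by
  classical
  have hc := c.2.2
  have hc1 : c.1 (1, σ) = c.1 (1, 1) := map_one_fst_of_isMulCocycle₂ hc σ
  have hc2 : c.1 (σ, 1) = σ • c.1 (1, 1) := map_one_snd_of_isMulCocycle₂ hc σ
  let v : GK ℝ → (Kb ℝ)ˣ := fun g => c.1 (1, 1) * (if g = 1 then 1 else w)
  have hv1 : v 1 = c.1 (1, 1) := by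
    show c.1 (1, 1) * (if (1 : GK ℝ) = 1 then 1 else w) = _
    rw [if_pos rfl, mul_one]
  have hvσ : v σ = c.1 (1, 1) * w := by
    show c.1 (1, 1) * (if σ = 1 then 1 else w) = _
    rw [if_neg hσ1]
  have hv : Smooth1 ℝ v := smooth1_of_val i v fun g g' hg => by rw [qrb_ext hi g g' hg]
  have e1 : c = dd v hv * d := by
    apply Subtype.ext
    funext p
    obtain ⟨g, h⟩ := p
    show c.1 (g, h) = (g • v h * v g / v (g * h)) * d.1 (g, h)
    rcases hall g with hg | hg <;> rcases hall h with hh | hh <;> rw [hg, hh]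
    · rw [hd1, mul_one, one_smul, mul_one, hv1, mul_div_cancel_right]
    · rw [hd2, mul_one, one_smul, one_mul, hv1, mul_div_cancel_left, hc1]
    · rw [hd3, mul_one, mul_one, hv1, mul_div_cancel_right, hc2]
    · rw [hσσ, hd4, hv1, hvσ, he, smul_mul', hw]
      exact qrb_alg _ _ _ _
  rw [e1, cls_mul, cls_dd, one_mul]

/-- `H2 ℝ` has two elements. Proof: normalise the cocycle (divide by the coboundary of the constant
`c (1,1)`); `a = c (σ, σ)` is fixed by `σ` (cocycle condition for `(σ,σ,σ)`), so real; if `a > 0`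
it is the coboundary of `σ ↦ √a`; if `a < 0` divide by the coboundary of `σ ↦ √(-a)` and the result
is `qfun (-1) (-1)`. -/
theorem H2_real (x : H2 ℝ) : x = 1 ∨ IsQuat (-1 : ℝ) (-1) x := by
  classical
  obtain ⟨c, rfl⟩ := cls_surj x
  obtain ⟨i, hi1, hi⟩ := exists_I
  obtain ⟨σ, hσ1, hσσ, hall⟩ := GR
  have hc := c.2.2
  have hc1 : c.1 (1, σ) = c.1 (1, 1) := map_one_fst_of_isMulCocycle₂ hc σ
  have hc2 : c.1 (σ, 1) = σ • c.1 (1, 1) := map_one_snd_of_isMulCocycle₂ hc σ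
  have h3 := hc σ σ σ
  rw [hσσ, hc1, hc2] at h3
  obtain ⟨a, ha⟩ : ∃ a, a = c.1 (σ, σ) / σ • c.1 (1, 1) := ⟨_, rfl⟩
  have hca : c.1 (σ, σ) = σ • c.1 (1, 1) * a := by rw [ha, mul_div_cancel]
  have haσ : σ • a = a := by
    rw [hca, smul_mul', smul_smul, hσσ, one_smul] at h3
    have h4 : c.1 (1, 1) * (σ • c.1 (1, 1)) * a = c.1 (1, 1) * (σ • c.1 (1, 1)) * σ • a := by
      rw [mul_assoc, h3, mul_right_comm]
    exact (mul_left_cancel h4).symm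
  have hafix : ∀ g : GK ℝ, g • a = a := by
    intro g
    rcases hall g with rfl | rfl
    · exact one_smul _ _
    · exact haσ
  obtain ⟨r, hr⟩ := exists_of_fixedU hafix
  have hreal : ∀ s : ℝˣ, σ • (Units.map (algebraMap ℝ (Kb ℝ)).toMonoidHom s) =
      Units.map (algebraMap ℝ (Kb ℝ)).toMonoidHom s := by
    intro s
    apply Units.ext
    rw [AlgEquiv.smul_units_def]
    exact AlgEquiv.commutes σ (s : ℝ)
  have hr0 : (r : ℝ) ≠ 0 := r.ne_zero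
  rcases lt_or_gt_of_ne hr0 with hneg | hpos
  · right
    have hs0 : √(-(r : ℝ)) ≠ 0 := (Real.sqrt_pos.2 (by linarith)).ne'
    have hw2 : Units.map (algebraMap ℝ (Kb ℝ)).toMonoidHom (Units.mk0 _ hs0) *
        Units.map (algebraMap ℝ (Kb ℝ)).toMonoidHom (Units.mk0 _ hs0) * -1 = a := by
      rw [← hr]
      apply Units.ext
      show algebraMap ℝ (Kb ℝ) √(-(r : ℝ)) * algebraMap ℝ (Kb ℝ) √(-(r : ℝ)) * -1 =
        algebraMap ℝ (Kb ℝ) r
      rw [← map_mul, Real.mul_self_sqrt (by linarith), map_neg]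
      ring
    have hmv1 : ¬ mv (-1 : ℝ) (1 : GK ℝ) := by
      rintro ⟨s, -, hs⟩
      exact hs rfl
    have hmvσ : mv (-1 : ℝ) σ := by
      refine ⟨i, by rw [hi1, map_neg, map_one], fun h => hσ1 (qrb_ext hi σ 1 ?_)⟩
      rw [h, AlgEquiv.one_apply]
    refine ⟨⟨qfun (-1 : ℝ) (-1), qfun_mem _ _⟩, rfl, ?_⟩
    refine (qrb_key c hi1 hi hσ1 hσσ hall _ (-1) (hreal (Units.mk0 _ hs0)) ?_ _ ?_ ?_ ?_ ?_).symm
    · rw [hca, mul_assoc, hw2]
    · show qfun (-1 : ℝ) (-1) (1, 1) = 1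
      rw [qfun_def, if_neg (fun h => hmv1 h.1)]
    · show qfun (-1 : ℝ) (-1) (1, σ) = 1
      rw [qfun_def, if_neg (fun h => hmv1 h.1)]
    · show qfun (-1 : ℝ) (-1) (σ, 1) = 1
      rw [qfun_def, if_neg (fun h => hmv1 h.2)]
    · show qfun (-1 : ℝ) (-1) (σ, σ) = -1
      rw [qfun_def, if_pos ⟨hmvσ, hmvσ⟩]
  · left
    have hs0 : √(r : ℝ) ≠ 0 := (Real.sqrt_pos.2 hpos).ne'
    have hw2 : Units.map (algebraMap ℝ (Kb ℝ)).toMonoidHom (Units.mk0 _ hs0) *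
        Units.map (algebraMap ℝ (Kb ℝ)).toMonoidHom (Units.mk0 _ hs0) = a := by
      rw [← hr]
      apply Units.ext
      show algebraMap ℝ (Kb ℝ) √(r : ℝ) * algebraMap ℝ (Kb ℝ) √(r : ℝ) =
        algebraMap ℝ (Kb ℝ) r
      rw [← map_mul, Real.mul_self_sqrt hpos.le]
    have e := qrb_key c hi1 hi hσ1 hσσ hall _ 1 (hreal (Units.mk0 _ hs0))
      (by rw [hca, hw2, mul_one]) 1 rfl rfl rfl rfl
    rw [e, cls_one]

theorem H2_real_ne (x : H2 ℝ) (hx : IsQuat (-1 : ℝ) (-1) x) : x ≠ 1 := by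
  intro h
  obtain ⟨u, v, huv⟩ := (quat_one_iff' (by norm_num) (by norm_num) hx).1 h
  nlinarith [sq_nonneg u, sq_nonneg v]

end BB37
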