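import Pool.Agent.Lib.MP_bb37eb_nt.ODD.PNB
import Pool.Agent.Lib.MP_bb37eb_nt.ODD.H90
import Pool.Agent.Lib.MP_bb37eb_nt.ODD.ChiB

/-! ODD: the fields `Q_p(t k)` are unramified. -/

namespace BB37

/-- `x` lies in `K(t)` (`t` with all its conjugates): fixed by the stabiliser of `t` -/
def FxO {K : Type} [Field K] (t x : Kb K) : Prop := ∀ g : GK K, g t = t → g x = x

section

variable {K : Type} [Field K] {t x y : Kb K}

theorem FxO.add (hx : FxO t x) (hy : FxO t y) : FxO t (x + y) := by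
  intro g hg
  rw [map_add, hx g hg, hy g hg]

theorem FxO.sub (hx : FxO t x) (hy : FxO t y) : FxO t (x - y) := by
  intro g hg
  rw [map_sub, hx g hg, hy g hg]

theorem FxO.mul (hx : FxO t x) (hy : FxO t y) : FxO t (x * y) := by
  intro g hg
  rw [map_mul, hx g hg, hy g hg]

theorem FxO.inv (hx : FxO t x) : FxO t x⁻¹ := by
  intro g hg
  rw [map_inv₀, hx g hg]

theorem FxO.pow (hx : FxO t x) (n : ℕ) : FxO t (x ^ n) := by
  intro g hg
  rw [map_pow, hx g hg]

theorem FxO.base (a : K) : FxO t (algebraMap K (Kb K) a) := by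
  intro g _
  exact g.commutes a

theorem FxO.self : FxO t t := fun _ h => h

/-- a square root -/
theorem apply_sqrt {r : Kb K} {g : GK K} (h : g (r ^ 2) = r ^ 2) : g r = r ∨ g r = -r := by
  rw [map_pow] at h
  exact sq_eq_sq_iff_eq_or_eq_neg.1 h

end

section

variable {K : Type} [Field K] [CharZero K] {t : ℕ → Kb K}

theorem FxO.mono (ht : IsTh t) {k k' : ℕ} (hk : k ≤ k') {x : Kb K} (hx : FxO (t k) x) :
    FxO (t k') x := by
  intro g hg
  exact hx g (fix_mono ht hk hg)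

/-- if `t (k+1)` lies in `K(t k)` then the two fields are equal -/
theorem FxO.of_succ {k : ℕ} (h : FxO (t k) (t (k + 1))) {x : Kb K} (hx : FxO (t (k + 1)) x) :
    FxO (t k) x := by
  intro g hg
  exact hx g (h g hg)

/-- the coordinates of `x ∈ K(t (k+1))` over `K(t k)`. Proof: `σ` moves `t (k+1)`, fixes `t k`;
`a = (x + σ x) / 2`, `b = (x - σ x) / (2 t (k+1))`. For `g` fixing `t k`, `g` or `σ⁻¹ g` fixes
`t (k+1)`, and `σ⁻¹ g σ` fixes `t (k+1)` if `g` does. -/
theorem FxO.coord (ht : IsTh t) {k : ℕ} {σ : GK K} (h1 : σ (t k) = t k)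
    (h2 : σ (t (k + 1)) ≠ t (k + 1)) {x : Kb K} (hx : FxO (t (k + 1)) x) :
    ∃ a b : Kb K, FxO (t k) a ∧ FxO (t k) b ∧ x = a + b * t (k + 1) ∧
      σ x = a - b * t (k + 1) := by
  have hch := charZero_Kb K
  obtain ⟨T, hT⟩ : ∃ T, T = t (k + 1) := ⟨_, rfl⟩
  rw [← hT] at h2 hx ⊢
  have hsq : T ^ 2 = 2 + t k := by rw [hT]; exact ht.2 k
  have hkey : ∀ g : GK K, g (t k) = t k → g T = T ∨ g T = -T := by
    intro g hg
    apply apply_sqrt
    rw [hsq, map_add, hg, map_ofNat]
  have hσT : σ T = -T := (hkey σ h1).resolve_left h2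
  have hT0 : T ≠ 0 := by
    rintro rfl
    exact h2 (map_zero σ)
  have h20 : (2 : Kb K) ≠ 0 := two_ne_zero
  have hσi : σ⁻¹ (-T) = T := by
    rw [← hσT]
    exact σ.symm_apply_apply T
  have hcase : ∀ g : GK K, g (t k) = t k →
      (g T = T ∧ g x = x ∧ g (σ x) = σ x) ∨ (g T = -T ∧ g x = σ x ∧ g (σ x) = x) := by
    intro g hg
    rcases hkey g hg with h | h
    · left
      refine ⟨h, hx g h, ?_⟩
      have e1 : (σ⁻¹ * (g * σ)) T = T := by
        rw [AlgEquiv.mul_apply, AlgEquiv.mul_apply, hσT, map_neg, h, hσi]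
      have e2 := hx _ e1
      rw [AlgEquiv.mul_apply, AlgEquiv.mul_apply] at e2
      have e3 := congrArg σ e2
      have e4 : σ (σ⁻¹ (g (σ x))) = g (σ x) := σ.apply_symm_apply _
      rw [e4] at e3
      exact e3
    · right
      refine ⟨h, ?_, ?_⟩
      · have e1 : (σ⁻¹ * g) T = T := by
          rw [AlgEquiv.mul_apply, h, hσi]
        have e2 := hx _ e1
        rw [AlgEquiv.mul_apply] at e2
        have e3 := congrArg σ e2
        have e4 : σ (σ⁻¹ (g x)) = g x := σ.apply_symm_apply _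
        rw [e4] at e3
        exact e3
      · have e1 : (g * σ) T = T := by
          rw [AlgEquiv.mul_apply, hσT, map_neg, h, neg_neg]
        have e2 := hx _ e1
        rw [AlgEquiv.mul_apply] at e2
        exact e2
  refine ⟨(x + σ x) / 2, (x - σ x) / (2 * T), ?_, ?_, ?_, ?_⟩
  · intro g hg
    rcases hcase g hg with ⟨h, h3, h4⟩ | ⟨h, h3, h4⟩
    · rw [map_div₀, map_add, h3, h4, map_ofNat]
    · rw [map_div₀, map_add, h3, h4, map_ofNat, add_comm]
  · intro g hg
    rcases hcase g hg with ⟨h, h3, h4⟩ | ⟨h, h3, h4⟩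
    · rw [map_div₀, map_sub, map_mul, h3, h4, map_ofNat, h]
    · rw [map_div₀, map_sub, map_mul, h3, h4, map_ofNat, h, mul_neg, div_neg, ← neg_div, neg_sub]
  · field_simp
    ring
  · field_simp
    ring

end

end BB37
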