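import Pool.Agent.Lib.MP_bb37eb_nt.ODD.UnA

/-! ODD: the norm in a quadratic step and the value group. -/

namespace BB37

section

variable {p : ℕ} [Fact p.Prime] (P : PNorm p) {t : ℕ → Kb ℚ_[p]}

/-- the norm in a quadratic step. Proof: `N x ^ 2 = N x * N (σ x) = N (a ^ 2 - b ^ 2 * t (k+1) ^ 2)`
with `N (t (k+1)) = 1`. If `N a ≠ N b` use `add_eq`. If `N a = N b ≠ 0` and
`N (a ^ 2 - (b t (k+1)) ^ 2) < N a ^ 2` then `sqrt_fixed` for `r = b * t (k+1)`, `g = σ`, gives
`σ (t (k+1)) = t (k+1)`. -/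
theorem PNorm.coord (hp : p ≠ 2) (ht : IsTh t) {k : ℕ} {σ : GK ℚ_[p]} (h1 : σ (t k) = t k)
    (h2 : σ (t (k + 1)) ≠ t (k + 1)) {a b : Kb ℚ_[p]} (ha : FxO (t k) a) (hb : FxO (t k) b) :
    P.N (a + b * t (k + 1)) = max (P.N a) (P.N b) := by
  have hN : P.N (b * t (k + 1)) = P.N b := by rw [P.mul, P.th_succ hp ht k, mul_one]
  by_cases hab : P.N a = P.N b
  · by_cases h0 : P.N a = 0
    · have ha0 : a = 0 := (P.eq_zero a).1 h0
      have hb0 : b = 0 := (P.eq_zero b).1 (hab ▸ h0)
      rw [ha0, hb0, zero_mul, add_zero, max_self]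
    · rw [← hab, max_self]
      have hle : P.N (a + b * t (k + 1)) ≤ P.N a := by
        refine (P.add _ _).trans ?_
        rw [hN, ← hab, max_self]
      refine le_antisymm hle ?_
      by_contra hlt
      push Not at hlt
      have hsq : σ (t (k + 1) ^ 2) = t (k + 1) ^ 2 := by
        rw [ht.2 k, map_add, h1]
        congr 1
        exact map_ofNat σ 2
      have hσ : σ (t (k + 1)) = -t (k + 1) := (apply_sqrt hsq).resolve_left h2
      have hσx : σ (a + b * t (k + 1)) = a - b * t (k + 1) := by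
        rw [map_add, map_mul, ha σ h1, hb σ h1, hσ]
        ring
      have h3 : P.N (a - b * t (k + 1)) = P.N (a + b * t (k + 1)) := by
        rw [← hσx, P.gal]
      have h4 : P.N ((b * t (k + 1)) ^ 2 - a ^ 2) < P.N a ^ 2 := by
        have e : (b * t (k + 1)) ^ 2 - a ^ 2 =
            -((a - b * t (k + 1)) * (a + b * t (k + 1))) := by ring
        rw [e, P.neg, P.mul, h3, ← sq]
        exact pow_lt_pow_left₀ hlt (P.nonneg _) two_ne_zero
      have h5 := P.sqrt_fixed hp h4 (by rw [mul_pow, map_mul, hsq, map_pow, hb σ h1]) (ha σ h1)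
      rw [map_mul, hb σ h1] at h5
      have hb0 : b ≠ 0 := by
        rintro rfl
        rw [(P.eq_zero 0).2 rfl] at hab
        exact h0 hab
      exact h2 (mul_left_cancel₀ hb0 h5)
  · rw [P.add_eq (by rw [hN]; exact hab), hN]

/-- the value group; induction on `k` with `FxO.coord`, `PNorm.coord`, `FxO.of_succ` -/
theorem PNorm.value (hp : p ≠ 2) (ht : IsTh t) (k : ℕ) {x : Kb ℚ_[p]} (hx : FxO (t k) x)
    (h0 : x ≠ 0) : ∃ m : ℤ, P.N x = (p : ℝ) ^ m := by
  induction k generalizing x with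
  | zero =>
    obtain ⟨a, rfl⟩ := exists_of_fixed (x := x) fun g => hx g (by rw [ht.1, map_zero])
    have ha : a ≠ 0 := by
      rintro rfl
      exact h0 (map_zero _)
    exact ⟨-a.valuation, by rw [P.base, Padic.norm_eq_zpow_neg_valuation ha]⟩
  | succ k ih =>
    by_cases hf : FxO (t k) (t (k + 1))
    · exact ih (FxO.of_succ hf hx) h0
    · unfold FxO at hf
      push Not at hf
      obtain ⟨σ, h1, h2⟩ := hf
      obtain ⟨a, b, ha, hb, hxe, -⟩ := FxO.coord ht h1 h2 hx
      have hN : P.N x = max (P.N a) (P.N b) := by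
        rw [hxe]
        exact P.coord hp ht h1 h2 ha hb
      have hx0 : P.N x ≠ 0 := fun h => h0 ((P.eq_zero x).1 h)
      rcases max_choice (P.N a) (P.N b) with h | h
      · rw [h] at hN
        rw [hN]
        refine ih ha ?_
        rintro rfl
        exact hx0 (hN.trans ((P.eq_zero 0).2 rfl))
      · rw [h] at hN
        rw [hN]
        refine ih hb ?_
        rintro rfl
        exact hx0 (hN.trans ((P.eq_zero 0).2 rfl))

end

end BB37
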