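import Pool.Agent.Lib.MP_bb37eb_nt.ODD.UnB

/-! ODD: finite residue field. -/

namespace BB37

section

variable {p : ℕ} [Fact p.Prime] (P : PNorm p) {t : ℕ → Kb ℚ_[p]}

/-- finite residue field; induction on `k` with `FxO.coord`, `PNorm.coord`, `FxO.of_succ`; for
`k = 0` the natural numbers less than `p` (`exists_of_fixed`, `PadicInt.exists_mem_range`) -/
theorem PNorm.residue (hp : p ≠ 2) (ht : IsTh t) (k : ℕ) : ∃ R : Finset (Kb ℚ_[p]),
    (∀ r ∈ R, FxO (t k) r) ∧ ∀ x, FxO (t k) x → P.N x ≤ 1 → ∃ r ∈ R, P.N (x - r) < 1 := by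
  classical
  induction k with
  | zero =>
    refine ⟨(Finset.range p).image fun n : ℕ => algebraMap ℚ_[p] (Kb ℚ_[p]) (n : ℚ_[p]), ?_, ?_⟩
    · intro r hr
      obtain ⟨n, _, rfl⟩ := Finset.mem_image.1 hr
      exact FxO.base _
    · intro x hx hN
      have hfix : ∀ g : GK ℚ_[p], g x = x := by
        intro g
        apply hx g
        rw [ht.1]
        exact map_zero g
      obtain ⟨a, ha⟩ := exists_of_fixed hfix
      have hnorm : ‖a‖ ≤ 1 := by
        rw [← P.base, ha]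
        exact hN
      obtain ⟨z, hz⟩ : ∃ z : ℤ_[p], (z : ℚ_[p]) = a := ⟨⟨a, hnorm⟩, rfl⟩
      obtain ⟨n, hn, hmem⟩ := PadicInt.exists_mem_range z
      refine ⟨algebraMap ℚ_[p] (Kb ℚ_[p]) (n : ℚ_[p]), ?_, ?_⟩
      · exact Finset.mem_image.2 ⟨n, Finset.mem_range.2 hn, rfl⟩
      · rw [← ha, ← map_sub, P.base]
        have h1 : ‖z - (n : ℤ_[p])‖ < 1 :=
          PadicInt.mem_nonunits.1 ((IsLocalRing.mem_maximalIdeal _).1 hmem)
        rw [PadicInt.norm_def] at h1
        rw [← hz]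
        simpa using h1
  | succ k ih =>
    obtain ⟨R, hR1, hR2⟩ := ih
    by_cases hσ : ∃ σ : GK ℚ_[p], σ (t k) = t k ∧ σ (t (k + 1)) ≠ t (k + 1)
    · obtain ⟨σ, h1, h2⟩ := hσ
      refine ⟨Finset.image₂ (fun a b => a + b * t (k + 1)) R R, ?_, ?_⟩
      · intro r hr
        obtain ⟨a, ha, b, hb, rfl⟩ := Finset.mem_image₂.1 hr
        exact ((hR1 a ha).mono ht (Nat.le_succ k)).add
          (((hR1 b hb).mono ht (Nat.le_succ k)).mul FxO.self)
      · intro x hx hN
        obtain ⟨a, b, ha, hb, hxab, -⟩ := FxO.coord ht h1 h2 hx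
        have hc := P.coord hp ht h1 h2 ha hb
        rw [← hxab] at hc
        have hab : max (P.N a) (P.N b) ≤ 1 := by
          rw [← hc]
          exact hN
        obtain ⟨r, hr, hr1⟩ := hR2 a ha (le_trans (le_max_left _ _) hab)
        obtain ⟨s, hs, hs1⟩ := hR2 b hb (le_trans (le_max_right _ _) hab)
        refine ⟨r + s * t (k + 1), Finset.mem_image₂.2 ⟨r, hr, s, hs, rfl⟩, ?_⟩
        have e : x - (r + s * t (k + 1)) = (a - r) + (b - s) * t (k + 1) := by
          rw [hxab]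
          ring
        rw [e, P.coord hp ht h1 h2 (ha.sub (hR1 r hr)) (hb.sub (hR1 s hs))]
        exact max_lt hr1 hs1
    · push Not at hσ
      refine ⟨R, fun r hr => (hR1 r hr).mono ht (Nat.le_succ k), ?_⟩
      intro x hx hN
      exact hR2 x (FxO.of_succ (fun g hg => hσ g hg) hx) hN

end

end BB37
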