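import Pool.Agent.Lib.MP_bb37eb_nt.ODD.UnC
import Pool.Agent.Lib.MP_bb37eb_nt.ODD.PNE

/-! ODD: the tower does not stop. -/

namespace BB37

section

variable {p : ℕ} [Fact p.Prime] (P : PNorm p) {t : ℕ → Kb ℚ_[p]}

private theorem und_step (hp : p ≠ 2) (ht : IsTh t) (i j : ℕ) :
    P.N (t i - t j) ≤ P.N (t (i + 1) - t (j + 1)) := by
  have e : t i - t j = (t (i + 1) - t (j + 1)) * (t (i + 1) + t (j + 1)) := by
    have h1 := ht.2 i
    have h2 := ht.2 j
    linear_combination h2 - h1
  rw [e, P.mul]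
  have h3 : P.N (t (i + 1) + t (j + 1)) ≤ 1 :=
    (P.add _ _).trans (max_le (P.th_aux hp ht _).1 (P.th_aux hp ht _).1)
  calc _ ≤ P.N (t (i + 1) - t (j + 1)) * 1 := mul_le_mul_of_nonneg_left h3 (P.nonneg _)
    _ = _ := mul_one _

private theorem und_down (hp : p ≠ 2) (ht : IsTh t) (i m : ℕ) :
    P.N (t 0 - t m) ≤ P.N (t i - t (i + m)) := by
  induction i with
  | zero => rw [Nat.zero_add]
  | succ i ih =>
    refine ih.trans ?_
    have h := und_step P hp ht i (i + m)
    rwa [show i + m + 1 = i + 1 + m by omega] at h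

/-- the tower of fields does not stop. Proof: otherwise `t m` lies in `K(t k)` for all `m`
(`FxO.of_succ`, induction), by `residue` and pigeonhole `N (t i - t j) < 1` with `i < j`; going
down (`t i - t j = (t (i+1) - t (j+1)) * (...)`, all integral) `N (t 0 - t (j - i)) < 1`, against
`th_succ`. -/
theorem PNorm.not_all (hp : p ≠ 2) (ht : IsTh t) (k : ℕ) :
    ∃ k' ≥ k, (∀ g : GK ℚ_[p], g (t k) = t k → g (t k') = t k') ∧
      ∃ g : GK ℚ_[p], g (t k) = t k ∧ g (t (k' + 1)) ≠ t (k' + 1) := by
  obtain ⟨P⟩ := exists_pnorm p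
  by_contra hcon
  have h1 : ∀ k' ≥ k, (∀ g : GK ℚ_[p], g (t k) = t k → g (t k') = t k') →
      ∀ g : GK ℚ_[p], g (t k) = t k → g (t (k' + 1)) = t (k' + 1) := by
    intro k' hk' h2 g hg
    by_contra h3
    exact hcon ⟨k', hk', h2, g, hg, h3⟩
  have h2 : ∀ m ≥ k, FxO (t k) (t m) := by
    intro m hm
    induction hm with
    | refl => exact fun _ h => h
    | step hm ih => exact h1 _ hm ih
  have h3 : ∀ m, FxO (t k) (t m) := by
    intro m
    rcases le_total k m with h | h
    · exact h2 m h
    · exact FxO.mono ht h FxO.self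
  obtain ⟨R, -, hR⟩ := P.residue hp ht k
  choose r hr1 hr2 using fun m => hR (t m) (h3 m) (P.th_aux hp ht m).1
  have hni : ¬ Function.Injective fun m => (⟨r m, hr1 m⟩ : R) := not_injective_infinite_finite _
  have key : ∀ i j, i < j → r i = r j → False := by
    intro i j hij he
    obtain ⟨m, rfl⟩ := Nat.exists_eq_add_of_lt hij
    have e1 : P.N (t i - t (i + m + 1)) < 1 := by
      have e2 : t i - t (i + m + 1) = (t i - r i) - (t (i + m + 1) - r (i + m + 1)) := by
        rw [← he]
        ring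
      rw [e2]
      exact (P.sub _ _).trans_lt (max_lt (hr2 _) (hr2 _))
    have e3 := und_down P hp ht i (m + 1)
    rw [← Nat.add_assoc] at e3
    have e4 : P.N (t 0 - t (m + 1)) = 1 := by
      rw [ht.1, zero_sub, P.neg, P.th_succ hp ht]
    rw [e4] at e3
    exact absurd (e3.trans_lt e1) (lt_irrefl _)
  apply hni
  intro i j hij
  have he : r i = r j := congrArg Subtype.val hij
  rcases lt_trichotomy i j with h | h | h
  · exact (key i j h he).elim
  · exact h
  · exact (key j i h he.symm).elim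

end

end BB37
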