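import Pool.Agent.Lib.MP_bb37eb_nt.ODD.UpA
import Pool.Agent.Lib.MP_bb37eb_nt.ODD.PNB
import Pool.Agent.Lib.MP_bb37eb_nt.ODD.QB

/-! ODD: the class of order two is a quaternion class. -/

namespace BB37

section

variable {p : ℕ} [Fact p.Prime] {t : ℕ → Kb ℚ_[p]}

private theorem updChi (ht : IsTh t) {s : ℕ} (h1 : ∀ g : GK ℚ_[p], g (t s) = t s)
    (g : GK ℚ_[p]) : (g (t (s + 1)) = t (s + 1) ∧ chi t (s + 1) g = 0) ∨
      (g (t (s + 1)) ≠ t (s + 1) ∧ chi t (s + 1) g = 2 ^ s) := by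
  have h2 := chi_succ ht s g
  rw [(chi_eq_zero ht s g).2 (h1 g)] at h2
  have h3 := chi_lt ht (s + 1) g
  obtain ⟨m, hm⟩ := Nat.dvd_of_mod_eq_zero h2
  rw [hm, pow_succ] at h3
  have h4 : m < 2 := lt_of_mul_lt_mul_left h3 (Nat.zero_le _)
  have h5 := chi_eq_zero ht (s + 1) g
  by_cases h6 : g (t (s + 1)) = t (s + 1)
  · exact Or.inl ⟨h6, h5.2 h6⟩
  · refine Or.inr ⟨h6, ?_⟩
    have h7 : m ≠ 0 := by
      rintro rfl
      rw [mul_zero] at hm
      exact h6 (h5.1 hm)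
    have h8 : m = 1 := by omega
    rw [hm, h8, mul_one]

private theorem updFun (ht : IsTh t) {s : ℕ} (h1 : ∀ g : GK ℚ_[p], g (t s) = t s)
    {a : ℚ_[p]} (ha : (t (s + 1)) ^ 2 = algebraMap ℚ_[p] (Kb ℚ_[p]) a) (b : ℚ_[p]ˣ) :
    kfun a b = cupf t (s + 1) b := by
  funext q
  obtain ⟨g, h⟩ := q
  have hpos : 0 < 2 ^ s := pow_pos two_pos s
  have e : (mv a g ∧ mv a h) ↔ 2 ^ (s + 1) ≤ chi t (s + 1) g + chi t (s + 1) h := by
    rw [mv_iff ha, mv_iff ha, pow_succ]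
    rcases updChi ht h1 g with ⟨hg, hg'⟩ | ⟨hg, hg'⟩ <;>
      rcases updChi ht h1 h with ⟨hh, hh'⟩ | ⟨hh, hh'⟩
    · rw [hg', hh']
      constructor
      · intro hc
        exact absurd hg hc.1
      · intro hc
        omega
    · rw [hg', hh']
      constructor
      · intro hc
        exact absurd hg hc.1
      · intro hc
        omega
    · rw [hg', hh']
      constructor
      · intro hc
        exact absurd hh hc.2
      · intro hc
        omega
    · rw [hg', hh']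
      constructor
      · intro _
        omega
      · intro _
        exact ⟨hg, hh⟩
  unfold kfun cupf
  dsimp only
  by_cases hc : mv a g ∧ mv a h
  · rw [if_pos hc, if_pos (e.1 hc)]
    rfl
  · rw [if_neg hc, if_neg (fun h' => hc (e.2 h'))]

/-- the class of order 2 is a quaternion class. Proof: `t s` is the image of `b ∈ ℚ_[p]`,
`t (s+1)` is a square root of `2 + b`; so `cupf t (s+1) p = kfun (2 + b) p`, by `kfun_quat` it is
`(2 + b, p)`. `2 + b` is a unit (`th_succ`), not a square; if `e` is a unit which is not a square,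
`e` is `2 + b` up to squares (`isSquare_mul_unit`), `IsQuat.congr`. -/
theorem quat_eq_hp (hp : p ≠ 2) (ht : IsTh t) {s : ℕ}
    (h1 : ∀ g : GK ℚ_[p], g (t s) = t s) (h2 : ∃ g : GK ℚ_[p], g (t (s + 1)) ≠ t (s + 1))
    {e : ℚ_[p]} (he : ‖e‖ = 1) (he' : ¬ IsSquare e) {x : H2 ℚ_[p]}
    (hx : IsQuat e (p : ℚ_[p]) x) : x = CU ht (s + 1) (pu p) := by
  obtain ⟨P⟩ := exists_pnorm p
  obtain ⟨b, hb⟩ := exists_of_fixed h1
  obtain ⟨a, rfl⟩ : ∃ a : ℚ_[p], a = 2 + b := ⟨_, rfl⟩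
  have ha : (t (s + 1)) ^ 2 = algebraMap ℚ_[p] (Kb ℚ_[p]) (2 + b) := by
    rw [ht.2 s, map_add, hb, map_ofNat]
  have hu : ‖(2 + b : ℚ_[p])‖ = 1 := by
    rw [← P.base, ← ha, P.pow, P.th_succ hp ht, one_pow]
  have hns : ¬ IsSquare (2 + b : ℚ_[p]) := by
    intro hc
    obtain ⟨g, hg⟩ := h2
    exact mv_of_isSquare hc g ((mv_iff ha g).2 hg)
  have h0 : (2 + b : ℚ_[p]) ≠ 0 := by
    intro hc
    rw [hc, norm_zero] at hu
    exact zero_ne_one hu
  have he0 : e ≠ 0 := by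
    rintro rfl
    rw [norm_zero] at he
    exact zero_ne_one he
  obtain ⟨w, hw⟩ := isSquare_mul_unit hp he hu he' hns
  have hw0 : w ≠ 0 := by
    rintro rfl
    rw [mul_zero] at hw
    exact (mul_ne_zero he0 h0) hw
  have e1 : e = (w / (2 + b)) ^ 2 * (2 + b) := by
    field_simp
    linear_combination hw
  have e2 : (p : ℚ_[p]) = 1 ^ 2 * ((pu p : ℚ_[p]ˣ) : ℚ_[p]) := by
    rw [one_pow, one_mul]
    rfl
  have h3 := (IsQuat.congr (div_ne_zero hw0 h0) one_ne_zero e1 e2).1 hx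
  obtain ⟨h4, h5⟩ := kfun_quat (a := (2 + b : ℚ_[p])) (b := pu p)
  rw [h3.eq h5, CU_def]
  congr 1
  exact Subtype.ext (updFun ht h1 ha (pu p))

end

end BB37
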