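import Pool.Agent.Lib.MP_bb37eb_nt.ODD.UpC
import Pool.Agent.Lib.MP_bb37eb_nt.ODD.UpD
import Pool.Agent.Lib.MP_bb37eb_nt.ODD.Cyc

/-! ODD: unramified cocycles with values in roots of unity. -/

namespace BB37

/-- unramified cocycles with values in roots of unity: `cyc`, then `CU_unit` (a root of unity in
`ℚ_[p]` has norm one) -/
theorem ODD_unramified' (p : Nat.Primes) (hp : p ≠ two) (θ : ℕ → Kb ℚ) (hθ : IsTheta θ) (k : ℕ)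
    (c : Z2 ℚ_[(p : ℕ)]) (N : ℕ) (hN : 0 < N) (hroot : ∀ q, c.1 q ^ N = 1)
    (hinf : ∀ g g' h h' : GK ℚ_[(p : ℕ)], g (emb ℚ _ (θ k)) = g' (emb ℚ _ (θ k)) →
      h (emb ℚ _ (θ k)) = h' (emb ℚ _ (θ k)) → c.1 (g, h) = c.1 (g', h')) :
    cls c = 1 := by
  have hp2 : (p : ℕ) ≠ 2 := by
    intro h
    exact hp (Subtype.ext h)
  have ht := hθ.emb ℚ_[(p : ℕ)]
  obtain ⟨a, h1, h2⟩ := cyc ht k c hinf
  have h3 := h2 N hroot
  have h4 : ‖(a : ℚ_[(p : ℕ)])‖ ^ N = 1 := by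
    have h5 := congrArg (fun x : ℚ_[(p : ℕ)]ˣ => ‖(x : ℚ_[(p : ℕ)])‖) h3
    simpa using h5
  rw [h1]
  exact CU_unit hp2 ht k a ((pow_eq_one_iff_of_nonneg (norm_nonneg _) hN.ne').1 h4)

end BB37
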