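import Pool.Agent.Lib.MP_bb37eb_nt.ODD.CupB
import Pool.Agent.Lib.MP_bb37eb_nt.ODD.UnD
import Pool.Agent.Lib.MP_bb37eb_nt.ODD.PNE
import Pool.Agent.Lib.MP_bb37eb_nt.ODD.QPD

/-! ODD: the classes `(chi_k, a)` over the `p`-adic numbers. -/

namespace BB37

section

variable {p : ℕ} [Fact p.Prime] {t : ℕ → Kb ℚ_[p]}

/-- the prime as a unit -/
noncomputable def pu (p : ℕ) [Fact p.Prime] : ℚ_[p]ˣ :=
  Units.mk0 (p : ℚ_[p]) (by exact_mod_cast (Fact.out : p.Prime).ne_zero)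

/-- `(chi_k, u) = 1` for a unit `u`. Proof: `CU_add`: `CU k u = CU (k + m) (u ^ 2 ^ m)`, by
`unit_divisible` `u ^ 2 ^ m = v ^ 2 ^ (k + m)`, `CU_pow`. -/
theorem CU_unit (hp : p ≠ 2) (ht : IsTh t) (k : ℕ) (u : ℚ_[p]ˣ) (hu : ‖(u : ℚ_[p])‖ = 1) :
    CU ht k u = 1 := by
  obtain ⟨m, hm⟩ := unit_divisible hp hu
  obtain ⟨v, hv⟩ := hm (k + m)
  have hv0 : v ≠ 0 := by
    rintro rfl
    rw [zero_pow (pow_ne_zero _ two_ne_zero)] at hv
    exact pow_ne_zero _ u.ne_zero hv.symm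
  have h : u ^ 2 ^ m = Units.mk0 v hv0 ^ 2 ^ (k + m) := by
    apply Units.ext
    rw [Units.val_pow_eq_pow_val, Units.val_pow_eq_pow_val, Units.val_mk0, hv]
  rw [← CU_add ht k m u, h]
  exact CU_pow ht (k + m) _

/-- every unit of the field is `p ^ m * u` -/
theorem CU_eq_pu (hp : p ≠ 2) (ht : IsTh t) (k : ℕ) (a : ℚ_[p]ˣ) :
    ∃ m : ℤ, CU ht k a = CU ht k (pu p) ^ m := by
  refine ⟨(a : ℚ_[p]).valuation, ?_⟩
  have hu : ‖((a * (pu p ^ (a : ℚ_[p]).valuation)⁻¹ : ℚ_[p]ˣ) : ℚ_[p])‖ = 1 := by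
    have hp0 : (p : ℝ) ≠ 0 := by exact_mod_cast (Fact.out : p.Prime).ne_zero
    rw [Units.val_mul, Units.val_inv_eq_inv_val, Units.val_zpow_eq_zpow_val, norm_mul, norm_inv,
      norm_zpow, Padic.norm_eq_zpow_neg_valuation a.ne_zero]
    have e : ‖((pu p : ℚ_[p]ˣ) : ℚ_[p])‖ = (p : ℝ)⁻¹ := Padic.norm_p
    rw [e, inv_zpow, inv_inv, ← zpow_add₀ hp0, neg_add_cancel, zpow_zero]
  have h := CU_unit hp ht k _ hu
  rw [map_mul, map_inv, map_zpow, mul_inv_eq_one] at h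
  exact h

/-- the level `s` at which the tower leaves the base field; `not_all` for `k = 0`
(`t 0 = 0` is fixed by everything) -/
theorem exists_level (hp : p ≠ 2) (ht : IsTh t) : ∃ s, (∀ g : GK ℚ_[p], g (t s) = t s) ∧
    ∃ g : GK ℚ_[p], g (t (s + 1)) ≠ t (s + 1) := by
  obtain ⟨P⟩ := exists_pnorm p
  have h : ∃ k' ≥ 0, (∀ g : GK ℚ_[p], g (t 0) = t 0 → g (t k') = t k') ∧
      ∃ g : GK ℚ_[p], g (t 0) = t 0 ∧ g (t (k' + 1)) ≠ t (k' + 1) := by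
    first
      | exact PNorm.not_all hp ht 0
      | exact PNorm.not_all P hp ht 0
  obtain ⟨s, _, h1, g, _, h2⟩ := h
  refine ⟨s, fun g => h1 g ?_, g, h2⟩
  rw [ht.1, map_zero]

end

end BB37
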