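import Pool.Agent.Lib.MP_bb37eb_nt.ODD.UpA
import Pool.Agent.Lib.MP_bb37eb_nt.ODD.Nrm

/-! ODD: the order of `(chi_k, p)`. -/

namespace BB37

section

variable {p : ℕ} [Fact p.Prime] {t : ℕ → Kb ℚ_[p]}

/-- `norm_of_CU`, `exists_gen'` and `PNorm.value`: if `(chi_k, p ^ m) = 1`, `p ^ m` is the product
of `2 ^ (k - s)` conjugates of `z ∈ Q_p(t k)`, `N z = p ^ j`, so `2 ^ (k - s)` divides `m` -/
theorem dvd_of_CU (hp : p ≠ 2) (ht : IsTh t) {s k : ℕ} (hs : s < k)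
    (h1 : ∀ g : GK ℚ_[p], g (t s) = t s) (h2 : ∃ g : GK ℚ_[p], g (t (s + 1)) ≠ t (s + 1))
    {m : ℤ} (h : CU ht k (pu p) ^ m = 1) : (2 ^ (k - s) : ℤ) ∣ m := by
  obtain ⟨P⟩ := exists_pnorm p
  obtain ⟨-, σ, hσ⟩ := exists_gen' ht k s hs h1 h2
  rw [← map_zpow] at h
  obtain ⟨z, hz, hprod⟩ := norm_of_CU ht hs hσ h
  have hz' : FxO (t k) (z : Kb ℚ_[p]) := by
    intro g hg
    have h3 := congrArg (fun u : (Kb ℚ_[p])ˣ => (u : Kb ℚ_[p])) (hz g hg)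
    rw [AlgEquiv.smul_units_def] at h3
    exact h3
  obtain ⟨j, hj⟩ := P.value hp ht k hz' z.ne_zero
  have h4 : P.N ((bu (pu p ^ m) : (Kb ℚ_[p])ˣ) : Kb ℚ_[p]) = (p : ℝ) ^ (-m) := by
    have e : ((bu (pu p ^ m) : (Kb ℚ_[p])ˣ) : Kb ℚ_[p]) =
        algebraMap ℚ_[p] (Kb ℚ_[p]) ((p : ℚ_[p]) ^ m) := by
      have e1 : ((pu p ^ m : ℚ_[p]ˣ) : ℚ_[p]) = (p : ℚ_[p]) ^ m := by
        rw [Units.val_zpow_eq_zpow_val]
        rfl
      rw [← e1]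
      rfl
    rw [e, P.base, norm_zpow, Padic.norm_p, inv_zpow, zpow_neg]
  have h5 : P.N ((∏ i ∈ Finset.range (2 ^ (k - s)), σ ^ i • z : (Kb ℚ_[p])ˣ) : Kb ℚ_[p]) =
      ((p : ℝ) ^ j) ^ (2 ^ (k - s)) := by
    rw [Units.coe_prod, P.prod]
    rw [Finset.prod_congr rfl (g := fun _ => (p : ℝ) ^ j), Finset.prod_const, Finset.card_range]
    intro i _
    rw [AlgEquiv.smul_units_def, ← hj]
    exact P.gal (σ ^ i) _
  have hp1 : (1 : ℝ) < p := by exact_mod_cast (Fact.out : p.Prime).one_lt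
  rw [hprod, h5, ← zpow_natCast, ← zpow_mul] at h4
  have h6 := zpow_right_injective₀ (by linarith) hp1.ne' h4
  have h7 : m = (2 ^ (k - s) : ℤ) * (-j) := by
    have h8 : ((2 ^ (k - s) : ℕ) : ℤ) = (2 ^ (k - s) : ℤ) := by push_cast; rfl
    rw [h8] at h6
    linarith
  exact ⟨_, h7⟩

end

end BB37
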