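import Pool.Agent.Lib.MP_bb37eb_nt.ODD.UpB

/-! ODD: the class of order two. -/

namespace BB37

section

variable {p : ℕ} [Fact p.Prime] {t : ℕ → Kb ℚ_[p]}

/-- the class of order 2 -/
theorem hp_ne_one (hp : p ≠ 2) (ht : IsTh t) {s : ℕ}
    (h1 : ∀ g : GK ℚ_[p], g (t s) = t s) (h2 : ∃ g : GK ℚ_[p], g (t (s + 1)) ≠ t (s + 1)) :
    CU ht (s + 1) (pu p) ≠ 1 ∧ CU ht (s + 1) (pu p) * CU ht (s + 1) (pu p) = 1 := by
  constructor
  · intro h
    have h3 : CU ht (s + 1) (pu p) ^ (1 : ℤ) = 1 := by rw [h, one_zpow]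
    have h4 := dvd_of_CU hp ht (Nat.lt_succ_self s) h1 h2 h3
    have h5 : s.succ - s = 1 := by omega
    rw [h5, pow_one] at h4
    exact absurd h4 (by decide)
  · rw [← map_mul, ← pow_two]
    rw [CU_succ ht s (pu p)]
    exact CU_fix ht s h1 (pu p)

/-- uniqueness of the class of order 2: raise the level to `k > s` by `CU_add`, then
`2 ^ (k - s) ∣ 2 m` by `dvd_of_CU`, so `m = 2 ^ (k - s - 1) * m'` and
`CU k (p ^ m) = CU (s + 1) p ^ m'`. -/
theorem two_torsion_CU (hp : p ≠ 2) (ht : IsTh t) {s : ℕ}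
    (h1 : ∀ g : GK ℚ_[p], g (t s) = t s) (h2 : ∃ g : GK ℚ_[p], g (t (s + 1)) ≠ t (s + 1))
    (k : ℕ) (m : ℤ) (h : CU ht k (pu p) ^ m * CU ht k (pu p) ^ m = 1) :
    CU ht k (pu p) ^ m = 1 ∨ CU ht k (pu p) ^ m = CU ht (s + 1) (pu p) := by
  rcases Nat.lt_or_ge s k with hk | hk
  · rw [← zpow_add] at h
    have h3 := dvd_of_CU hp ht hk h1 h2 h
    obtain ⟨j, rfl⟩ := Nat.exists_eq_add_of_lt hk
    have h4 : s + j + 1 - s = j + 1 := by omega
    rw [h4, pow_succ] at h3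
    obtain ⟨m', hm'⟩ := h3
    have h5 : m = 2 ^ j * m' := by
      have : 2 * m = 2 * (2 ^ j * m') := by rw [two_mul, hm']; ring
      exact mul_left_cancel₀ (by norm_num) this
    have h6 : CU ht (s + j + 1) (pu p) ^ m = CU ht (s + 1) (pu p) ^ m' := by
      rw [h5, zpow_mul]
      congr 1
      have h7 := CU_add ht (s + 1) j (pu p)
      have h8 : s + 1 + j = s + j + 1 := by omega
      rw [h8] at h7
      rw [← h7, map_pow]
      have : ((2 : ℤ) ^ j) = ((2 ^ j : ℕ) : ℤ) := by push_cast; rfl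
      rw [this, zpow_natCast]
    rw [h6]
    have h9 := (hp_ne_one hp ht h1 h2).2
    rcases Int.even_or_odd' m' with ⟨c, hc | hc⟩
    · left
      rw [hc, zpow_mul, zpow_two, h9, one_zpow]
    · right
      rw [hc, zpow_add, zpow_mul, zpow_two, h9, one_zpow, one_mul, zpow_one]
  · left
    rw [CU_fix ht k (fun g => fix_mono ht hk (h1 g)) (pu p), one_zpow]

end

end BB37
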