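import Pool.Agent.Lib.MP_bb37eb_nt.ODD.Dk

/-! ODD: roots of unity behind a tower. -/

namespace BB37

section

variable {F : Type} [Field F] [IsAlgClosed F] [CharZero F]

omit [IsAlgClosed F] in
private theorem zt_prim {z : F} {k : ℕ} (h : z ^ 2 ^ (k + 1) = -1) :
    IsPrimitiveRoot z (2 ^ (k + 2)) := by
  have h1 : ¬ z ^ 2 ^ (k + 1) = 1 := by
    rw [h]
    intro h2
    have h3 : (2 : F) = 0 := by linear_combination (-1 : F) * h2
    exact two_ne_zero h3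
  have h2 : z ^ 2 ^ (k + 1 + 1) = 1 := by
    rw [pow_succ 2 (k + 1), pow_mul, h]
    norm_num
  have h3 : orderOf z = 2 ^ (k + 1 + 1) := orderOf_eq_prime_pow h1 h2
  have h4 := IsPrimitiveRoot.orderOf z
  rw [h3] at h4
  exact h4

private theorem zt_exists {t : ℕ → F} (ht : IsTh t) (k : ℕ) :
    ∃ z : F, z ^ 2 ^ (k + 1) = -1 ∧ t k = z + z⁻¹ := by
  induction k with
  | zero =>
    obtain ⟨z, hz⟩ := IsAlgClosed.exists_pow_nat_eq (-1 : F) (n := 2) two_pos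
    refine ⟨z, by simpa using hz, ?_⟩
    have hz0 : z ≠ 0 := by
      rintro rfl
      norm_num at hz
    have h1 : z⁻¹ = -z := by
      apply inv_eq_of_mul_eq_one_right
      linear_combination (-1 : F) * hz
    rw [ht.1, h1, add_neg_cancel]
  | succ k ih =>
    obtain ⟨z, hz, hk⟩ := ih
    have hz0 : z ≠ 0 := by
      rintro rfl
      rw [zero_pow (by positivity)] at hz
      have h3 : (1 : F) = 0 := by linear_combination hz
      exact one_ne_zero h3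
    obtain ⟨w, hw⟩ := IsAlgClosed.exists_pow_nat_eq (t (k + 1) ^ 2 - 4) (n := 2) two_pos
    -- x = (t + w)/2
    have hx : ((t (k + 1) + w) / 2) ^ 2 - t (k + 1) * ((t (k + 1) + w) / 2) + 1 = 0 := by
      field_simp
      linear_combination hw
    generalize (t (k + 1) + w) / 2 = x at hx
    have hx0 : x ≠ 0 := by
      rintro rfl
      norm_num at hx
    have h1 : t (k + 1) = x + x⁻¹ := by
      field_simp
      linear_combination (-1 : F) * hx
    have h2 : x ^ 2 + (x ^ 2)⁻¹ = z + z⁻¹ := by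
      rw [← hk]
      have h3 := ht.2 k
      rw [h1] at h3
      have h4 : x * x⁻¹ = 1 := mul_inv_cancel₀ hx0
      rw [← inv_pow]
      linear_combination h3 - 2 * h4
    have h3 : (x ^ 2 - z) * (x ^ 2 - z⁻¹) = 0 := by
      have h4 : x ^ 2 * (x ^ 2)⁻¹ = 1 := mul_inv_cancel₀ (pow_ne_zero 2 hx0)
      have h5 : z * z⁻¹ = 1 := mul_inv_cancel₀ hz0
      linear_combination x ^ 2 * h2 - h4 + h5
    refine ⟨x, ?_, h1⟩
    rw [pow_succ' 2 (k + 1), pow_mul]
    rcases mul_eq_zero.1 h3 with h4 | h4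
    · rw [sub_eq_zero.1 h4, hz]
    · rw [sub_eq_zero.1 h4, inv_pow, hz]
      norm_num

/-- `t k = z + z⁻¹` with a primitive root of unity `z` of order `2 ^ (k+2)`.
Proof by induction: `k = 0`: `z ^ 2 = -1`. Step: choose `x ^ 2 - t (k+1) * x + 1 = 0`; then `x ^ 2`
is a root of `X ^ 2 - t k * X + 1`, whose roots are `z, z⁻¹`, both primitive of order `2 ^ (k+2)`,
so `x` has order `2 ^ (k+3)`. -/
theorem IsTh.exists_zeta {t : ℕ → F} (ht : IsTh t) (k : ℕ) :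
    ∃ z : F, IsPrimitiveRoot z (2 ^ (k + 2)) ∧ t k = z + z⁻¹ := by
  obtain ⟨z, h1, h2⟩ := zt_exists ht k
  exact ⟨z, zt_prim h1, h2⟩

private theorem zt_five (k : ℕ) : ∃ c : ℤ, (5 : ℤ) ^ 2 ^ k = 1 + 2 ^ (k + 2) * (2 * c + 1) := by
  induction k with
  | zero => exact ⟨0, by norm_num⟩
  | succ k ih =>
    obtain ⟨c, hc⟩ := ih
    refine ⟨c + 2 ^ k * (2 * c + 1) ^ 2, ?_⟩
    rw [pow_succ 2 k, pow_mul, hc]
    ring

private theorem zt_odd (j : ℕ) : ∃ c : ℤ, (5 : ℤ) ^ j = 2 * c + 1 := by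
  have h : Odd ((5 : ℤ) ^ j) := Odd.pow (by decide)
  exact h

private theorem zt_int (k : ℕ) (m : ℤ) (hm : Odd m) : ∃ j < 2 ^ k,
    (2 : ℤ) ^ (k + 2) ∣ m - 5 ^ j ∨ (2 : ℤ) ^ (k + 2) ∣ m + 5 ^ j := by
  induction k with
  | zero =>
    obtain ⟨r, rfl⟩ := hm
    refine ⟨0, by norm_num, ?_⟩
    have h1 : (2 : ℤ) ^ (0 + 2) = 4 := by norm_num
    rw [h1, pow_zero]
    omega
  | succ k ih =>
    obtain ⟨j, hj, h⟩ := ih
    obtain ⟨c, hc⟩ := zt_five k
    obtain ⟨d, hd⟩ := zt_odd j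
    have e : (5 : ℤ) ^ (j + 2 ^ k) =
        5 ^ j + 2 ^ (k + 2) + 2 ^ (k + 3) * (2 * c * d + c + d) := by
      rw [pow_add, hc, hd]
      ring
    rcases h with ⟨r, hr⟩ | ⟨r, hr⟩
    · rcases Int.even_or_odd' r with ⟨s, hs | hs⟩
      · refine ⟨j, hj.trans (Nat.pow_lt_pow_right (by norm_num) (by omega)), Or.inl ⟨s, ?_⟩⟩
        rw [hr, hs]
        ring
      · refine ⟨j + 2 ^ k, by rw [pow_succ]; omega, Or.inl ⟨s - (2 * c * d + c + d), ?_⟩⟩
        rw [e]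
        have : m = 5 ^ j + 2 ^ (k + 2) * r := by linarith
        rw [this, hs]
        ring
    · rcases Int.even_or_odd' r with ⟨s, hs | hs⟩
      · refine ⟨j, hj.trans (Nat.pow_lt_pow_right (by norm_num) (by omega)), Or.inr ⟨s, ?_⟩⟩
        rw [hr, hs]
        ring
      · refine ⟨j + 2 ^ k, by rw [pow_succ]; omega, Or.inr ⟨s + 1 + (2 * c * d + c + d), ?_⟩⟩
        rw [e]
        have : m = 2 ^ (k + 2) * r - 5 ^ j := by linarith
        rw [this, hs]
        ring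

/-- every odd number is `± 5 ^ j` modulo `2 ^ (k+2)`. Proof: `ZMod.orderOf_five`: the `2 ^ k`
elements `5 ^ j` are distinct and congruent to 1 mod 4, there are exactly `2 ^ k` classes
congruent to 1 mod 4. -/
theorem exists_five_pow (k m : ℕ) (hm : Odd m) : ∃ j < 2 ^ k,
    (m : ZMod (2 ^ (k + 2))) = 5 ^ j ∨ (m : ZMod (2 ^ (k + 2))) = -5 ^ j := by
  obtain ⟨j, hj, h⟩ := zt_int k m (by exact_mod_cast hm)
  refine ⟨j, hj, ?_⟩
  rcases h with h | h
  · left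
    have h1 : ((2 ^ (k + 2) : ℕ) : ℤ) ∣ (m : ℤ) - 5 ^ j := by exact_mod_cast h
    have h2 := (ZMod.intCast_zmod_eq_zero_iff_dvd _ _).2 h1
    push_cast at h2
    exact sub_eq_zero.1 h2
  · right
    have h1 : ((2 ^ (k + 2) : ℕ) : ℤ) ∣ (m : ℤ) + 5 ^ j := by exact_mod_cast h
    have h2 := (ZMod.intCast_zmod_eq_zero_iff_dvd _ _).2 h1
    push_cast at h2
    exact eq_neg_of_add_eq_zero_left h2

/-- `5 ^ i = ± 5 ^ j` modulo `2 ^ (k+2)` iff `i ≡ j` modulo `2 ^ k`. (The minus sign is impossible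
modulo 4.) -/
theorem five_pow_eq (k i j : ℕ) :
    ((5 : ZMod (2 ^ (k + 2))) ^ i = 5 ^ j ∨ (5 : ZMod (2 ^ (k + 2))) ^ i = -5 ^ j) ↔
      i ≡ j [MOD 2 ^ k] := by
  have hneg : ¬ (5 : ZMod (2 ^ (k + 2))) ^ i = -5 ^ j := by
    intro h
    have hd : 4 ∣ 2 ^ (k + 2) := ⟨2 ^ k, by ring⟩
    have h1 := congrArg (ZMod.castHom hd (ZMod 4)) h
    rw [map_neg, map_pow, map_pow, map_ofNat] at h1
    have h5 : (5 : ZMod 4) = 1 := by decide
    rw [h5, one_pow, one_pow] at h1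
    exact absurd h1 (by decide)
  rw [or_iff_left hneg]
  have hu : IsUnit (5 : ZMod (2 ^ (k + 2))) := by
    have h := (ZMod.isUnit_iff_coprime 5 (2 ^ (k + 2))).2
      (Nat.Coprime.pow_right _ (by norm_num))
    simpa using h
  obtain ⟨u, hu⟩ := hu
  have ho : orderOf u = 2 ^ k := by
    rw [← orderOf_units, hu]
    exact ZMod.orderOf_five k
  rw [← hu, ← ho, ← pow_eq_pow_iff_modEq, ← Units.val_pow_eq_pow_val,
    ← Units.val_pow_eq_pow_val, Units.val_inj]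

end

end BB37
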